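import Pool.Agent.Lib_MP_418a80_t3.NG2
import Pool.Agent.Lib_MP_418a80_t4.VDefs

/-!
# MP_418a80_an, T4, group side: the action on abelian quotients of a normal subgroup; `NilData`
-/

set_option autoImplicit false
set_option linter.unusedSectionVars false
set_option linter.unusedVariables false

open Topology Filter
open scoped commutatorElement RealInnerProductSpace

namespace Pool.Agent.AbCoc

universe u v w z

/-- continuous homomorphisms commute with real powers -/
theorem RPow.map_hom {G : Type w} [Group G] [TopologicalSpace G] {G' : Type z} [Group G']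
    [TopologicalSpace G'] [T2Space G'] (R : RPow G) (R' : RPow G') (φ : G →* G')
    (hφ : Continuous φ) (t : ℝ) (g : G) : φ (R.pw t g) = R'.pw t (φ g) := by
  have h := R'.eq_pw (fun t => φ (R.pw t g)) (hφ.comp (R.cont_left g))
    (fun s t => by rw [R.add, map_mul]) t
  rw [R.one] at h
  exact h

/-- transport of real powers -/
def RPow.congr {G : Type w} [Group G] [TopologicalSpace G] {G' : Type z} [Group G']
    [TopologicalSpace G'] (R : RPow G) (e : G ≃* G') (he : Continuous e) (he' : Continuous e.symm) :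
    RPow G' where
  pw t g := e (R.pw t (e.symm g))
  cont := he.comp (R.cont.comp (continuous_fst.prodMk (he'.comp continuous_snd)))
  one g := by rw [R.one, e.apply_symm_apply]
  add s t g := by rw [R.add, map_mul]
  root n hn g h hgh := by
    have h1 := R.root n hn (e.symm g) (e.symm h) (by rw [← map_pow, ← map_pow, hgh])
    exact e.symm.injective h1

section
variable {S : Type w} [Group S] [TopologicalSpace S]

/-- conjugation on a normal subgroup -/
def cjS (N : Subgroup S) [hN : N.Normal] (g : S) : N →* N where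
  toFun x := ⟨g * x * g⁻¹, hN.conj_mem x x.2 g⟩
  map_one' := Subtype.ext (by simp)
  map_mul' x y := Subtype.ext (by simp)

theorem cjS_coe (N : Subgroup S) [N.Normal] (g : S) (x : N) : (cjS N g x : S) = g * x * g⁻¹ := rfl

theorem cjS_mul (N : Subgroup S) [N.Normal] (g h : S) (x : N) :
    cjS N (g * h) x = cjS N g (cjS N h x) := Subtype.ext (by simp only [cjS_coe]; group)

theorem cjS_one (N : Subgroup S) [N.Normal] (x : N) : cjS N 1 x = x := Subtype.ext (by simp [cjS_coe])

/-- `x ↦ g x g⁻¹ x⁻¹` on a normal subgroup -/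
def cmN (N : Subgroup S) [N.Normal] (g : S) (x : N) : N := cjS N g x * x⁻¹

/-- `g` acts unipotently on `N / K` -/
def UnipOn (N : Subgroup S) [N.Normal] (K : Subgroup N) (g : S) : Prop :=
  ∃ k : ℕ, ∀ x : N, (cmN N g)^[k] x ∈ K

variable [IsTopologicalGroup S]

theorem continuous_cjS (N : Subgroup S) [N.Normal] (g : S) : Continuous (cjS N g) := by
  refine Continuous.subtype_mk ?_ _
  fun_prop

theorem continuous_cjS' (N : Subgroup S) [N.Normal] :
    Continuous fun x : S × N => cjS N x.1 x.2 := by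
  refine Continuous.subtype_mk ?_ _
  fun_prop

variable [T2Space S]

/-- the hull of the commutators is invariant -/
theorem cjS_hull (N : Subgroup S) [N.Normal] (R : RPow N) (g : S) {x : N} (hx : x ∈ R.hull) :
    cjS N g x ∈ R.hull := by
  have hn : R.hull.Normal := by
    refine ⟨fun a ha g => ?_⟩
    have h2 := mul_mem (R.comm_mem_hull g a) ha
    rwa [commutatorElement_def, inv_mul_cancel_right] at h2
  have h1 : R.hull ≤ R.hull.comap (cjS N g) := by
    refine R.hull_le inferInstance (R.hull_closed.preimage (continuous_cjS N g)) ?_ ?_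
    · intro t y hy
      rw [Subgroup.mem_comap] at hy ⊢
      rw [R.map_hom R _ (continuous_cjS N g)]
      exact R.hull_st t _ hy
    · intro a b
      rw [Subgroup.mem_comap, map_commutatorElement]
      exact R.comm_mem_hull _ _
  exact h1 hx

/-- **linearization**: the action of `S` by conjugation on an abelian quotient of `N` -/
theorem exists_lin (N : Subgroup S) [N.Normal] [LocallyCompactSpace N] (R : RPow N)
    (K : Subgroup N) (hcl : IsClosed (K : Set N)) (hs : R.St K)
    (hcomm : ∀ g h : N, ⁅g, h⁆ ∈ K) (hinv : ∀ (g : S) (x : N), x ∈ K → cjS N g x ∈ K) :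
    ∃ (m : ℕ) (ξ : N → EuclideanSpace ℝ (Fin m)) (sec : EuclideanSpace ℝ (Fin m) → N)
      (ρ : S → EuclideanSpace ℝ (Fin m) →L[ℝ] EuclideanSpace ℝ (Fin m)),
      Continuous ξ ∧ (∀ x y, ξ (x * y) = ξ x + ξ y) ∧ (∀ x, ξ x = 0 ↔ x ∈ K) ∧
      Continuous sec ∧ (∀ v, ξ (sec v) = v) ∧ Continuous ρ ∧
      (∀ g h, ρ (g * h) = (ρ g).comp (ρ h)) ∧ ρ 1 = ContinuousLinearMap.id ℝ _ ∧
      (∀ g x, ξ (cjS N g x) = ρ g (ξ x)) ∧ ∀ n : N, ρ n = ContinuousLinearMap.id ℝ _ := by
  obtain ⟨m, ξ, hξ, hξm, hξs, hξk⟩ := RPow.exists_hom R (K := K) hcl hs (fun g h => hcomm g h)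
  -- the section
  choose X hX using fun i : Fin m => hξs (EuclideanSpace.single i 1)
  set sec : EuclideanSpace ℝ (Fin m) → N := R.prd X with hsec
  have hsc : Continuous sec := R.continuous_prd X
  have hξsec : ∀ v, ξ (sec v) = v := by
    intro v
    rw [hsec, R.map_prd ξ hξ hξm]
    ext j
    rw [WithLp.ofLp_sum, Finset.sum_apply, Finset.sum_eq_single j]
    · rw [hX]
      simp [EuclideanSpace.single]
    · intro i _ hij
      rw [hX]
      simp [EuclideanSpace.single, hij.symm]
    · intro h; exact absurd (Finset.mem_univ j) h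
  have hξinv : ∀ x, ξ x⁻¹ = -ξ x := by
    intro x
    have h1 := hξm 1 1
    rw [mul_one] at h1
    have h2 := hξm x⁻¹ x
    rw [inv_mul_cancel, left_eq_add.1 h1] at h2
    exact eq_neg_of_add_eq_zero_left h2.symm
  have hcong : ∀ (g : S) (x y : N), ξ x = ξ y → ξ (cjS N g x) = ξ (cjS N g y) := by
    intro g x y hxy
    have h1 : x * y⁻¹ ∈ K := by
      rw [← hξk, hξm, hξinv, hxy, add_neg_cancel]
    have h2 := (hξk _).2 (hinv g _ h1)
    rw [map_mul, hξm, map_inv, hξinv, add_neg_eq_zero] at h2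
    exact h2
  have hadd : ∀ g v w, ξ (cjS N g (sec (v + w))) = ξ (cjS N g (sec v)) + ξ (cjS N g (sec w)) := by
    intro g v w
    rw [← hξm, ← map_mul]
    exact hcong g _ _ (by rw [hξm, hξsec, hξsec, hξsec])
  have hcont : ∀ g, Continuous fun v => ξ (cjS N g (sec v)) := fun g =>
    hξ.comp ((continuous_cjS N g).comp hsc)
  -- the linear maps
  obtain ⟨ρ, hρ⟩ : ∃ ρ : S → EuclideanSpace ℝ (Fin m) →L[ℝ] EuclideanSpace ℝ (Fin m),
      ∀ g v, ρ g v = ξ (cjS N g (sec v)) :=
    ⟨fun g => (AddMonoidHom.mk' (fun v => ξ (cjS N g (sec v))) (hadd g)).toRealLinearMap (hcont g),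
      fun g v => rfl⟩
  have hρξ : ∀ g x, ξ (cjS N g x) = ρ g (ξ x) := by
    intro g x
    rw [hρ]
    exact hcong g _ _ (hξsec _).symm
  refine ⟨m, ξ, sec, ρ, hξ, hξm, hξk, hsc, hξsec, ?_, ?_, ?_, hρξ, ?_⟩
  · rw [continuous_clm_apply]
    intro v
    simp only [hρ]
    exact hξ.comp ((continuous_cjS' N).comp (continuous_id.prodMk continuous_const))
  · intro g h
    ext1 v
    rw [ContinuousLinearMap.comp_apply, hρ (g * h), cjS_mul, hρξ, ← hρ]
  · ext1 v
    rw [hρ, cjS_one, hξsec]
    rfl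
  · intro n
    ext1 v
    rw [hρ]
    have e : cjS N n (sec v) = n * sec v * n⁻¹ := Subtype.ext rfl
    rw [e, hξm, hξm, hξinv, hξsec, add_comm, neg_add_cancel_left]
    rfl

/-- unipotent action in terms of the linearization -/
theorem unipOn_iff (N : Subgroup S) [N.Normal] {K : Subgroup N} {m : ℕ}
    {ξ : N → EuclideanSpace ℝ (Fin m)} {sec : EuclideanSpace ℝ (Fin m) → N}
    {ρ : S → EuclideanSpace ℝ (Fin m) →L[ℝ] EuclideanSpace ℝ (Fin m)}
    (hm : ∀ x y, ξ (x * y) = ξ x + ξ y) (hk : ∀ x, ξ x = 0 ↔ x ∈ K)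
    (hsec : ∀ v, ξ (sec v) = v) (hρ : ∀ g x, ξ (cjS N g x) = ρ g (ξ x)) (g : S) :
    UnipOn N K g ↔ IsNilpotent ((ρ g : EuclideanSpace ℝ (Fin m) →ₗ[ℝ] EuclideanSpace ℝ (Fin m))
      - LinearMap.id) := by
  have hξinv : ∀ x, ξ x⁻¹ = -ξ x := by
    intro x
    have h1 := hm 1 1
    rw [mul_one] at h1
    have h2 := hm x⁻¹ x
    rw [inv_mul_cancel, left_eq_add.1 h1] at h2
    exact eq_neg_of_add_eq_zero_left h2.symm
  obtain ⟨T, hT⟩ : ∃ T : EuclideanSpace ℝ (Fin m) →ₗ[ℝ] EuclideanSpace ℝ (Fin m),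
      T = (ρ g : EuclideanSpace ℝ (Fin m) →ₗ[ℝ] EuclideanSpace ℝ (Fin m)) - LinearMap.id :=
    ⟨_, rfl⟩
  have h1 : ∀ (k : ℕ) (x : N), ξ ((cmN N g)^[k] x) = (T ^ k) (ξ x) := by
    intro k
    induction k with
    | zero => intro x; rfl
    | succ k ih =>
      intro x
      rw [Function.iterate_succ_apply, ih, pow_succ, Module.End.mul_apply]
      congr 1
      unfold cmN
      rw [hm, hξinv, hρ, hT]
      simp [sub_eq_add_neg]
  rw [← hT]
  constructor
  · rintro ⟨k, hk'⟩
    refine ⟨k, ?_⟩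
    ext1 v
    have h2 := h1 k (sec v)
    rw [hsec, (hk _).2 (hk' _)] at h2
    rw [← h2]
    rfl
  · rintro ⟨k, hk'⟩
    refine ⟨k, fun x => ?_⟩
    rw [← hk, h1, hk']
    rfl

/-- a group with the nilradical `N`: closed, normal, nilpotent with continuous real powers,
`S / N = ℝ ^ a`; if all `t v` act unipotently on the abelianization of `N` then `v = 0` -/
structure NilData (S : Type w) [Group S] [TopologicalSpace S] [IsTopologicalGroup S] [T2Space S] where
  N : Subgroup S
  normal : N.Normal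
  closed : IsClosed (N : Set S)
  nilp : Group.IsNilpotent N
  R : RPow N
  a : ℕ
  V : VSec S (EuclideanSpace ℝ (Fin a))
  ker : ∀ g, g ∈ N ↔ V.p g = 0
  maxi : ∀ v, (∀ t : ℝ, UnipOn N R.hull (V.s (t • v))) → v = 0

end

end Pool.Agent.AbCoc
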