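import Mathlib

/-!
# MP_418a80_an, T4, group side: linear algebra of commuting endomorphisms
-/

set_option autoImplicit false

open Module

namespace Pool.Agent.AbCoc

universe u v

/-- **irreducible quotients.** `T` a commuting family of endomorphisms, `T v0` not nilpotent. There is
an invariant subspace `M` such that on `E / M` all `T w` are zero or injective, and `T v0` is not zero. -/
theorem exists_irred {E : Type u} [AddCommGroup E] [Module ℝ E] [FiniteDimensional ℝ E] {ι : Type v}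
    (T : ι → E →ₗ[ℝ] E) (hT : ∀ v w x, T v (T w x) = T w (T v x)) (v0 : ι)
    (h0 : ¬ IsNilpotent (T v0)) :
    ∃ M : Submodule ℝ E, (∀ w, ∀ x ∈ M, T w x ∈ M) ∧
      (∀ w, (∀ x, T w x ∈ M) ∨ ∀ x, T w x ∈ M → x ∈ M) ∧ ∃ x, T v0 x ∉ M := by
  obtain ⟨n, hn1, hn⟩ : ∃ n, 1 ≤ n ∧ IsCompl (LinearMap.ker (T v0 ^ n)) (LinearMap.range (T v0 ^ n)) := by
    have h := (T v0).eventually_isCompl_ker_pow_range_pow
    obtain ⟨n, h1, h2⟩ := (h.and (Filter.eventually_ge_atTop 1)).exists
    exact ⟨n, h2, h1⟩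
  have hpow : ∀ (k : ℕ) (w : ι) (x : E), (T v0 ^ k) (T w x) = T w ((T v0 ^ k) x) := by
    intro k w
    induction k with
    | zero => intro x; rfl
    | succ k ih =>
      intro x
      rw [pow_succ, Module.End.mul_apply, Module.End.mul_apply, hT, ih]
  -- the set of candidates
  obtain ⟨P, hP⟩ : ∃ P : Set (Submodule ℝ E), P = {M | (∀ w, ∀ x ∈ M, T w x ∈ M) ∧
      LinearMap.ker (T v0 ^ n) ≤ M ∧ M ≠ ⊤} := ⟨_, rfl⟩
  have hne : P.Nonempty := by
    refine ⟨LinearMap.ker (T v0 ^ n), ?_⟩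
    rw [hP]
    refine ⟨fun w x hx => ?_, le_rfl, fun h => h0 ⟨n, ?_⟩⟩
    · rw [LinearMap.mem_ker] at hx ⊢
      rw [hpow, hx, map_zero]
    · exact LinearMap.ker_eq_top.1 h
  obtain ⟨M, hM⟩ := exists_maximal_of_wellFoundedGT (P := fun M => M ∈ P) hne
  have hMP := hM.prop
  rw [hP] at hMP
  obtain ⟨hinv, hker, htop⟩ := hMP
  refine ⟨M, hinv, fun w => ?_, ?_⟩
  · -- the preimage of `M`
    by_cases hc : (M.comap (T w)) = ⊤
    · left
      intro x
      have : x ∈ M.comap (T w) := by rw [hc]; trivial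
      exact this
    · right
      have hle : M ≤ M.comap (T w) := fun x hx => hinv w x hx
      have hmem : M.comap (T w) ∈ P := by
        rw [hP]
        refine ⟨fun v x hx => ?_, hker.trans hle, hc⟩
        rw [Submodule.mem_comap] at hx ⊢
        rw [hT]
        exact hinv v _ hx
      have h1 := hM.le_of_ge hmem hle
      exact fun x hx => h1 hx
  · by_contra hcon
    push Not at hcon
    apply htop
    rw [eq_top_iff, ← hn.sup_eq_top]
    refine sup_le hker ?_
    rintro _ ⟨x, rfl⟩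
    obtain ⟨k, rfl⟩ : ∃ k, n = k + 1 := ⟨n - 1, by omega⟩
    rw [pow_succ', Module.End.mul_apply]
    exact hcon _

end Pool.Agent.AbCoc
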