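import Pool.Agent.Lib_MP_418a80_sol.SG0

/-!
# MP_418a80_an, T4, group side: the weight and the closed discrete subgroup of a group with `NilData`
-/

set_option autoImplicit false
set_option linter.unusedSectionVars false
set_option linter.unusedVariables false

open Topology Filter
open scoped commutatorElement RealInnerProductSpace

namespace Pool.Agent.AbCoc

universe u v w z

variable {S : Type w} [Group S] [TopologicalSpace S] [IsTopologicalGroup S] [T2Space S]

attribute [instance] NilData.normal NilData.nilp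

theorem NilData.lcN (D : NilData S) [LocallyCompactSpace S] : LocallyCompactSpace D.N :=
  D.closed.isClosedEmbedding_subtypeVal.locallyCompactSpace

theorem pow_finrank_of_nilpotent {E : Type w} [AddCommGroup E] [Module ℝ E] [FiniteDimensional ℝ E]
    (f : E →ₗ[ℝ] E) (h : IsNilpotent f) : f ^ Module.finrank ℝ E = 0 := by
  obtain ⟨k, hk⟩ := h
  have h1 := Module.End.ker_pow_eq_ker_pow_finrank_of_le (f := f)
    (m := max k (Module.finrank ℝ E)) (le_max_right _ _)
  have h2 : f ^ max k (Module.finrank ℝ E) = 0 := pow_eq_zero_of_le (le_max_left _ _) hk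
  rw [h2, LinearMap.ker_zero] at h1
  exact LinearMap.ker_eq_top.1 h1.symm

/-- the weight on the abelianization of the nilradical, and the closed discrete subgroup of the
elements which act unipotently -/
theorem NilData.exists_weight [LocallyCompactSpace S] (D : NilData S) :
    ∃ (m : ℕ) (W : WtV D.V (EuclideanSpace ℝ (Fin m)))
      (K : AddSubgroup (EuclideanSpace ℝ (Fin D.a))),
      IsClosed (K : Set (EuclideanSpace ℝ (Fin D.a))) ∧
      (∀ v, v ∈ K ↔ IsNilpotent
        ((W.ρ v : EuclideanSpace ℝ (Fin m) →ₗ[ℝ] EuclideanSpace ℝ (Fin m)) - LinearMap.id)) ∧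
      (∀ v, (∀ t : ℝ, t • v ∈ K) → v = 0) := by
  have := D.lcN
  obtain ⟨m, ξ, sec, ρ, hξ, hm, hk, hsc, hξs, hρc, hρm, hρ1, hρξ, hρN⟩ :=
    exists_lin D.N D.R D.R.hull D.R.hull_closed D.R.hull_st D.R.comm_mem_hull
      (fun g x hx => cjS_hull D.N D.R g hx)
  -- the representation of `V`
  have hmem : ∀ g, D.V.p g = 0 → g ∈ D.N := fun g hg => (D.ker g).2 hg
  have hρN' : ∀ g, D.V.p g = 0 → ρ g = ContinuousLinearMap.id ℝ _ := fun g hg =>
    hρN ⟨g, hmem g hg⟩
  obtain ⟨r, hr⟩ : ∃ r : EuclideanSpace ℝ (Fin D.a) →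
      EuclideanSpace ℝ (Fin m) →L[ℝ] EuclideanSpace ℝ (Fin m), r = fun v => ρ (D.V.s v) := ⟨_, rfl⟩
  have hrc : Continuous r := by
    rw [hr]
    exact hρc.comp D.V.hs
  have hradd : ∀ v w, r (v + w) = (r v).comp (r w) := by
    intro v w
    rw [hr]
    change ρ (D.V.s (v + w)) = (ρ (D.V.s v)).comp (ρ (D.V.s w))
    have e : D.V.s v * D.V.s w = D.V.s (v + w) * ((D.V.s (v + w))⁻¹ * (D.V.s v * D.V.s w)) := by
      group
    rw [← hρm, e, hρm, hρN' _ (D.V.p_defect v w)]
    ext1 x
    rfl
  have hr0 : r 0 = ContinuousLinearMap.id ℝ _ := by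
    rw [hr]
    change ρ (D.V.s 0) = _
    rw [D.V.s_zero, hρ1]
  have hmem' : ∀ g, g * (D.V.s (D.V.p g))⁻¹ ∈ D.N := fun g => hmem _ (by
    rw [D.V.pmul, D.V.p_inv, D.V.ps, add_neg_cancel])
  obtain ⟨ξS, hξS⟩ : ∃ ξS : S → EuclideanSpace ℝ (Fin m), ξS = fun g =>
      ξ ⟨g * (D.V.s (D.V.p g))⁻¹, hmem' g⟩ := ⟨_, rfl⟩
  have hξSc : Continuous ξS := by
    rw [hξS]
    refine hξ.comp (Continuous.subtype_mk ?_ _)
    exact continuous_id.mul (D.V.hs.comp D.V.hp).inv
  have hξSN : ∀ g (hg : D.V.p g = 0), ξS g = ξ ⟨g, hmem g hg⟩ := by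
    intro g hg
    rw [hξS]
    change ξ ⟨g * (D.V.s (D.V.p g))⁻¹, hmem' g⟩ = _
    congr 1
    apply Subtype.ext
    change g * (D.V.s (D.V.p g))⁻¹ = g
    rw [hg, D.V.s_zero, inv_one, mul_one]
  let W : WtV D.V (EuclideanSpace ℝ (Fin m)) :=
    { ξ := ξS
      hξ := hξSc
      ξ_mul := fun g h hg hh => by
        rw [hξSN g hg, hξSN h hh, hξSN (g * h) (by rw [D.V.pmul, hg, hh, add_zero]), ← hm]
        rfl
      ω := fun l => (sec l : S)
      hω := continuous_subtype_val.comp hsc
      pω := fun l => (D.ker _).1 (sec l).2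
      ξω := fun l => by
        rw [hξSN _ ((D.ker _).1 (sec l).2)]
        exact hξs l
      ρ := r
      hρ := hrc
      ρ_add := hradd
      ρ_zero := hr0
      ξ_conj := fun v h hh => by
        have h1 : D.V.p (D.V.s v * h * (D.V.s v)⁻¹) = 0 := D.V.p_conj' v h hh
        rw [hξSN _ h1, hξSN _ hh]
        change ξ (cjS D.N (D.V.s v) ⟨h, hmem h hh⟩) = _
        rw [hρξ, hr] }
  -- the linear maps `r v - 1`
  obtain ⟨Tw, hTw⟩ : ∃ Tw : EuclideanSpace ℝ (Fin D.a) →
      Module.End ℝ (EuclideanSpace ℝ (Fin m)), ∀ v, Tw v =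
        (r v : EuclideanSpace ℝ (Fin m) →ₗ[ℝ] EuclideanSpace ℝ (Fin m)) - LinearMap.id :=
    ⟨_, fun v => rfl⟩
  have hTwa : ∀ v x, Tw v x = r v x - x := fun v x => by rw [hTw]; rfl
  have hcomm : ∀ v w, Commute (Tw v) (Tw w) := by
    intro v w
    apply LinearMap.ext
    intro x
    rw [Module.End.mul_apply, Module.End.mul_apply]
    have h1 : r v (r w x) = r w (r v x) := by
      have h2 := hradd v w
      rw [add_comm, hradd w v] at h2
      have h3 := congrArg (fun f => f x) h2
      exact h3.symm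
    simp only [hTwa, map_sub]
    rw [h1]
    abel
  have hTadd : ∀ v w, Tw (v + w) = Tw v * Tw w + Tw v + Tw w := by
    intro v w
    apply LinearMap.ext
    intro x
    rw [LinearMap.add_apply, LinearMap.add_apply, Module.End.mul_apply]
    simp only [hTwa, map_sub, hradd, ContinuousLinearMap.comp_apply]
    abel
  have hT0 : Tw 0 = 0 := by
    rw [hTw, hr0]
    exact sub_self _
  have hnadd : ∀ v w, IsNilpotent (Tw v) → IsNilpotent (Tw w) → IsNilpotent (Tw (v + w)) := by
    intro v w hv hw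
    rw [hTadd]
    have h1 : IsNilpotent (Tw v * Tw w) := (hcomm v w).isNilpotent_mul_right hv
    have h2 : IsNilpotent (Tw v * Tw w + Tw v) :=
      Commute.isNilpotent_add ((hcomm v v).mul_left (hcomm w v)) h1 hv
    exact Commute.isNilpotent_add
      (((hcomm v w).mul_left (hcomm w w)).add_left (hcomm v w)) h2 hw
  have hnneg : ∀ v, IsNilpotent (Tw v) → IsNilpotent (Tw (-v)) := by
    intro v hv
    have h1 := hTadd v (-v)
    rw [add_neg_cancel, hT0] at h1
    -- `Tw (-v) = - Tw v * (Tw (-v) + 1)`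
    have h2 : Tw (-v) = Tw v * (-(Tw (-v)) - 1) := by
      rw [mul_sub, mul_neg, mul_one]
      have h3 : Tw v * Tw (-v) = -(Tw v) - Tw (-v) := by
        have h4 : Tw v * Tw (-v) + Tw v + Tw (-v) = 0 := h1.symm
        have h5 : Tw v * Tw (-v) = 0 - Tw (-v) - Tw v := by
          rw [← h4]
          abel
        rw [h5]
        abel
      rw [h3]
      abel
    rw [h2]
    refine Commute.isNilpotent_mul_right ?_ hv
    exact ((hcomm v (-v)).neg_right).sub_right (Commute.one_right _)
  let K : AddSubgroup (EuclideanSpace ℝ (Fin D.a)) :=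
    { carrier := {v | IsNilpotent (Tw v)}
      add_mem' := fun {v w} hv hw => hnadd v w hv hw
      zero_mem' := by
        change IsNilpotent (Tw 0)
        rw [hT0]
        exact IsNilpotent.zero
      neg_mem' := fun {v} hv => hnneg v hv }
  have hK : ∀ v, v ∈ K ↔ IsNilpotent (Tw v) := fun v => Iff.rfl
  refine ⟨m, W, K, ?_, fun v => ?_, fun v hv => D.maxi v fun t => ?_⟩
  · -- closed
    have e : (K : Set (EuclideanSpace ℝ (Fin D.a))) = {v |
        (r v - ContinuousLinearMap.id ℝ _) ^ Module.finrank ℝ (EuclideanSpace ℝ (Fin m)) = 0} := by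
      ext v
      have h1 : ∀ k : ℕ, (((r v - ContinuousLinearMap.id ℝ (EuclideanSpace ℝ (Fin m))) ^ k :
          EuclideanSpace ℝ (Fin m) →L[ℝ] EuclideanSpace ℝ (Fin m)) :
          EuclideanSpace ℝ (Fin m) →ₗ[ℝ] EuclideanSpace ℝ (Fin m)) = Tw v ^ k := by
        intro k
        induction k with
        | zero => rfl
        | succ k ih =>
          rw [pow_succ, pow_succ, ← ih]
          apply LinearMap.ext
          intro x
          rw [Module.End.mul_apply, hTwa]
          rfl
      constructor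
      · intro hv
        have h2 := pow_finrank_of_nilpotent _ ((hK v).1 hv)
        rw [← h1] at h2
        change (r v - ContinuousLinearMap.id ℝ _) ^ _ = 0
        ext1 x
        exact congrArg (fun f => f x) h2
      · intro hv
        have hv' : (r v - ContinuousLinearMap.id ℝ _) ^
          Module.finrank ℝ (EuclideanSpace ℝ (Fin m)) = 0 := hv
        refine (hK v).2 ⟨Module.finrank ℝ (EuclideanSpace ℝ (Fin m)), ?_⟩
        rw [← h1, hv']
        rfl
    rw [e]
    exact isClosed_eq ((hrc.sub continuous_const).pow _) continuous_const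
  · rw [hK, hTw]
  · rw [unipOn_iff D.N hm hk hξs hρξ]
    have h1 := (hK _).1 (hv t)
    rw [hTw, hr] at h1
    exact h1

end Pool.Agent.AbCoc
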