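import Pool.Agent.Lib_MP_418a80_sol.SG2

/-!
# MP_418a80_an, T4, group side: transport lemmas, construction of `NilData`
-/

set_option autoImplicit false
set_option linter.unusedSectionVars false
set_option linter.unusedVariables false

open Topology Filter
open scoped commutatorElement RealInnerProductSpace

namespace Pool.Agent.AbCoc

universe u v w z z'

section
variable {N : Type w} [Group N] [TopologicalSpace N] [IsTopologicalGroup N] [T2Space N]
  {N' : Type z} [Group N'] [TopologicalSpace N'] [IsTopologicalGroup N'] [T2Space N']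

theorem hull_normal (R : RPow N) : R.hull.Normal := by
  refine ⟨fun a ha g => ?_⟩
  have h2 := mul_mem (R.comm_mem_hull g a) ha
  rwa [commutatorElement_def, inv_mul_cancel_right] at h2

theorem hull_map (R : RPow N) (R' : RPow N') (φ : N →* N') (hφ : Continuous φ) {x : N}
    (hx : x ∈ R.hull) : φ x ∈ R'.hull := by
  have hn := hull_normal R'
  have h1 : R.hull ≤ R'.hull.comap φ := by
    refine R.hull_le inferInstance (R'.hull_closed.preimage hφ) ?_ ?_
    · intro t y hy
      rw [Subgroup.mem_comap] at hy ⊢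
      rw [R.map_hom R' _ hφ]
      exact R'.hull_st t _ hy
    · intro a b
      rw [Subgroup.mem_comap, map_commutatorElement]
      exact R'.comm_mem_hull _ _
  exact h1 hx

theorem hull_congr (R : RPow N) (R' : RPow N') (e : N ≃* N') (he : Continuous e)
    (he' : Continuous e.symm) (x : N) : x ∈ R.hull ↔ e x ∈ R'.hull := by
  constructor
  · exact fun h => hull_map R R' e.toMonoidHom he h
  · intro h
    have h1 := hull_map R' R e.symm.toMonoidHom he' h
    simpa using h1

end

theorem unipOn_congr {S' : Type w} [Group S'] {S : Type z} [Group S] (N' : Subgroup S')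
    [N'.Normal] (N : Subgroup S) [N.Normal] (ι : S' →* S) (e : N' ≃* N)
    (h : ∀ x : N', ((e x : N) : S) = ι x) {K' : Subgroup N'} {K : Subgroup N}
    (hK : ∀ x, x ∈ K' ↔ e x ∈ K) (g : S') : UnipOn N' K' g ↔ UnipOn N K (ι g) := by
  have h1 : ∀ x : N', e (cmN N' g x) = cmN N (ι g) (e x) := by
    intro x
    apply Subtype.ext
    rw [h]
    change ι (g * x * g⁻¹ * (x : S')⁻¹) = ι g * (e x : S) * (ι g)⁻¹ * (e x : S)⁻¹
    rw [h]
    simp
  have h2 : ∀ (k : ℕ) (x : N'), e ((cmN N' g)^[k] x) = (cmN N (ι g))^[k] (e x) := by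
    intro k
    induction k with
    | zero => intro x; rfl
    | succ k ih =>
      intro x
      rw [Function.iterate_succ_apply, Function.iterate_succ_apply, ih, h1]
  constructor
  · rintro ⟨k, hk⟩
    refine ⟨k, fun x => ?_⟩
    have h3 := (hK _).1 (hk (e.symm x))
    rwa [h2, e.apply_symm_apply] at h3
  · rintro ⟨k, hk⟩
    refine ⟨k, fun x => ?_⟩
    rw [hK, h2]
    exact hk _

section
variable {S : Type w} [Group S] [TopologicalSpace S] [IsTopologicalGroup S] [T2Space S]

/-- construction of `NilData` -/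
theorem nilData_mk (N : Subgroup S) (hn : N.Normal) (hcl : IsClosed (N : Set S))
    (hnil : Group.IsNilpotent N) (R : RPow N) {F : Type z} [NormedAddCommGroup F]
    [NormedSpace ℝ F] [FiniteDimensional ℝ F] (P : S → F) (hP : Continuous P)
    (hPm : ∀ g h, P (g * h) = P g + P h) (σ : F → S) (hσ : Continuous σ) (h0 : σ 0 = 1)
    (hPσ : ∀ v, P (σ v) = v) (hk : ∀ g, g ∈ N ↔ P g = 0)
    (hmax : ∀ v, (∀ t : ℝ, UnipOn N R.hull (σ (t • v))) → v = 0) : Nonempty (NilData S) := by
  let e : F ≃L[ℝ] EuclideanSpace ℝ (Fin (Module.finrank ℝ F)) := toEuclidean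
  exact ⟨{
    N := N
    normal := hn
    closed := hcl
    nilp := hnil
    R := R
    a := Module.finrank ℝ F
    V :=
      { p := fun g => e (P g)
        hp := e.continuous.comp hP
        pmul := fun g h => by rw [hPm, map_add]
        s := fun v => σ (e.symm v)
        hs := hσ.comp e.symm.continuous
        s_zero := by rw [map_zero, h0]
        ps := fun v => by rw [hPσ, e.apply_symm_apply] }
    ker := fun g => by
      change g ∈ N ↔ e (P g) = 0
      rw [hk, map_eq_zero_iff e e.injective]
    maxi := fun v hv => by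
      have h1 := hmax (e.symm v) fun t => by
        have h2 := hv t
        change UnipOn N R.hull (σ (e.symm (t • v))) at h2
        rwa [map_smul] at h2
      rwa [map_eq_zero_iff e.symm e.symm.injective] at h1 }⟩

/-- a unipotent action only depends on the class modulo `N` -/
theorem unipOn_mul (N : Subgroup S) [N.Normal] [LocallyCompactSpace N] (R : RPow N) {g h : S}
    (hgh : g⁻¹ * h ∈ N) (hg : UnipOn N R.hull g) : UnipOn N R.hull h := by
  obtain ⟨m, ξ, sec, ρ, hξ, hm, hk, hsc, hξs, hρc, hρm, hρ1, hρξ, hρN⟩ :=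
    exists_lin N R R.hull R.hull_closed R.hull_st R.comm_mem_hull (fun g x hx => cjS_hull N R g hx)
  rw [unipOn_iff N hm hk hξs hρξ] at hg ⊢
  have h1 : ρ h = ρ g := by
    have h2 : h = g * (g⁻¹ * h) := by group
    have h3 := hρN ⟨g⁻¹ * h, hgh⟩
    change ρ (g⁻¹ * h) = _ at h3
    rw [h2, hρm, h3]
    ext1 x
    rfl
  rwa [h1]

end

end Pool.Agent.AbCoc
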