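import Pool.Agent.Lib_MP_418a80_sol.SG0
import Pool.Agent.Lib_MP_418a80_t3.NG1

/-!
# [SO-EXT] Real powers in iterated central extensions by vector groups

`QPow N D`: real powers modulo the normal subgroup `D`, given by a continuous map `f : ℝ → N → N`.

`QPow.step`: let `c (s, t, g) = ξ (f (s+t) g)⁻¹ (f s g) (f t g)`. Since `[N, D] ≤ D'` this is a cocycle
for fixed `g`: `c(s,t) + c(s+t,r) = c(s,t+r) + c(t,r)` (compute `f s f t f r` in two ways modulo `D'`;
an element of `D` commutes with everything modulo `D'`). Let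
`b(t) = ∫ r in 0..1, c(t,r) - ∫ r in 0..t, c(r,1)`. Then `c(s,t) = b(s) + b(t) - b(s+t)`: integrate
the identity over `r ∈ [0,1]`: `c(s,t) + B(s+t) = ∫_t^{t+1} c(s,r) dr + B(t)`,
`∫_t^{t+1} c(s,r) dr = B(s) + ∫_0^t (c(s,r+1) - c(s,r)) dr`, and `c(s,r+1) - c(s,r) = c(s+r,1) - c(r,1)`
(the identity for `(s,r,1)`). `b` is continuous in `(t,g)`
(`intervalIntegral.continuous_parametric_intervalIntegral_of_continuous`).
New powers: `f' t g = f t g * sec (-b(t,g) + t • z(g))`, `z(g) = ξ ((f 1 g)⁻¹ g) + b(1,g)`.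
Roots: `g ^ n = h ^ n` mod `D'` implies `h = g d`, `d ∈ D`, `h ^ n = g ^ n d ^ n` mod `D'`, so `n ξ(d) = 0`.

`exists_rpow_of_chain`: `QPow N ⊤`, then `QPow N N1` (with `ξ = p`, `sec = u`), then
`QPow N ((D i).map N1.subtype)` by induction (`ξ`, `sec` from `RPow.exists_hom` on `↥(D i)` with the
restricted powers, `sec` = `RPow.prd`, as in `exists_lin`), finally `QPow N ⊥`, which gives `RPow N`.
Nilpotency: the series `N ≥ N1 ≥ D 1 ≥ D 2 ..` is central (`nilpotent_iff_finite_descending_central_series`).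
-/

set_option autoImplicit false
set_option linter.unusedSectionVars false
set_option linter.unusedVariables false

open Topology Filter MeasureTheory
open scoped commutatorElement RealInnerProductSpace

namespace Pool.Agent.AbCoc

universe u v w z

/-- real powers modulo a subgroup -/
def QPow (N : Type w) [Group N] [TopologicalSpace N] (D : Subgroup N) : Prop :=
  ∃ f : ℝ → N → N, Continuous (fun x : ℝ × N => f x.1 x.2) ∧ (∀ g, (f 1 g)⁻¹ * g ∈ D) ∧
    (∀ s t g, (f (s + t) g)⁻¹ * (f s g * f t g) ∈ D) ∧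
    ∀ n : ℕ, 0 < n → ∀ g h : N, (g ^ n)⁻¹ * h ^ n ∈ D → g⁻¹ * h ∈ D

section
variable {N : Type w} [Group N] [TopologicalSpace N] [IsTopologicalGroup N]

theorem QPow.step {D D' : Subgroup N} (h : QPow N D) (hn : D.Normal) (hn' : D'.Normal)
    (hle : D' ≤ D) (hc : ∀ g : N, ∀ d ∈ D, ⁅g, d⁆ ∈ D') {m : ℕ}
    (ξ : D → EuclideanSpace ℝ (Fin m)) (hξ : Continuous ξ) (hξm : ∀ x y, ξ (x * y) = ξ x + ξ y)
    (hξk : ∀ d : D, ξ d = 0 ↔ (d : N) ∈ D') (sec : EuclideanSpace ℝ (Fin m) → D)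
    (hsec : Continuous sec) (hξs : ∀ v, ξ (sec v) = v) : QPow N D' := by
  obtain ⟨f, hf, h1, h2, h3⟩ := h
  have hξ1 : ξ 1 = 0 := by
    have := hξm 1 1
    rw [mul_one] at this
    exact left_eq_add.1 this
  have hξi : ∀ x : D, ξ x⁻¹ = -ξ x := by
    intro x
    have := hξm x⁻¹ x
    rw [inv_mul_cancel, hξ1] at this
    exact eq_neg_of_add_eq_zero_left this.symm
  have hcd : ∀ (g : N) (d : D), g⁻¹ * (d : N) * g ∈ D := by
    intro g d
    have := hn.conj_mem (d : N) d.2 g⁻¹
    rwa [inv_inv] at this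
  have hconj : ∀ (g : N) (d : D), ξ ⟨g⁻¹ * (d : N) * g, hcd g d⟩ = ξ d := by
    intro g d
    have hm := hc g⁻¹ (d : N) d.2
    have e : (⟨g⁻¹ * (d : N) * g, hcd g d⟩ : D) = ⟨⁅g⁻¹, (d : N)⁆, hle hm⟩ * d := by
      apply Subtype.ext
      show g⁻¹ * (d : N) * g = ⁅g⁻¹, (d : N)⁆ * (d : N)
      rw [commutatorElement_def]
      group
    rw [e, hξm, (hξk ⟨⁅g⁻¹, (d : N)⁆, hle hm⟩).2 hm, zero_add]
  let c : ℝ → ℝ → N → EuclideanSpace ℝ (Fin m) :=
    fun s t g => ξ ⟨(f (s + t) g)⁻¹ * (f s g * f t g), h2 s t g⟩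
  have hcc : Continuous (fun x : ℝ × ℝ × N => c x.1 x.2.1 x.2.2) := by
    refine hξ.comp (Continuous.subtype_mk ?_ _)
    have a1 : Continuous (fun x : ℝ × ℝ × N => f (x.1 + x.2.1) x.2.2) :=
      hf.comp ((continuous_fst.add (continuous_fst.comp continuous_snd)).prodMk
        (continuous_snd.comp continuous_snd))
    have a2 : Continuous (fun x : ℝ × ℝ × N => f x.1 x.2.2) :=
      hf.comp (continuous_fst.prodMk (continuous_snd.comp continuous_snd))
    have a3 : Continuous (fun x : ℝ × ℝ × N => f x.2.1 x.2.2) :=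
      hf.comp ((continuous_fst.comp continuous_snd).prodMk (continuous_snd.comp continuous_snd))
    exact a1.inv.mul (a2.mul a3)
  have hcoc : ∀ s t r g, c s t g + c (s + t) r g = c s (t + r) g + c t r g := by
    intro s t r g
    have e : (⟨(f (s + t + r) g)⁻¹ * (f (s + t) g * f r g), h2 (s + t) r g⟩ : D) *
        ⟨(f r g)⁻¹ * ((f (s + t) g)⁻¹ * (f s g * f t g)) * f r g, hcd (f r g) ⟨_, h2 s t g⟩⟩ =
        ⟨(f (s + (t + r)) g)⁻¹ * (f s g * f (t + r) g), h2 s (t + r) g⟩ *
          ⟨(f (t + r) g)⁻¹ * (f t g * f r g), h2 t r g⟩ := by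
      apply Subtype.ext
      show (f (s + t + r) g)⁻¹ * (f (s + t) g * f r g) *
        ((f r g)⁻¹ * ((f (s + t) g)⁻¹ * (f s g * f t g)) * f r g) =
        (f (s + (t + r)) g)⁻¹ * (f s g * f (t + r) g) * ((f (t + r) g)⁻¹ * (f t g * f r g))
      rw [add_assoc]
      group
    have e2 := congrArg ξ e
    rw [hξm, hξm, hconj (f r g) ⟨_, h2 s t g⟩] at e2
    show ξ _ + ξ _ = ξ _ + ξ _
    rw [← e2, add_comm]
  let b : ℝ → N → EuclideanSpace ℝ (Fin m) :=
    fun t g => (∫ r in (0 : ℝ)..1, c t r g) - ∫ r in (0 : ℝ)..t, c r 1 g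
  have hb : Continuous (fun x : ℝ × N => b x.1 x.2) := by
    refine Continuous.sub ?_ ?_
    · refine intervalIntegral.continuous_parametric_intervalIntegral_of_continuous'
        (f := fun (x : ℝ × N) r => c x.1 r x.2) ?_ 0 1
      exact hcc.comp ((continuous_fst.comp continuous_fst).prodMk
        (continuous_snd.prodMk (continuous_snd.comp continuous_fst)))
    · refine intervalIntegral.continuous_parametric_intervalIntegral_of_continuous
        (f := fun (x : ℝ × N) r => c r 1 x.2) ?_ continuous_fst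
      exact hcc.comp (continuous_snd.prodMk (continuous_const.prodMk (continuous_snd.comp continuous_fst)))
  have hbb : ∀ s t g, c s t g = b s g + b t g - b (s + t) g := by
    intro s t g
    have k1 : ∀ s : ℝ, Continuous (fun r => c s r g) := fun s =>
      hcc.comp (continuous_const.prodMk (continuous_id.prodMk continuous_const))
    have k2 : Continuous (fun r => c r 1 g) :=
      hcc.comp (continuous_id.prodMk (continuous_const.prodMk continuous_const))
    have i1 : ∀ s u v : ℝ, IntervalIntegrable (fun r => c s r g) volume u v := fun s u v =>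
      (k1 s).intervalIntegrable _ _
    have i2 : ∀ u v : ℝ, IntervalIntegrable (fun r => c r 1 g) volume u v := fun u v =>
      k2.intervalIntegrable _ _
    have E1 : (∫ r in (0 : ℝ)..1, c (s + t) r g) =
        (∫ r in (0 : ℝ)..1, c s (t + r) g) + (∫ r in (0 : ℝ)..1, c t r g) - c s t g := by
      have e1 : ∀ r, c (s + t) r g = (c s (t + r) g + c t r g) - c s t g := fun r => by
        rw [← hcoc s t r g]
        abel
      simp_rw [e1]
      have j1 : IntervalIntegrable (fun r => c s (t + r) g) volume 0 1 :=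
        ((k1 s).comp (continuous_const.add continuous_id)).intervalIntegrable _ _
      rw [intervalIntegral.integral_sub (j1.add (i1 t 0 1)) intervalIntegrable_const,
        intervalIntegral.integral_add j1 (i1 t 0 1), intervalIntegral.integral_const, sub_zero, one_smul]
    have E2 : (∫ r in (0 : ℝ)..1, c s (t + r) g) = ∫ r in t..(t + 1), c s r g := by
      rw [intervalIntegral.integral_comp_add_left (fun r => c s r g) t, add_zero]
    have E3 : (∫ r in t..(t + 1), c s r g) = (∫ r in (0 : ℝ)..1, c s r g) +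
        (∫ r in (1 : ℝ)..(t + 1), c s r g) - ∫ r in (0 : ℝ)..t, c s r g := by
      have e1 := intervalIntegral.integral_add_adjacent_intervals (i1 s 0 t) (i1 s t (t + 1))
      have e2 := intervalIntegral.integral_add_adjacent_intervals (i1 s 0 1) (i1 s 1 (t + 1))
      rw [e2, ← e1]
      abel
    have E4 : (∫ r in (1 : ℝ)..(t + 1), c s r g) = ∫ r in (0 : ℝ)..t, c s (r + 1) g := by
      rw [intervalIntegral.integral_comp_add_right (fun r => c s r g) 1, zero_add]
    have E5 : (∫ r in (0 : ℝ)..t, c s (r + 1) g) = (∫ r in (0 : ℝ)..t, c s r g) +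
        (∫ r in (0 : ℝ)..t, c (s + r) 1 g) - ∫ r in (0 : ℝ)..t, c r 1 g := by
      have e1 : ∀ r, c s (r + 1) g = (c s r g + c (s + r) 1 g) - c r 1 g := fun r => by
        rw [hcoc s r 1 g]
        abel
      simp_rw [e1]
      have j1 : IntervalIntegrable (fun r => c (s + r) 1 g) volume 0 t :=
        (k2.comp (continuous_const.add continuous_id)).intervalIntegrable _ _
      rw [intervalIntegral.integral_sub ((i1 s 0 t).add j1) (i2 0 t),
        intervalIntegral.integral_add (i1 s 0 t) j1]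
    have E6 : (∫ r in (0 : ℝ)..t, c (s + r) 1 g) =
        (∫ r in (0 : ℝ)..(s + t), c r 1 g) - ∫ r in (0 : ℝ)..s, c r 1 g := by
      rw [intervalIntegral.integral_comp_add_left (fun r => c r 1 g) s, add_zero,
        ← intervalIntegral.integral_add_adjacent_intervals (i2 0 s) (i2 s (s + t))]
      abel
    show c s t g = ((∫ r in (0 : ℝ)..1, c s r g) - ∫ r in (0 : ℝ)..s, c r 1 g) +
      ((∫ r in (0 : ℝ)..1, c t r g) - ∫ r in (0 : ℝ)..t, c r 1 g) -
      ((∫ r in (0 : ℝ)..1, c (s + t) r g) - ∫ r in (0 : ℝ)..(s + t), c r 1 g)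
    rw [E1, E2, E3, E4, E5, E6]
    abel
  let z : N → EuclideanSpace ℝ (Fin m) := fun g => ξ ⟨(f 1 g)⁻¹ * g, h1 g⟩ + b 1 g
  have hz : Continuous z := by
    refine Continuous.add (hξ.comp (Continuous.subtype_mk ?_ _)) ?_
    · exact (hf.comp (continuous_const.prodMk continuous_id)).inv.mul continuous_id
    · exact hb.comp (continuous_const.prodMk continuous_id)
  let w : ℝ → N → EuclideanSpace ℝ (Fin m) := fun t g => -(b t g) + t • z g
  have hw : Continuous (fun x : ℝ × N => w x.1 x.2) :=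
    hb.neg.add (continuous_fst.smul (hz.comp continuous_snd))
  refine ⟨fun t g => f t g * (sec (w t g) : N), ?_, ?_, ?_, ?_⟩
  · exact hf.mul (continuous_subtype_val.comp (hsec.comp hw))
  · intro g
    have e : ((sec (w 1 g))⁻¹ * ⟨(f 1 g)⁻¹ * g, h1 g⟩ : D) =
        (f 1 g * (sec (w 1 g) : N))⁻¹ * g := by
      show (sec (w 1 g) : N)⁻¹ * ((f 1 g)⁻¹ * g) = _
      group
    show (f 1 g * (sec (w 1 g) : N))⁻¹ * g ∈ D'
    rw [← e, ← hξk, hξm, hξi, hξs]
    show -(-(b 1 g) + (1 : ℝ) • (ξ ⟨(f 1 g)⁻¹ * g, h1 g⟩ + b 1 g)) + ξ ⟨(f 1 g)⁻¹ * g, h1 g⟩ = 0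
    rw [one_smul]
    abel
  · intro s t g
    have e : (((sec (w (s + t) g))⁻¹ * ⟨(f (s + t) g)⁻¹ * (f s g * f t g), h2 s t g⟩ *
        ⟨(f t g)⁻¹ * (sec (w s g) : N) * f t g, hcd (f t g) (sec (w s g))⟩ * sec (w t g) : D) : N) =
        (f (s + t) g * (sec (w (s + t) g) : N))⁻¹ *
          ((f s g * (sec (w s g) : N)) * (f t g * (sec (w t g) : N))) := by
      show (sec (w (s + t) g) : N)⁻¹ * ((f (s + t) g)⁻¹ * (f s g * f t g)) *
        ((f t g)⁻¹ * (sec (w s g) : N) * f t g) * (sec (w t g) : N) = _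
      group
    show (f (s + t) g * (sec (w (s + t) g) : N))⁻¹ *
      ((f s g * (sec (w s g) : N)) * (f t g * (sec (w t g) : N))) ∈ D'
    rw [← e, ← hξk, hξm, hξm, hξm, hξi, hξs, hξs, hconj, hξs]
    have e2 : ξ ⟨(f (s + t) g)⁻¹ * (f s g * f t g), h2 s t g⟩ = b s g + b t g - b (s + t) g := hbb s t g
    rw [e2]
    show -(-(b (s + t) g) + (s + t) • z g) + (b s g + b t g - b (s + t) g) +
      (-(b s g) + s • z g) + (-(b t g) + t • z g) = 0
    rw [add_smul]
    abel
  · intro n hn0 g h hgh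
    have hd : g⁻¹ * h ∈ D := h3 n hn0 g h (hle hgh)
    have key : ∀ n : ℕ, ∃ x : D, h ^ n = g ^ n * (x : N) ∧ ξ x = (n : ℝ) • ξ ⟨g⁻¹ * h, hd⟩ := by
      intro n
      induction n with
      | zero => exact ⟨1, by simp, by rw [hξ1]; simp⟩
      | succ n ih =>
        obtain ⟨x, hx1, hx2⟩ := ih
        refine ⟨⟨g⁻¹ * (x : N) * g, hcd g x⟩ * ⟨g⁻¹ * h, hd⟩, ?_, ?_⟩
        · show h ^ (n + 1) = g ^ (n + 1) * ((g⁻¹ * (x : N) * g) * (g⁻¹ * h))
          rw [pow_succ, pow_succ, hx1]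
          group
        · rw [hξm, hconj, hx2, Nat.cast_succ, add_smul, one_smul]
    obtain ⟨x, hx1, hx2⟩ := key n
    have hx3 : (x : N) ∈ D' := by
      rw [hx1] at hgh
      rwa [inv_mul_cancel_left] at hgh
    rw [(hξk x).2 hx3] at hx2
    have hx4 := (smul_eq_zero.1 hx2.symm).resolve_left (Nat.cast_ne_zero.2 hn0.ne')
    exact (hξk ⟨g⁻¹ * h, hd⟩).1 hx4

end

end Pool.Agent.AbCoc
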