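import Pool.Agent.Lib_MP_418a80_sol.SH1

/-!
# [SO-EXT2] Real powers from a chain of central extensions by vector groups
-/

set_option autoImplicit false
set_option linter.unusedSectionVars false
set_option linter.unusedVariables false

open Topology Filter MeasureTheory
open scoped commutatorElement RealInnerProductSpace

namespace Pool.Agent.AbCoc

universe u v w z

section
variable {N : Type w} [Group N] [TopologicalSpace N]

theorem qpow_top : QPow N ⊤ :=
  ⟨fun _ g => g, continuous_snd, fun _ => Subgroup.mem_top _, fun _ _ _ => Subgroup.mem_top _,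
    fun _ _ _ _ _ => Subgroup.mem_top _⟩

theorem rpow_of_qpow_bot (h : QPow N ⊥) : Nonempty (RPow N) := by
  obtain ⟨f, hf, h1, h2, h3⟩ := h
  exact ⟨{ pw := f
           cont := hf
           one := fun g => inv_mul_eq_one.1 (Subgroup.mem_bot.1 (h1 g))
           add := fun s t g => inv_mul_eq_one.1 (Subgroup.mem_bot.1 (h2 s t g))
           root := fun n hn g h hgh => inv_mul_eq_one.1 (Subgroup.mem_bot.1
            (h3 n hn g h (by rw [hgh, inv_mul_cancel]; exact Subgroup.mem_bot.2 rfl))) }⟩

variable [IsTopologicalGroup N]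

theorem exists_rpow_of_chain [T2Space N] [LocallyCompactSpace N] (N1 : Subgroup N) [N1.Normal]
    (hcl : IsClosed (N1 : Set N)) (R1 : RPow N1) {d : ℕ} (p : N → EuclideanSpace ℝ (Fin d))
    (hp : Continuous p) (hpm : ∀ g h, p (g * h) = p g + p h) (u : EuclideanSpace ℝ (Fin d) → N)
    (hu : Continuous u) (hpu : ∀ v, p (u v) = v) (hk : ∀ g, g ∈ N1 ↔ p g = 0)
    (D : ℕ → Subgroup N1) (k : ℕ) (h0 : D 0 = ⊤) (hDk : D k = ⊥)
    (hDcl : ∀ i, IsClosed (D i : Set N1)) (hDst : ∀ i, R1.St (D i)) (hDle : ∀ i, D (i + 1) ≤ D i)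
    (hDc : ∀ i (g : N) (x : N1), x ∈ D i → cmN N1 g x ∈ D (i + 1)) :
    Nonempty (RPow N) ∧ Group.IsNilpotent N := by
  have hp1 : p 1 = 0 := by
    have h := hpm 1 1
    rw [mul_one] at h
    exact left_eq_add.1 h
  have hpi : ∀ g, p g⁻¹ = -p g := by
    intro g
    have h := hpm g⁻¹ g
    rw [inv_mul_cancel, hp1] at h
    exact eq_neg_of_add_eq_zero_left h.symm
  -- commutators lie in `N1`
  have hcomm : ∀ g h : N, ⁅g, h⁆ ∈ N1 := by
    intro g h
    rw [hk, commutatorElement_def, hpm, hpm, hpm, hpi, hpi]
    abel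
  -- the images of the chain
  have hmem : ∀ i (x : N), x ∈ (D i).map N1.subtype ↔ ∃ hx : x ∈ N1, (⟨x, hx⟩ : N1) ∈ D i := by
    intro i x
    rw [Subgroup.mem_map]
    constructor
    · rintro ⟨y, hy, rfl⟩
      exact ⟨y.2, hy⟩
    · rintro ⟨hx, hy⟩
      exact ⟨⟨x, hx⟩, hy, rfl⟩
  have hE0 : (D 0).map N1.subtype = N1 := by
    rw [h0, ← MonoidHom.range_eq_map, Subgroup.range_subtype]
  have hEc : ∀ i (g x : N), x ∈ (D i).map N1.subtype → ⁅g, x⁆ ∈ (D (i + 1)).map N1.subtype := by
    intro i g x hx
    obtain ⟨hx1, hx2⟩ := (hmem i x).1 hx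
    exact ⟨_, hDc i g ⟨x, hx1⟩ hx2, rfl⟩
  have hEle : ∀ i, (D (i + 1)).map N1.subtype ≤ (D i).map N1.subtype := fun i =>
    Subgroup.map_mono (hDle i)
  have hEn : ∀ i, ((D i).map N1.subtype).Normal := by
    intro i
    refine ⟨fun x hx g => ?_⟩
    have h1 := mul_mem (hEle i (hEc i g x hx)) hx
    rwa [commutatorElement_def, inv_mul_cancel_right] at h1
  constructor
  · -- real powers
    have hN1 : QPow N N1 := by
      refine QPow.step (m := d) qpow_top inferInstance inferInstance le_top
        (fun g x _ => hcomm g x) (fun x => p x) (hp.comp continuous_subtype_val)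
        (fun x y => hpm x y) (fun x => (hk x).symm) (fun v => ⟨u v, Subgroup.mem_top _⟩)
        (hu.subtype_mk _) (fun v => hpu v)
    have hall : ∀ i, QPow N ((D i).map N1.subtype) := by
      intro i
      induction i with
      | zero => rw [hE0]; exact hN1
      | succ i ih =>
        have : LocallyCompactSpace N1 := hcl.isClosedEmbedding_subtypeVal.locallyCompactSpace
        have : LocallyCompactSpace (D i) := (hDcl i).isClosedEmbedding_subtypeVal.locallyCompactSpace
        obtain ⟨m, q, hq, hqm, hqs, hqk⟩ := RPow.exists_hom (R1.res (D i) (hDst i))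
          (K := (D (i + 1)).subgroupOf (D i)) ((hDcl (i + 1)).preimage continuous_subtype_val)
          (R1.st_subgroupOf (hDst i) (hDst (i + 1))) (by
            intro g h
            rw [Subgroup.mem_subgroupOf]
            exact hDc i ((g : N1) : N) (h : N1) h.2)
        choose X hX using fun j : Fin m => hqs (EuclideanSpace.single j 1)
        have hs1 : ∀ v, q ((R1.res (D i) (hDst i)).prd X v) = v := by
          intro v
          rw [RPow.map_prd _ q hq hqm]
          ext j
          rw [WithLp.ofLp_sum, Finset.sum_apply, Finset.sum_eq_single j]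
          · rw [hX]
            simp [EuclideanSpace.single]
          · intro i _ hij
            rw [hX]
            simp [EuclideanSpace.single, hij.symm]
          · intro h; exact absurd (Finset.mem_univ j) h
        let e : ((D i).map N1.subtype : Subgroup N) → D i := fun x =>
          ⟨⟨x, ((hmem i x).1 x.2).1⟩, ((hmem i x).1 x.2).2⟩
        have he : Continuous e := (continuous_subtype_val.subtype_mk _).subtype_mk _
        refine QPow.step (m := m) ih (hEn i) (hEn (i + 1)) (hEle i) (fun g x hx => hEc i g x hx)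
          (fun x => q (e x)) (hq.comp he) (fun x y => hqm (e x) (e y)) (fun x => ?_)
          (fun v => ⟨((R1.res (D i) (hDst i)).prd X v : D i), _, ((R1.res (D i) (hDst i)).prd X v).2,
            rfl⟩) ?_ (fun v => hs1 v)
        · rw [hqk, Subgroup.mem_subgroupOf, hmem]
          exact ⟨fun h => ⟨_, h⟩, fun h => h.2⟩
        · exact (continuous_subtype_val.comp (continuous_subtype_val.comp
            (RPow.continuous_prd _ X))).subtype_mk _
    have h1 := hall k
    rw [hDk, Subgroup.map_bot] at h1
    exact rpow_of_qpow_bot h1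
  · -- nilpotency
    rw [Subgroup.nilpotent_iff_finite_descending_central_series]
    refine ⟨k + 1, fun i => Nat.casesOn i ⊤ fun j => (D j).map N1.subtype, ⟨rfl, ?_⟩, ?_⟩
    · intro x n hx g
      cases n with
      | zero =>
        change ⁅x, g⁆ ∈ (D 0).map N1.subtype
        rw [hE0]
        exact hcomm x g
      | succ n =>
        change ⁅x, g⁆ ∈ (D (n + 1)).map N1.subtype
        rw [← commutatorElement_inv]
        exact inv_mem (hEc n g x hx)
    · change (D k).map N1.subtype = ⊥
      rw [hDk, Subgroup.map_bot]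

end

end Pool.Agent.AbCoc
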