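import Mathlib

/-!
# [SO-CHAR] A conjugate commuting flow

Proof. `𝒜 = Algebra.adjoin ℝ (Set.range X)` in `Module.End ℝ E` (or `E →L[ℝ] E`) is commutative
(`Algebra.adjoinCommRingOfComm` or `Subalgebra` of commuting elements) and finite dimensional. Suppose
`z = X t - X 0` is not nilpotent. There is a prime ideal `P` of `𝒜` with `z ∉ P` (`nilradical`,
`mem_nilradical`, `nilradical_eq_sInf`); `𝒜 / P` is a domain, algebraic over `ℝ`, so there is an
`ℝ`-algebra homomorphism `χ : 𝒜 → 𝒜 / P → ℂ` (`IsAlgClosed.lift`) with `χ z ≠ 0`. `f s = χ (X s)` is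
continuous (`χ` is linear on a finite dimensional space) with values in the finite set of the complex
roots of `minpoly ℝ (X 0)`, because `X s` and `X 0` are conjugate: `p (X s) = B p (X 0) B'`. So `f` is
constant (`ℝ` is connected, a finite set is discrete), `χ z = 0`, contradiction.
-/

set_option autoImplicit false

open Topology Filter

namespace Pool.Agent.AbCoc

/-- a character which does not vanish on a given non nilpotent element -/
private theorem soChar_exists {A : Type*} [CommRing A] [Algebra ℝ A] [FiniteDimensional ℝ A] (z : A)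
    (hz : ¬ IsNilpotent z) : ∃ χ : A →ₐ[ℝ] ℂ, χ z ≠ 0 := by
  obtain ⟨P, hP, hzP⟩ : ∃ P : Ideal A, P.IsPrime ∧ z ∉ P := by
    by_contra h
    push Not at h
    apply hz
    rw [← mem_nilradical, nilradical_eq_sInf, Ideal.mem_sInf]
    exact fun {P} hP => h P hP
  have hart : IsArtinianRing A := IsArtinianRing.of_finite ℝ A
  have hmax : P.IsMaximal := IsArtinianRing.isMaximal_of_isPrime P
  letI : Field (A ⧸ P) := Ideal.Quotient.field P
  have hfin : Module.Finite ℝ (A ⧸ P) :=
    Module.Finite.of_surjective (Ideal.Quotient.mkₐ ℝ P).toLinearMap (Ideal.Quotient.mkₐ_surjective ℝ P)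
  have halg : Algebra.IsAlgebraic ℝ (A ⧸ P) := Algebra.IsAlgebraic.of_finite ℝ (A ⧸ P)
  let ι : (A ⧸ P) →ₐ[ℝ] ℂ := IsAlgClosed.lift
  refine ⟨ι.comp (Ideal.Quotient.mkₐ ℝ P), fun h0 => hzP ?_⟩
  have h1 : ι (Ideal.Quotient.mk P z) = 0 := h0
  have h2 : Ideal.Quotient.mk P z = 0 := (map_eq_zero ι).1 h1
  exact Ideal.Quotient.eq_zero_iff_mem.1 h2

/-- conjugate elements have the same annihilating polynomials -/
private theorem soChar_conj {E : Type*} [NormedAddCommGroup E] [NormedSpace ℝ E] (x y B B' : E →L[ℝ] E)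
    (h1 : B.comp B' = ContinuousLinearMap.id ℝ E) (h2 : B'.comp B = ContinuousLinearMap.id ℝ E)
    (hy : y = B.comp (x.comp B')) (p : Polynomial ℝ) (hp : Polynomial.aeval x p = 0) :
    Polynomial.aeval y p = 0 := by
  have h1' : B * B' = 1 := h1
  have h2' : B' * B = 1 := h2
  let φ : (E →L[ℝ] E) →ₐ[ℝ] (E →L[ℝ] E) :=
    { toFun := fun u => B * u * B'
      map_one' := by rw [mul_one, h1']
      map_mul' := by
        intro u v
        calc B * (u * v) * B' = B * u * (1 * (v * B')) := by rw [one_mul]; simp only [mul_assoc]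
          _ = B * u * B' * (B * v * B') := by rw [← h2']; simp only [mul_assoc]
      map_zero' := by rw [mul_zero, zero_mul]
      map_add' := by
        intro u v
        rw [mul_add, add_mul]
      commutes' := by
        intro r
        rw [Algebra.algebraMap_eq_smul_one, mul_smul_comm, mul_one, smul_mul_assoc, h1'] }
  have h3 : y = φ x := by rw [hy]; rfl
  rw [h3, Polynomial.aeval_algHom_apply, hp, map_zero]

theorem nilpotent_of_flow {E : Type*} [NormedAddCommGroup E] [NormedSpace ℝ E]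
    [FiniteDimensional ℝ E] (X : ℝ → E →L[ℝ] E) (hX : Continuous X)
    (hcomm : ∀ s t, (X s).comp (X t) = (X t).comp (X s))
    (hconj : ∀ t, ∃ B B' : E →L[ℝ] E, B.comp B' = ContinuousLinearMap.id ℝ E ∧
      B'.comp B = ContinuousLinearMap.id ℝ E ∧ X t = B.comp ((X 0).comp B')) (t : ℝ) :
    IsNilpotent ((X t : E →ₗ[ℝ] E) - (X 0 : E →ₗ[ℝ] E)) := by
  classical
  by_contra hnil
  have hcomm' : ∀ a ∈ Set.range X, ∀ b ∈ Set.range X, a * b = b * a := by
    rintro _ ⟨s, rfl⟩ _ ⟨t, rfl⟩
    exact hcomm s t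
  have hmem : ∀ s, X s ∈ Algebra.adjoin ℝ (Set.range X) := fun s => Algebra.subset_adjoin ⟨s, rfl⟩
  letI : CommRing (Algebra.adjoin ℝ (Set.range X)) := Algebra.adjoinCommRingOfComm ℝ hcomm'
  have hfin : FiniteDimensional ℝ (Algebra.adjoin ℝ (Set.range X)) :=
    FiniteDimensional.finiteDimensional_submodule (Subalgebra.toSubmodule (Algebra.adjoin ℝ (Set.range X)))
  have hz : ¬ IsNilpotent ((⟨X t, hmem t⟩ : Algebra.adjoin ℝ (Set.range X)) - ⟨X 0, hmem 0⟩) := by
    rintro ⟨n, hn⟩
    apply hnil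
    have h1 : (X t - X 0) ^ n = 0 := congrArg Subtype.val hn
    have h2 : IsNilpotent (ContinuousLinearMap.toLinearMapRingHom (X t - X 0)) :=
      IsNilpotent.map (⟨n, h1⟩ : IsNilpotent (X t - X 0)) _
    exact h2
  obtain ⟨χ, hχ⟩ := soChar_exists _ hz
  -- a linear extension of the character
  obtain ⟨L, hL⟩ := LinearMap.exists_extend
    (p := Subalgebra.toSubmodule (Algebra.adjoin ℝ (Set.range X))) χ.toLinearMap
  have hLX : ∀ s, L (X s) = χ ⟨X s, hmem s⟩ := fun s => by
    have := congrArg (fun g => g ⟨X s, hmem s⟩) hL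
    exact this
  have hcont : Continuous fun s => L (X s) := (LinearMap.continuous_of_finiteDimensional L).comp hX
  -- finitely many values
  have hint : IsIntegral ℝ (X 0) := Algebra.IsIntegral.isIntegral (X 0)
  have hp0 : minpoly ℝ (X 0) ≠ 0 := minpoly.ne_zero hint
  have hval : ∀ s, L (X s) ∈ (((minpoly ℝ (X 0)).aroots ℂ).toFinset : Set ℂ) := by
    intro s
    obtain ⟨B, B', h1, h2, h3⟩ := hconj s
    have h4 := soChar_conj (X 0) (X s) B B' h1 h2 h3 _ (minpoly.aeval ℝ (X 0))
    rw [hLX, Finset.mem_coe, Multiset.mem_toFinset, Polynomial.mem_aroots]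
    refine ⟨hp0, ?_⟩
    rw [Polynomial.aeval_algHom_apply]
    have h5 : Polynomial.aeval (⟨X s, hmem s⟩ : Algebra.adjoin ℝ (Set.range X)) (minpoly ℝ (X 0)) = 0 := by
      apply Subtype.ext
      exact (Polynomial.aeval_algHom_apply (Algebra.adjoin ℝ (Set.range X)).val ⟨X s, hmem s⟩
        (minpoly ℝ (X 0))).symm.trans h4
    rw [h5, map_zero]
  have hrange : (Set.range fun s => L (X s)).Finite :=
    (Finset.finite_toSet _).subset (Set.range_subset_iff.2 hval)
  have hsub : (Set.range fun s => L (X s)).Subsingleton := by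
    by_contra h
    rw [Set.not_subsingleton_iff] at h
    exact (isPreconnected_range hcont).infinite_of_nontrivial h hrange
  have heq : L (X t) = L (X 0) := hsub ⟨t, rfl⟩ ⟨0, rfl⟩
  apply hχ
  rw [map_sub, ← hLX, ← hLX, heq, sub_self]

end Pool.Agent.AbCoc
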