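import Pool.Agent.Lib_MP_418a80_sol.SG0

/-!
# [SO-HALL] P. Hall's criterion for automorphisms

`N` normal in `G`, nilpotent, with continuous real powers. `C 0 = ⊤`,
`C (i+1) = sInf {H : Subgroup N | H closed, R.St H, cjS-invariant under G, ⁅y, x⁆ ∈ H for y : N, x ∈ C i}`
(so `C 1 = R.hull`: use `cjS_hull`). If `upperCentralSeries N k = ⊤` then `C i ≤ upperCentralSeries N (k - i)`.

Last claim, by induction on `i`. `i = 0`: `R.hull ≤ C 1`. `i → i + 1`: let `ζ` be the homomorphism of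
`C (i+1)` onto the vector space `C (i+1) / C (i+2)` (`hall_lin`) and `ρ g` the linear action of `g`.
`B (y, x) = ζ ⁅y, x⁆` (`y : N`, `x ∈ C i`) is biadditive, vanishes for `y ∈ R.hull` and for
`x ∈ C (i+1)`, and `(ρ g - 1) B (y, x) = B (cm y, cm x) + B (cm y, x) + B (y, cm x)` with `cm = cmN N g`. So
`(ρ g - 1) ^ n` kills the values of `B` for `n = p + q` if `cm^[p]` maps `N` to the hull and `cm^[q]` maps
`C i` to `C (i+1)`. The values of `B` span, because the preimage of the span under `ζ` is closed,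
stable, invariant under `G` and contains all `⁅y, x⁆`.
-/

set_option autoImplicit false
set_option linter.unusedSectionVars false
set_option linter.unusedVariables false

open Topology Filter
open scoped commutatorElement RealInnerProductSpace

namespace Pool.Agent.AbCoc

universe u v w z

section
variable {G : Type w} [Group G] [TopologicalSpace G] [IsTopologicalGroup G] [T2Space G]
  (N : Subgroup G) [N.Normal]

/-- the subgroups which are closed, stable and invariant -/
structure HallOk (R : RPow N) (H : Subgroup N) : Prop where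
  cl : IsClosed (H : Set N)
  st : R.St H
  inv : ∀ (g : G) (x : N), x ∈ H → cjS N g x ∈ H

theorem hallOk_top (R : RPow N) : HallOk N R ⊤ :=
  ⟨by rw [Subgroup.coe_top]; exact isClosed_univ, R.st_top, fun _ _ _ => Subgroup.mem_top _⟩

theorem cjS_comm (g : G) (x y : N) : cjS N g ⁅x, y⁆ = ⁅cjS N g x, cjS N g y⁆ :=
  map_commutatorElement _ _ _

theorem cjS_coe' (y x : N) : cjS N (y : G) x = y * x * y⁻¹ := Subtype.ext rfl

theorem HallOk.comm {R : RPow N} {H : Subgroup N} (h : HallOk N R H) (y x : N) (hx : x ∈ H) :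
    ⁅y, x⁆ ∈ H := by
  have h1 := h.inv (y : G) x hx
  rw [cjS_coe'] at h1
  exact mul_mem h1 (inv_mem hx)

/-- the next step of the descending series -/
def hallNext (R : RPow N) (H : Subgroup N) : Subgroup N :=
  sInf {K | HallOk N R K ∧ ∀ y x : N, x ∈ H → ⁅y, x⁆ ∈ K}

theorem hallNext_ok (R : RPow N) (H : Subgroup N) : HallOk N R (hallNext N R H) where
  cl := by
    unfold hallNext
    rw [Subgroup.coe_sInf]
    exact isClosed_biInter fun K hK => hK.1.cl
  st := RPow.st_sInf fun K hK => hK.1.st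
  inv := fun g x hx => Subgroup.mem_sInf.2 fun K hK => hK.1.inv g x (Subgroup.mem_sInf.1 hx K hK)

theorem hallNext_comm (R : RPow N) (H : Subgroup N) (y x : N) (hx : x ∈ H) :
    ⁅y, x⁆ ∈ hallNext N R H := Subgroup.mem_sInf.2 fun K hK => hK.2 y x hx

theorem hallNext_le {R : RPow N} {H K : Subgroup N} (hK : HallOk N R K)
    (h : ∀ y x : N, x ∈ H → ⁅y, x⁆ ∈ K) : hallNext N R H ≤ K := sInf_le ⟨hK, h⟩

/-- the descending series -/
def hallC (R : RPow N) : ℕ → Subgroup N
  | 0 => ⊤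
  | i + 1 => hallNext N R (hallC R i)

theorem hallC_ok (R : RPow N) (i : ℕ) : HallOk N R (hallC N R i) := by
  cases i with
  | zero => exact hallOk_top N R
  | succ i => exact hallNext_ok N R _

theorem hallC_le (R : RPow N) (i : ℕ) : hallC N R (i + 1) ≤ hallC N R i :=
  hallNext_le N (hallC_ok N R i) (hallC_ok N R i).comm

theorem hallC_comm (R : RPow N) (i : ℕ) (y x : N) (hx : x ∈ hallC N R i) :
    ⁅y, x⁆ ∈ hallC N R (i + 1) := hallNext_comm N R _ y x hx

theorem hull_le_hallC_one (R : RPow N) : R.hull ≤ hallC N R 1 := by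
  have h1 := hallC_ok N R 1
  have hc : ∀ g h : N, ⁅g, h⁆ ∈ hallC N R 1 := fun g h => hallC_comm N R 0 g h (Subgroup.mem_top _)
  refine R.hull_le ⟨fun a ha g => ?_⟩ h1.cl h1.st hc
  have h2 := mul_mem (hc g a) ha
  rwa [commutatorElement_def, inv_mul_cancel_right] at h2

theorem hallC_le_upper (R : RPow N) (k : ℕ) (hk : Subgroup.upperCentralSeries N k = ⊤) (i : ℕ) :
    hallC N R i ≤ Subgroup.upperCentralSeries N (k - i) := by
  induction i with
  | zero => rw [Nat.sub_zero, hk]; exact le_top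
  | succ i ih =>
    have hZ := R.rn_upper (k - (i + 1))
    refine hallNext_le N ⟨hZ.closed, hZ.st, fun g x hx => ?_⟩ fun y x hx => ?_
    · let e : N ≃* N :=
        { toFun := cjS N g
          invFun := cjS N g⁻¹
          left_inv := fun x => by rw [← cjS_mul, inv_mul_cancel, cjS_one]
          right_inv := fun x => by rw [← cjS_mul, mul_inv_cancel, cjS_one]
          map_mul' := fun x y => map_mul _ _ _ }
      have hch : (Subgroup.upperCentralSeries N (k - (i + 1))).Characteristic := inferInstance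
      have h1 := hch.fixed e
      have h2 : x ∈ (Subgroup.upperCentralSeries N (k - (i + 1))).comap e.toMonoidHom := by
        rw [h1]; exact hx
      exact h2
    · have h1 := ih hx
      rcases Nat.eq_zero_or_pos (k - i) with h0 | h0
      · rw [h0, Subgroup.upperCentralSeries_zero, Subgroup.mem_bot] at h1
        rw [h1, commutatorElement_one_right]
        exact one_mem _
      · have e : k - i = (k - (i + 1)) + 1 := by omega
        rw [e] at h1
        have h2 := Subgroup.mem_upperCentralSeries_succ_iff.1 h1 y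
        have h3 : ⁅x, y⁆ ∈ Subgroup.upperCentralSeries N (k - (i + 1)) := h2
        rw [← commutatorElement_inv]
        exact inv_mem h3

/-- continuous homomorphisms to vector spaces vanish on the hull -/
theorem RPow.hull_hom {N : Type w} [Group N] [TopologicalSpace N] [IsTopologicalGroup N] [T2Space N]
    (R : RPow N) {V : Type v} [AddCommGroup V] [Module ℝ V] [TopologicalSpace V]
    [ContinuousSMul ℝ V] [T2Space V] (f : N → V) (hf : Continuous f)
    (hm : ∀ g h, f (g * h) = f g + f h) {x : N} (hx : x ∈ R.hull) : f x = 0 := by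
  let φ : N →* Multiplicative V :=
    { toFun := fun x => Multiplicative.ofAdd (f x)
      map_one' := by
        have h := hm 1 1
        rw [mul_one] at h
        rw [left_eq_add.1 h]
        rfl
      map_mul' := fun x y => by rw [hm]; rfl }
  have hφ : ∀ x, x ∈ φ.ker ↔ f x = 0 := fun x => Iff.rfl
  have h1 : R.hull ≤ φ.ker := by
    refine R.hull_le inferInstance ?_ ?_ ?_
    · have e : (φ.ker : Set N) = f ⁻¹' {0} := by
        ext x
        exact hφ x
      rw [e]
      exact isClosed_singleton.preimage hf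
    · exact RPow.st_of_hom R f hf hm _ hφ
    · intro g h
      rw [MonoidHom.mem_ker, map_commutatorElement, commutatorElement_eq_one_iff_mul_comm]
      exact mul_comm _ _
  exact (hφ x).1 (h1 hx)

/-- linearization of the action on an abelian section -/
theorem hall_lin [LocallyCompactSpace N] (R : RPow N) {H K : Subgroup N} (hH : HallOk N R H)
    (hK : HallOk N R K) (hcomm : ∀ x ∈ H, ∀ y ∈ H, ⁅x, y⁆ ∈ K) :
    ∃ (m : ℕ) (ζ : N → EuclideanSpace ℝ (Fin m))
      (ρ : G → EuclideanSpace ℝ (Fin m) →ₗ[ℝ] EuclideanSpace ℝ (Fin m)),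
      ContinuousOn ζ H ∧ (∀ x ∈ H, ∀ y ∈ H, ζ (x * y) = ζ x + ζ y) ∧ (∀ x ∈ H, ζ x = 0 ↔ x ∈ K) ∧
      (∀ (t : ℝ), ∀ x ∈ H, ζ (R.pw t x) = t • ζ x) ∧ ∀ (g : G), ∀ x ∈ H, ζ (cjS N g x) = ρ g (ζ x) := by
  classical
  have hlc : LocallyCompactSpace H := hH.cl.isClosedEmbedding_subtypeVal.locallyCompactSpace
  obtain ⟨m, q, hq, hqm, hqs, hqk⟩ := RPow.exists_hom (R.res H hH.st) (K := K.subgroupOf H)
    (hK.cl.preimage continuous_subtype_val) (R.st_subgroupOf hH.st hK.st) (by
      intro g h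
      rw [Subgroup.mem_subgroupOf]
      exact hcomm g g.2 h h.2)
  have hqi : ∀ x, q x⁻¹ = -q x := by
    intro x
    have h1 := hqm 1 1
    rw [mul_one] at h1
    have h2 := hqm x⁻¹ x
    rw [inv_mul_cancel, left_eq_add.1 h1] at h2
    exact eq_neg_of_add_eq_zero_left h2.symm
  -- the section
  choose X hX using fun i : Fin m => hqs (EuclideanSpace.single i 1)
  obtain ⟨sec, hsec⟩ : ∃ s, s = (R.res H hH.st).prd X := ⟨_, rfl⟩
  have hsc : Continuous sec := by rw [hsec]; exact (R.res H hH.st).continuous_prd X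
  have hqsec : ∀ v, q (sec v) = v := by
    intro v
    rw [hsec, (R.res H hH.st).map_prd q hq hqm]
    ext j
    rw [WithLp.ofLp_sum, Finset.sum_apply, Finset.sum_eq_single j]
    · rw [hX]
      simp [EuclideanSpace.single]
    · intro i _ hij
      rw [hX]
      simp [EuclideanSpace.single, hij.symm]
    · intro h; exact absurd (Finset.mem_univ j) h
  -- the action on `H`
  let cj : G → H → H := fun g x => ⟨cjS N g x, hH.inv g x x.2⟩
  have hcjm : ∀ g x y, cj g (x * y) = cj g x * cj g y := fun g x y => Subtype.ext (map_mul _ _ _)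
  have hcji : ∀ g x, cj g x⁻¹ = (cj g x)⁻¹ := fun g x => Subtype.ext (map_inv _ _)
  have hcjc : ∀ g, Continuous (cj g) := fun g =>
    ((continuous_cjS N g).comp continuous_subtype_val).subtype_mk _
  have hcong : ∀ (g : G) (x y : H), q x = q y → q (cj g x) = q (cj g y) := by
    intro g x y hxy
    have h1 : x * y⁻¹ ∈ K.subgroupOf H := by
      rw [← hqk, hqm, hqi, hxy, add_neg_cancel]
    have h2 : q (cj g (x * y⁻¹)) = 0 := by
      rw [hqk, Subgroup.mem_subgroupOf]
      rw [Subgroup.mem_subgroupOf] at h1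
      exact hK.inv g _ h1
    rw [hcjm, hcji, hqm, hqi, add_neg_eq_zero] at h2
    exact h2
  have hadd : ∀ g v w, q (cj g (sec (v + w))) = q (cj g (sec v)) + q (cj g (sec w)) := by
    intro g v w
    rw [← hqm, ← hcjm]
    exact hcong g _ _ (by rw [hqm, hqsec, hqsec, hqsec])
  have hcont : ∀ g, Continuous fun v => q (cj g (sec v)) := fun g =>
    hq.comp ((hcjc g).comp hsc)
  obtain ⟨ρ, hρ⟩ : ∃ ρ : G → EuclideanSpace ℝ (Fin m) →ₗ[ℝ] EuclideanSpace ℝ (Fin m),
      ∀ g v, ρ g v = q (cj g (sec v)) :=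
    ⟨fun g => ((AddMonoidHom.mk' (fun v => q (cj g (sec v))) (hadd g)).toRealLinearMap (hcont g)).toLinearMap,
      fun g v => rfl⟩
  -- extension by zero
  let ζ : N → EuclideanSpace ℝ (Fin m) := fun x => if h : x ∈ H then q ⟨x, h⟩ else 0
  have hζ : ∀ x (h : x ∈ H), ζ x = q ⟨x, h⟩ := fun x h => dif_pos h
  refine ⟨m, ζ, ρ, ?_, ?_, ?_, ?_, ?_⟩
  · rw [continuousOn_iff_continuous_domRestrict]
    have e : Set.domRestrict (H : Set N) ζ = q := by
      funext x
      exact hζ x x.2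
    rw [e]
    exact hq
  · intro x hx y hy
    rw [hζ _ (mul_mem hx hy), hζ x hx, hζ y hy, ← hqm]
    rfl
  · intro x hx
    rw [hζ x hx, hqk]
    rfl
  · intro t x hx
    rw [hζ x hx, hζ _ (hH.st t x hx), ← (R.res H hH.st).map_pw q hq hqm]
    rfl
  · intro g x hx
    rw [hζ x hx, hζ _ (hH.inv g x hx), hρ]
    exact hcong g ⟨x, hx⟩ _ (hqsec _).symm

end

section
variable {G : Type w} [Group G] [TopologicalSpace G] [IsTopologicalGroup G] [T2Space G]
  (N : Subgroup G) [N.Normal]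

theorem cmN_iter_mem {R : RPow N} {H : Subgroup N} (hH : HallOk N R H) (g : G) (n : ℕ) :
    ∀ x ∈ H, (cmN N g)^[n] x ∈ H := by
  induction n with
  | zero => intro x hx; exact hx
  | succ n ih =>
    intro x hx
    rw [Function.iterate_succ_apply]
    exact ih _ (mul_mem (hH.inv g x hx) (inv_mem hx))

/-- the inductive step -/
theorem hall_step [LocallyCompactSpace N] (R : RPow N) (i : ℕ) (g : G) (p q : ℕ)
    (hp : ∀ x : N, (cmN N g)^[p] x ∈ R.hull)
    (hq : ∀ x ∈ hallC N R i, (cmN N g)^[q] x ∈ hallC N R (i + 1)) :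
    ∀ x ∈ hallC N R (i + 1), (cmN N g)^[p + q] x ∈ hallC N R (i + 2) := by
  have ok0 := hallC_ok N R i
  have ok1 := hallC_ok N R (i + 1)
  have ok2 := hallC_ok N R (i + 2)
  obtain ⟨m, ζ, ρ, hζc, hζm, hζk, hζp, hζρ⟩ := hall_lin N R ok1 ok2
    (fun x _ y hy => hallC_comm N R (i + 1) x y hy)
  have hζ1 : ζ 1 = 0 := (hζk 1 (one_mem _)).2 (one_mem _)
  have hζi : ∀ x ∈ hallC N R (i + 1), ζ x⁻¹ = -ζ x := by
    intro x hx
    have h2 := hζm x⁻¹ (inv_mem hx) x hx
    rw [inv_mul_cancel, hζ1] at h2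
    exact eq_neg_of_add_eq_zero_left h2.symm
  have hinv : ∀ (y w : N), w ∈ hallC N R (i + 1) → ζ (y * w * y⁻¹) = ζ w := by
    intro y w hw
    have h1 := hallC_comm N R (i + 1) y w hw
    have e : y * w * y⁻¹ = ⁅y, w⁆ * w := by rw [commutatorElement_def, inv_mul_cancel_right]
    rw [e, hζm _ (hallC_le N R _ h1) _ hw, (hζk _ (hallC_le N R _ h1)).2 h1, zero_add]
  have hnm : ∀ (y w : N), w ∈ hallC N R (i + 1) → y * w * y⁻¹ ∈ hallC N R (i + 1) := by
    intro y w hw
    have h1 := ok1.inv (y : G) w hw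
    rwa [cjS_coe'] at h1
  have hB1 : ∀ y y' x : N, x ∈ hallC N R i → ζ ⁅y * y', x⁆ = ζ ⁅y, x⁆ + ζ ⁅y', x⁆ := by
    intro y y' x hx
    have e : ⁅y * y', x⁆ = y * ⁅y', x⁆ * y⁻¹ * ⁅y, x⁆ := by
      simp only [commutatorElement_def]
      group
    have h1 := hallC_comm N R i y x hx
    have h2 := hallC_comm N R i y' x hx
    rw [e, hζm _ (hnm y _ h2) _ h1, hinv y _ h2, add_comm]
  have hB2 : ∀ y x x' : N, x ∈ hallC N R i → x' ∈ hallC N R i → ζ ⁅y, x * x'⁆ = ζ ⁅y, x⁆ + ζ ⁅y, x'⁆ := by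
    intro y x x' hx hx'
    have e : ⁅y, x * x'⁆ = ⁅y, x⁆ * (x * ⁅y, x'⁆ * x⁻¹) := by
      simp only [commutatorElement_def]
      group
    have h1 := hallC_comm N R i y x hx
    have h2 := hallC_comm N R i y x' hx'
    rw [e, hζm _ h1 _ (hnm x _ h2), hinv x _ h2]
  have hB3 : ∀ y x : N, x ∈ hallC N R i → y ∈ R.hull → ζ ⁅y, x⁆ = 0 := by
    intro y x hx hy
    refine R.hull_hom (fun y => ζ ⁅y, x⁆) ?_ (fun y y' => hB1 y y' x hx) hy
    refine hζc.comp_continuous ?_ (fun y => hallC_comm N R i y x hx)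
    simp only [commutatorElement_def]
    fun_prop
  have hB4 : ∀ y x : N, x ∈ hallC N R (i + 1) → ζ ⁅y, x⁆ = 0 := by
    intro y x hx
    have h1 := hallC_comm N R (i + 1) y x hx
    exact (hζk _ (hallC_le N R _ h1)).2 h1
  have hcj : ∀ x : N, cjS N g x = cmN N g x * x := fun x => by
    unfold cmN
    rw [inv_mul_cancel_right]
  have hcm : ∀ x ∈ hallC N R i, cmN N g x ∈ hallC N R i := fun x hx =>
    mul_mem (ok0.inv g x hx) (inv_mem hx)
  obtain ⟨T, hT⟩ : ∃ T : EuclideanSpace ℝ (Fin m) →ₗ[ℝ] EuclideanSpace ℝ (Fin m),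
      T = ρ g - LinearMap.id := ⟨_, rfl⟩
  have hTB : ∀ y x : N, x ∈ hallC N R i →
      T (ζ ⁅y, x⁆) = ζ ⁅cmN N g y, cmN N g x⁆ + ζ ⁅cmN N g y, x⁆ + ζ ⁅y, cmN N g x⁆ := by
    intro y x hx
    rw [hT, LinearMap.sub_apply, ← hζρ g _ (hallC_comm N R i y x hx), cjS_comm, hcj y, hcj x,
      hB1 _ _ _ (mul_mem (hcm x hx) hx), hB2 _ _ _ (hcm x hx) hx, hB2 _ _ _ (hcm x hx) hx]
    simp only [LinearMap.id_apply]
    abel
  have hkey : ∀ n p q : ℕ, p + q ≤ n → ∀ y x : N, x ∈ hallC N R i → (cmN N g)^[p] y ∈ R.hull →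
      (cmN N g)^[q] x ∈ hallC N R (i + 1) → (T ^ n) (ζ ⁅y, x⁆) = 0 := by
    intro n
    induction n with
    | zero =>
      intro p q hpq y x hx hy hx'
      have hp0 : p = 0 := by omega
      subst hp0
      rw [hB3 y x hx hy, map_zero]
    | succ n ih =>
      intro p q hpq y x hx hy hx'
      cases p with
      | zero => rw [hB3 y x hx hy, map_zero]
      | succ p =>
        cases q with
        | zero => rw [hB4 y x hx', map_zero]
        | succ q =>
          have hy' := hy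
          have hx'' := hx'
          rw [Function.iterate_succ_apply] at hy' hx''
          rw [pow_succ, Module.End.mul_apply, hTB y x hx, map_add, map_add,
            ih p q (by omega) _ _ (hcm x hx) hy' hx'', ih p (q + 1) (by omega) _ _ hx hy' hx',
            ih (p + 1) q (by omega) _ _ (hcm x hx) hy hx'', add_zero, add_zero]
  -- the span of the commutators
  obtain ⟨S, hS⟩ : ∃ S : Submodule ℝ (EuclideanSpace ℝ (Fin m)),
      S = Submodule.span ℝ {v | ∃ y x : N, x ∈ hallC N R i ∧ ζ ⁅y, x⁆ = v} := ⟨_, rfl⟩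
  have hSB : ∀ y x : N, x ∈ hallC N R i → ζ ⁅y, x⁆ ∈ S := fun y x hx => by
    rw [hS]
    exact Submodule.subset_span ⟨y, x, hx, rfl⟩
  have hSρ : ∀ (h : G) (v), v ∈ S → ρ h v ∈ S := by
    intro h v hv
    have h1 : S ≤ S.comap (ρ h) := by
      conv_lhs => rw [hS]
      rw [Submodule.span_le]
      rintro _ ⟨y, x, hx, rfl⟩
      rw [SetLike.mem_coe, Submodule.mem_comap, ← hζρ h _ (hallC_comm N R i y x hx), cjS_comm]
      exact hSB _ _ (ok0.inv h x hx)
    exact h1 hv
  let K : Subgroup N :=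
    { carrier := {w | w ∈ hallC N R (i + 1) ∧ ζ w ∈ S}
      mul_mem' := by
        rintro a b ⟨ha, ha'⟩ ⟨hb, hb'⟩
        refine ⟨mul_mem ha hb, ?_⟩
        rw [hζm a ha b hb]
        exact add_mem ha' hb'
      one_mem' := ⟨one_mem _, by rw [hζ1]; exact zero_mem _⟩
      inv_mem' := by
        rintro a ⟨ha, ha'⟩
        refine ⟨inv_mem ha, ?_⟩
        rw [hζi a ha]
        exact neg_mem ha' }
  have hKm : ∀ w, w ∈ K ↔ w ∈ hallC N R (i + 1) ∧ ζ w ∈ S := fun w => Iff.rfl
  have hKok : HallOk N R K := by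
    refine ⟨?_, ?_, ?_⟩
    · have e : (K : Set N) = (hallC N R (i + 1) : Set N) ∩ ζ ⁻¹' (S : Set (EuclideanSpace ℝ (Fin m))) := by
        ext w
        exact hKm w
      rw [e]
      exact hζc.preimage_isClosed_of_isClosed ok1.cl S.closed_of_finiteDimensional
    · intro t w hw
      rw [hKm] at hw ⊢
      refine ⟨ok1.st t w hw.1, ?_⟩
      rw [hζp t w hw.1]
      exact S.smul_mem t hw.2
    · intro h w hw
      rw [hKm] at hw ⊢
      refine ⟨ok1.inv h w hw.1, ?_⟩
      rw [hζρ h w hw.1]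
      exact hSρ h _ hw.2
  have hle : hallC N R (i + 1) ≤ K := hallNext_le N hKok fun y x hx =>
    (hKm _).2 ⟨hallC_comm N R i y x hx, hSB y x hx⟩
  have hTS : ∀ v ∈ S, (T ^ (p + q)) v = 0 := by
    intro v hv
    have h1 : S ≤ LinearMap.ker (T ^ (p + q)) := by
      rw [hS, Submodule.span_le]
      rintro _ ⟨y, x, hx, rfl⟩
      rw [SetLike.mem_coe, LinearMap.mem_ker]
      exact hkey (p + q) p q le_rfl y x hx (hp y) (hq x hx)
    exact LinearMap.mem_ker.1 (h1 hv)
  have hiter : ∀ (n : ℕ) (x : N), x ∈ hallC N R (i + 1) → ζ ((cmN N g)^[n] x) = (T ^ n) (ζ x) := by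
    intro n
    induction n with
    | zero => intro x hx; rfl
    | succ n ih =>
      intro x hx
      have h1 : cmN N g x ∈ hallC N R (i + 1) := mul_mem (ok1.inv g x hx) (inv_mem hx)
      rw [Function.iterate_succ_apply, ih _ h1, pow_succ, Module.End.mul_apply]
      congr 1
      unfold cmN
      rw [hζm _ (ok1.inv g x hx) _ (inv_mem hx), hζi x hx, hζρ g x hx, hT]
      simp [sub_eq_add_neg]
  intro x hx
  rw [← hζk _ (cmN_iter_mem N ok1 g _ x hx), hiter _ x hx]
  exact hTS _ ((hKm x).1 (hle hx)).2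

end

theorem exists_hall {G : Type w} [Group G] [TopologicalSpace G] [IsTopologicalGroup G] [T2Space G]
    (N : Subgroup G) [N.Normal] [LocallyCompactSpace N] [Group.IsNilpotent N] (R : RPow N) :
    ∃ (k : ℕ) (C : ℕ → Subgroup N), C 0 = ⊤ ∧ C k = ⊥ ∧ (∀ i, IsClosed (C i : Set N)) ∧
      (∀ i, R.St (C i)) ∧ (∀ i, C (i + 1) ≤ C i) ∧
      (∀ i (g : G) (x : N), x ∈ C i → cjS N g x ∈ C i) ∧
      (∀ i (y x : N), x ∈ C i → ⁅y, x⁆ ∈ C (i + 1)) ∧
      ∀ g : G, UnipOn N R.hull g → ∀ i, ∃ k' : ℕ, ∀ x ∈ C i, (cmN N g)^[k'] x ∈ C (i + 1) := by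
  obtain ⟨k, hk⟩ := Group.IsNilpotent.nilpotent N
  refine ⟨k, hallC N R, rfl, ?_, fun i => (hallC_ok N R i).cl, fun i => (hallC_ok N R i).st,
    hallC_le N R, fun i => (hallC_ok N R i).inv, hallC_comm N R, ?_⟩
  · have h := hallC_le_upper N R k hk k
    rw [Nat.sub_self, Subgroup.upperCentralSeries_zero] at h
    exact le_bot_iff.1 h
  · rintro g ⟨p, hp⟩ i
    induction i with
    | zero => exact ⟨p, fun x _ => hull_le_hallC_one N R (hp x)⟩
    | succ i ih =>
      obtain ⟨q, hq⟩ := ih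
      exact ⟨p + q, hall_step N R i g p q hp hq⟩

end Pool.Agent.AbCoc
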