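import Pool.Agent.Lib_MP_418a80_sol.SH3

/-!
# [SO-REF] A central chain below a normal subgroup on which everything acts unipotently

`D 0 = ⊤`, `D (i+1) = sInf {H : Subgroup N | H closed, R.St H, cjS-invariant under G, cmN N g x ∈ H for
x ∈ D i, g : G}`. We show: for every `i` some `D j ≤ C i` (`C` from `exists_hall`, proved in `SH3.lean`).
`i → i + 1`: let `ξ : C i → ℝ ^ m` with kernel `C (i+1)` (`RPow.exists_hom`, restricted powers), `ρ g` the linear
map with `ξ (cjS g x) = ρ g (ξ x)` (as in `exists_lin`). `ρ` is trivial on `N` (`⁅y, x⁆ ∈ C (i+1)`), so the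
`ρ g` commute (`hab`), and `ρ g - 1` is nilpotent (last claim of `exists_hall` and `hun`). Commuting
nilpotent endomorphisms of a finite dimensional space generate a commutative algebra with nilpotent
nilradical (`IsNoetherianRing.isNilpotent_nilradical`), so there is `l` such that all products of `l` of
the `ρ g - 1` vanish. Let `J 0 = ⊤`, `J (a+1) = span {(ρ g - 1) x | x ∈ J a}`: `J l = ⊥`, and
`D (j + a) ≤ ξ⁻¹ (J a)` by induction on `a` (the preimage is closed, stable, invariant), so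
`D (j + l) ≤ C (i+1)`.
-/

set_option autoImplicit false
set_option linter.unusedSectionVars false
set_option linter.unusedVariables false

open Topology Filter
open scoped commutatorElement RealInnerProductSpace

namespace Pool.Agent.AbCoc

universe u v w z

/-- a flag for commuting nilpotent endomorphisms -/
private theorem sh4_flag {E : Type u} [AddCommGroup E] [Module ℝ E] [FiniteDimensional ℝ E]
    {ι : Type v} (T : ι → Module.End ℝ E) (hc : ∀ i j, T i * T j = T j * T i)
    (hn : ∀ i, IsNilpotent (T i)) :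
    ∃ (l : ℕ) (K : ℕ → Submodule ℝ E), K 0 = ⊤ ∧ K l = ⊥ ∧ (∀ a, K (a + 1) ≤ K a) ∧
      ∀ a i x, x ∈ K a → T i x ∈ K (a + 1) := by
  classical
  obtain ⟨A, hA0, hAs⟩ : ∃ A : ℕ → Submodule ℝ E, A 0 = ⊥ ∧
      ∀ a, A (a + 1) = ⨅ i, (A a).comap (T i) :=
    ⟨fun a => Nat.rec ⊥ (fun _ B => ⨅ i, B.comap (T i)) a, rfl, fun a => rfl⟩
  have hmem : ∀ a x, x ∈ A (a + 1) ↔ ∀ i, T i x ∈ A a := by
    intro a x
    rw [hAs, Submodule.mem_iInf]
    rfl
  have hmono : Monotone A := by
    apply monotone_nat_of_le_succ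
    intro a
    induction a with
    | zero => rw [hA0]; exact bot_le
    | succ a ih =>
      intro x hx
      rw [hmem] at hx ⊢
      exact fun i => ih (hx i)
  obtain ⟨n, hstab⟩ := monotone_stabilizes_iff_noetherian.2
    (inferInstance : IsNoetherian ℝ E) ⟨A, hmono⟩
  have hstab1 : A n = A (n + 1) := hstab (n + 1) (Nat.le_succ n)
  have hW : A n = ⊤ := by
    by_contra hW
    have hWinv : ∀ i x, x ∈ A n → T i x ∈ A n := by
      intro i x hx
      rw [hstab1, hmem] at hx
      exact hx i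
    let S : Set (Submodule ℝ E) := {U | A n < U ∧ ∀ i x, x ∈ U → T i x ∈ U}
    have hS : S.Nonempty := ⟨⊤, lt_top_iff_ne_top.2 hW, fun _ _ _ => Submodule.mem_top⟩
    obtain ⟨U, hU, hmin⟩ := wellFounded_lt.has_min S hS
    have hTU : ∀ i x, x ∈ U → T i x ∈ A n := by
      intro i
      have hlt : A n < U ⊓ (A n).comap (T i) := by
        refine lt_of_le_of_ne (le_inf hU.1.le fun x hx => hWinv i x hx) ?_
        intro he
        obtain ⟨x, hxU, hxW⟩ := SetLike.exists_of_lt hU.1
        obtain ⟨q, hq⟩ := hn i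
        have hex : ∃ r, (T i ^ r) x ∈ A n := ⟨q, by
          rw [hq]
          exact (A n).zero_mem⟩
        have hr1 := Nat.find_spec hex
        have hr2 := fun r => Nat.find_min hex (m := r)
        obtain ⟨r, hr⟩ : ∃ r, r = Nat.find hex := ⟨_, rfl⟩
        rw [← hr] at hr1 hr2
        cases r with
        | zero => exact hxW hr1
        | succ r =>
          apply hr2 r (Nat.lt_succ_self r)
          rw [he]
          have hxr : ∀ t : ℕ, (T i ^ t) x ∈ U := by
            intro t
            induction t with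
            | zero => exact hxU
            | succ t ih =>
              rw [pow_succ', Module.End.mul_apply]
              exact hU.2 i _ ih
          refine ⟨hxr r, ?_⟩
          rw [pow_succ', Module.End.mul_apply] at hr1
          exact hr1
      have hinS : U ⊓ (A n).comap (T i) ∈ S := by
        refine ⟨hlt, fun j x hx => ⟨hU.2 j x hx.1, ?_⟩⟩
        show T i (T j x) ∈ A n
        have h1 := LinearMap.congr_fun (hc i j) x
        rw [Module.End.mul_apply, Module.End.mul_apply] at h1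
        rw [h1]
        exact hWinv j _ hx.2
      have h2 := hmin _ hinS
      have h3 : U ⊓ (A n).comap (T i) = U := by
        by_contra h4
        exact h2 (lt_of_le_of_ne inf_le_left h4)
      intro x hx
      rw [← h3] at hx
      exact hx.2
    have hle : U ≤ A n := by
      intro x hx
      rw [hstab1, hmem]
      exact fun i => hTU i x hx
    exact absurd hU.1 (not_lt_of_ge hle)
  refine ⟨n, fun a => A (n - a), ?_, ?_, ?_, ?_⟩
  · show A (n - 0) = ⊤
    rw [Nat.sub_zero]
    exact hW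
  · show A (n - n) = ⊥
    rw [Nat.sub_self]
    exact hA0
  · intro a
    exact hmono (by omega)
  · intro a i x hx
    change x ∈ A (n - a) at hx
    show T i x ∈ A (n - (a + 1))
    rcases Nat.lt_or_ge a n with h | h
    · have e : n - a = (n - (a + 1)) + 1 := by omega
      rw [e] at hx
      exact (hmem _ _).1 hx i
    · have e : n - a = 0 := by omega
      have e' : n - (a + 1) = 0 := by omega
      rw [e, hA0, Submodule.mem_bot] at hx
      rw [e', hx, map_zero]
      exact zero_mem _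

/-- one step of the chain -/
private theorem sh4_step {G : Type w} [Group G] [TopologicalSpace G] [IsTopologicalGroup G]
    [T2Space G] (N : Subgroup G) [N.Normal] [LocallyCompactSpace N] (R : RPow N)
    (hab : ∀ g h : G, ⁅g, h⁆ ∈ N) (C C' : Subgroup N) (hle : C' ≤ C)
    (hcl : IsClosed (C : Set N)) (hcl' : IsClosed (C' : Set N)) (hst : R.St C) (hst' : R.St C')
    (hinv : ∀ (g : G) (x : N), x ∈ C → cjS N g x ∈ C)
    (hinv' : ∀ (g : G) (x : N), x ∈ C' → cjS N g x ∈ C')
    (hcomm : ∀ (y x : N), x ∈ C → ⁅y, x⁆ ∈ C')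
    (hun : ∀ g : G, ∃ k' : ℕ, ∀ x ∈ C, (cmN N g)^[k'] x ∈ C') :
    ∃ (l : ℕ) (H : ℕ → Subgroup N), H 0 = C ∧ H l = C' ∧ (∀ a, IsClosed (H a : Set N)) ∧
      (∀ a, R.St (H a)) ∧ (∀ a, H (a + 1) ≤ H a) ∧
      ∀ a (g : G) (x : N), x ∈ H a → cmN N g x ∈ H (a + 1) := by
  have : LocallyCompactSpace C := hcl.isClosedEmbedding_subtypeVal.locallyCompactSpace
  obtain ⟨m, ξ, hξ, hξm, hξs, hξk⟩ := RPow.exists_hom (R.res C hst) (K := C'.subgroupOf C)
    (hcl'.preimage continuous_subtype_val) (R.st_subgroupOf hst hst') (by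
      intro g h
      rw [Subgroup.mem_subgroupOf]
      have := hcomm g h h.2
      rwa [commutatorElement_def] at this)
  have hker : ∀ x : C, ξ x = 0 ↔ (x : N) ∈ C' := fun x => by
    rw [hξk, Subgroup.mem_subgroupOf]
  have hξ1 : ξ 1 = 0 := by
    have h := hξm 1 1
    rw [mul_one] at h
    exact left_eq_add.1 h
  have hξinv : ∀ x, ξ x⁻¹ = -ξ x := by
    intro x
    have h2 := hξm x⁻¹ x
    rw [inv_mul_cancel, hξ1] at h2
    exact eq_neg_of_add_eq_zero_left h2.symm
  let f : G → C → C := fun g x => ⟨cjS N g x, hinv g x x.2⟩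
  have hfm : ∀ g x y, f g (x * y) = f g x * f g y := fun g x y =>
    Subtype.ext (map_mul (cjS N g) (x : N) (y : N))
  have hfi : ∀ g x, f g x⁻¹ = (f g x)⁻¹ := fun g x =>
    Subtype.ext (map_inv (cjS N g) (x : N))
  have hff : ∀ g h x, f (g * h) x = f g (f h x) := fun g h x =>
    Subtype.ext (cjS_mul N g h x)
  have hfpw : ∀ g t x, f g ((R.res C hst).pw t x) = (R.res C hst).pw t (f g x) := fun g t x =>
    Subtype.ext (R.map_hom R (cjS N g) (continuous_cjS N g) t x)
  have hcong : ∀ g x y, ξ x = ξ y → ξ (f g x) = ξ (f g y) := by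
    intro g x y hxy
    have h1 : ξ (x * y⁻¹) = 0 := by rw [hξm, hξinv, hxy, add_neg_cancel]
    have h2 : ξ (f g (x * y⁻¹)) = 0 := (hker _).2 (hinv' g _ ((hker _).1 h1))
    rw [hfm, hfi, hξm, hξinv, add_neg_eq_zero] at h2
    exact h2
  choose s hs using hξs
  let ρ : G → Module.End ℝ (EuclideanSpace ℝ (Fin m)) := fun g =>
    { toFun := fun v => ξ (f g (s v))
      map_add' := fun v w => by
        rw [← hξm, ← hfm]
        exact hcong g _ _ (by rw [hξm, hs, hs, hs])
      map_smul' := fun t v => by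
        have h1 := (R.res C hst).map_pw ξ hξ hξm t (f g (s v))
        rw [← hfpw] at h1
        rw [RingHom.id_apply, ← h1]
        exact hcong g _ _ (by rw [hs, (R.res C hst).map_pw ξ hξ hξm, hs]) }
  have hρ : ∀ g x, ξ (f g x) = ρ g (ξ x) := fun g x => hcong g _ _ (hs _).symm
  have hρm : ∀ g h, ρ (g * h) = ρ g * ρ h := by
    intro g h
    refine LinearMap.ext fun v => ?_
    obtain ⟨x, rfl⟩ : ∃ x, ξ x = v := ⟨s v, hs v⟩
    rw [Module.End.mul_apply, ← hρ, ← hρ, ← hρ, hff]
  have hρN : ∀ n : N, ρ n = 1 := by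
    intro n
    refine LinearMap.ext fun v => ?_
    obtain ⟨x, rfl⟩ : ∃ x, ξ x = v := ⟨s v, hs v⟩
    rw [← hρ]
    have h1 : ξ (f n x * x⁻¹) = 0 := by
      rw [hker]
      have h2 := hcomm n x x.2
      rw [commutatorElement_def] at h2
      exact h2
    have e : f n x = (f n x * x⁻¹) * x := by group
    rw [e, hξm, h1, zero_add]
    rfl
  have hρc : ∀ g h, ρ g * ρ h = ρ h * ρ g := by
    intro g h
    rw [← hρm, ← hρm]
    have e : g * h = ((⟨⁅g, h⁆, hab g h⟩ : N) : G) * (h * g) := by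
      show g * h = ⁅g, h⁆ * (h * g)
      rw [commutatorElement_def]
      group
    rw [e, hρm, hρN, one_mul]
  obtain ⟨T, hTdef⟩ : ∃ T : G → Module.End ℝ (EuclideanSpace ℝ (Fin m)), ∀ g, T g = ρ g - 1 :=
    ⟨fun g => ρ g - 1, fun g => rfl⟩
  have hTc : ∀ g h, T g * T h = T h * T g := by
    intro g h
    simp only [hTdef, sub_mul, mul_sub, one_mul, mul_one]
    rw [hρc g h]
    abel
  have hcm : ∀ (g : G) (x : N), x ∈ C → cmN N g x ∈ C := fun g x hx =>
    mul_mem (hinv g x hx) (inv_mem hx)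
  have hT : ∀ g (x : N) (hx : x ∈ C), ξ ⟨cmN N g x, hcm g x hx⟩ = T g (ξ ⟨x, hx⟩) := by
    intro g x hx
    have e : (⟨cmN N g x, hcm g x hx⟩ : C) = f g ⟨x, hx⟩ * (⟨x, hx⟩ : C)⁻¹ := rfl
    rw [e, hξm, hξinv, hρ, hTdef, LinearMap.sub_apply, Module.End.one_apply, sub_eq_add_neg]
  have hTn : ∀ g, IsNilpotent (T g) := by
    intro g
    obtain ⟨k, hk⟩ := hun g
    have h1 : ∀ (n : ℕ) (x : N) (hx : x ∈ C), ∃ h : (cmN N g)^[n] x ∈ C,
        ξ ⟨(cmN N g)^[n] x, h⟩ = (T g ^ n) (ξ ⟨x, hx⟩) := by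
      intro n
      induction n with
      | zero => intro x hx; exact ⟨hx, rfl⟩
      | succ n ih =>
        intro x hx
        obtain ⟨h1, h2⟩ := ih (cmN N g x) (hcm g x hx)
        refine ⟨h1, ?_⟩
        rw [pow_succ, Module.End.mul_apply, ← hT g x hx]
        exact h2
    refine ⟨k, LinearMap.ext fun v => ?_⟩
    obtain ⟨x, rfl⟩ : ∃ x, ξ x = v := ⟨s v, hs v⟩
    obtain ⟨h2, h3⟩ := h1 k x x.2
    have h4 : ξ ⟨(cmN N g)^[k] x, h2⟩ = 0 := (hker _).2 (hk x x.2)
    rw [h4] at h3
    exact h3.symm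
  obtain ⟨l, K, hK0, hKl, hKd, hKT⟩ := sh4_flag T hTc hTn
  let H : ℕ → Subgroup N := fun a =>
    { carrier := {x | ∃ h : x ∈ C, ξ ⟨x, h⟩ ∈ K a}
      mul_mem' := by
        rintro x y ⟨hx, hx'⟩ ⟨hy, hy'⟩
        refine ⟨mul_mem hx hy, ?_⟩
        have e : (⟨x * y, mul_mem hx hy⟩ : C) = ⟨x, hx⟩ * ⟨y, hy⟩ := rfl
        rw [e, hξm]
        exact (K a).add_mem hx' hy'
      one_mem' := by
        refine ⟨one_mem _, ?_⟩
        have e : (⟨1, one_mem _⟩ : C) = 1 := rfl
        rw [e, hξ1]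
        exact (K a).zero_mem
      inv_mem' := by
        rintro x ⟨hx, hx'⟩
        refine ⟨inv_mem hx, ?_⟩
        have e : (⟨x⁻¹, inv_mem hx⟩ : C) = (⟨x, hx⟩ : C)⁻¹ := rfl
        rw [e, hξinv]
        exact (K a).neg_mem hx' }
  have hHm : ∀ a x, x ∈ H a ↔ ∃ h : x ∈ C, ξ ⟨x, h⟩ ∈ K a := fun a x => Iff.rfl
  refine ⟨l, H, ?_, ?_, ?_, ?_, ?_, ?_⟩
  · ext x
    rw [hHm, hK0]
    exact ⟨fun h => h.1, fun h => ⟨h, Submodule.mem_top⟩⟩
  · ext x
    rw [hHm, hKl]
    constructor
    · rintro ⟨h1, h2⟩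
      rw [Submodule.mem_bot, hker] at h2
      exact h2
    · intro h
      exact ⟨hle h, by rw [Submodule.mem_bot, hker]; exact h⟩
  · intro a
    have e : (H a : Set N) = Subtype.val '' {c : C | ξ c ∈ K a} := by
      ext x
      constructor
      · intro hx
        obtain ⟨h1, h2⟩ := (hHm a x).1 hx
        exact ⟨⟨x, h1⟩, h2, rfl⟩
      · rintro ⟨c, hc, rfl⟩
        exact (hHm a _).2 ⟨c.2, hc⟩
    rw [e]
    exact hcl.isClosedEmbedding_subtypeVal.isClosedMap _
      ((Submodule.closed_of_finiteDimensional (K a)).preimage hξ)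
  · intro a t x hx
    obtain ⟨h1, h2⟩ := (hHm a x).1 hx
    refine (hHm a _).2 ⟨hst t x h1, ?_⟩
    have h3 := (R.res C hst).map_pw ξ hξ hξm t ⟨x, h1⟩
    have h4 : (R.res C hst).pw t ⟨x, h1⟩ = ⟨R.pw t x, hst t x h1⟩ := rfl
    rw [h4] at h3
    rw [h3]
    exact (K a).smul_mem t h2
  · intro a x hx
    obtain ⟨h1, h2⟩ := (hHm _ x).1 hx
    exact (hHm a x).2 ⟨h1, hKd a h2⟩
  · intro a g x hx
    obtain ⟨h1, h2⟩ := (hHm _ x).1 hx
    refine (hHm _ _).2 ⟨hcm g x h1, ?_⟩
    rw [hT g x h1]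
    exact hKT a g _ h2

theorem exists_chain {G : Type w} [Group G] [TopologicalSpace G] [IsTopologicalGroup G] [T2Space G]
    (N : Subgroup G) [N.Normal] [LocallyCompactSpace N] [Group.IsNilpotent N] (R : RPow N)
    (hab : ∀ g h : G, ⁅g, h⁆ ∈ N) (hun : ∀ g : G, UnipOn N R.hull g) :
    ∃ (k : ℕ) (D : ℕ → Subgroup N), D 0 = ⊤ ∧ D k = ⊥ ∧ (∀ i, IsClosed (D i : Set N)) ∧
      (∀ i, R.St (D i)) ∧ (∀ i, D (i + 1) ≤ D i) ∧
      ∀ i (g : G) (x : N), x ∈ D i → cmN N g x ∈ D (i + 1) := by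
  obtain ⟨k₀, C, hC0, hCk, hCcl, hCst, hCle, hCinv, hCcomm, hCun⟩ := exists_hall N R
  have key : ∀ i, ∃ (k : ℕ) (D : ℕ → Subgroup N), D 0 = ⊤ ∧ D k = C i ∧
      (∀ i, IsClosed (D i : Set N)) ∧ (∀ i, R.St (D i)) ∧ (∀ i, D (i + 1) ≤ D i) ∧
      ∀ i < k, ∀ (g : G) (x : N), x ∈ D i → cmN N g x ∈ D (i + 1) := by
    intro i
    induction i with
    | zero =>
      refine ⟨0, fun _ => ⊤, rfl, hC0.symm, fun _ => ?_, fun _ => R.st_top, fun _ => le_rfl,
        fun i hi => absurd hi (Nat.not_lt_zero i)⟩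
      rw [Subgroup.coe_top]
      exact isClosed_univ
    | succ i ih =>
      obtain ⟨k, D, hD0, hDk, hDcl, hDst, hDle, hDcm⟩ := ih
      obtain ⟨l, H, hH0, hHl, hHcl, hHst, hHle, hHcm⟩ := sh4_step N R hab (C i) (C (i + 1))
        (hCle i) (hCcl i) (hCcl (i + 1)) (hCst i) (hCst (i + 1)) (hCinv i) (hCinv (i + 1))
        (hCcomm i) (fun g => hCun g (hun g) i)
      have hE : ∀ n, k ≤ n → (if n < k then D n else H (n - k)) = H (n - k) := fun n hn => by
        rw [if_neg (not_lt.2 hn)]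
      have hE' : ∀ n, n ≤ k → (if n < k then D n else H (n - k)) = D n := fun n hn => by
        rcases Nat.lt_or_ge n k with h | h
        · rw [if_pos h]
        · have e : n = k := le_antisymm hn h
          subst e
          rw [if_neg (lt_irrefl _), Nat.sub_self, hH0, hDk]
      refine ⟨k + l, fun n => if n < k then D n else H (n - k), ?_, ?_, ?_, ?_, ?_, ?_⟩
      · show (if 0 < k then D 0 else H (0 - k)) = ⊤
        rw [hE' 0 (Nat.zero_le k), hD0]
      · show (if k + l < k then D (k + l) else H (k + l - k)) = C (i + 1)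
        rw [hE (k + l) (Nat.le_add_right k l), Nat.add_sub_cancel_left, hHl]
      · intro n
        show IsClosed (((if n < k then D n else H (n - k)) : Subgroup N) : Set N)
        rcases Nat.lt_or_ge n k with h | h
        · rw [hE' n h.le]; exact hDcl n
        · rw [hE n h]; exact hHcl _
      · intro n
        show R.St (if n < k then D n else H (n - k))
        rcases Nat.lt_or_ge n k with h | h
        · rw [hE' n h.le]; exact hDst n
        · rw [hE n h]; exact hHst _
      · intro n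
        show (if n + 1 < k then D (n + 1) else H (n + 1 - k)) ≤ (if n < k then D n else H (n - k))
        rcases Nat.lt_or_ge n k with h | h
        · rw [hE' n h.le, hE' (n + 1) h]; exact hDle n
        · rw [hE n h, hE (n + 1) (by omega), show n + 1 - k = (n - k) + 1 by omega]
          exact hHle _
      · intro n hn g x hx
        change x ∈ (if n < k then D n else H (n - k)) at hx
        show cmN N g x ∈ (if n + 1 < k then D (n + 1) else H (n + 1 - k))
        rcases Nat.lt_or_ge n k with h | h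
        · rw [hE' n h.le] at hx
          rw [hE' (n + 1) h]
          exact hDcm n h g x hx
        · rw [hE n h] at hx
          rw [hE (n + 1) (by omega), show n + 1 - k = (n - k) + 1 by omega]
          exact hHcm _ g x hx
  obtain ⟨k, D, hD0, hDk, hDcl, hDst, hDle, hDcm⟩ := key k₀
  rw [hCk] at hDk
  refine ⟨k, D, hD0, hDk, hDcl, hDst, hDle, fun i g x hx => ?_⟩
  rcases Nat.lt_or_ge i k with h | h
  · exact hDcm i h g x hx
  · have h1 : D i ≤ ⊥ := by
      rw [← hDk]
      exact antitone_nat_of_succ_le hDle h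
    have h2 : x = 1 := by
      have := h1 hx
      rwa [Subgroup.mem_bot] at this
    have h3 : cmN N g x = 1 := by
      rw [h2]
      unfold cmN
      rw [map_one, inv_one, mul_one]
    rw [h3]
    exact one_mem _

end Pool.Agent.AbCoc
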