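import Pool.Agent.Lib_MP_418a80_sol.SG2

/-!
# [SO-MAX] The nilradical is the largest normal nilpotent subgroup, so it is invariant

`NilData.max`: `m ∈ M`, `v = p m`. For `t : ℝ` let `m' ∈ M`, `p m' = t • v`. For `x ∈ N` the iterated commutators
`(cmN N m')^[k] x` are in the lower central series of `M` (`M` normal: `⁅m', x⁆ ∈ M`), so they are `1` for
large `k`: `UnipOn N R.hull m'`. As `s (t • v)` and `m'` differ by an element of `N` also
`UnipOn N R.hull (s (t • v))` (`exists_lin`, `unipOn_iff`: `ρ` is trivial on `N`). So `v = 0` by `maxi`,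
`m ∈ N` by `ker`.

`NilData.invariant`: apply it to `M = D.N.map φ` with `m' = φ (D.R.pw t ..)`: `p ∘ φ` is a continuous
homomorphism on `D.N`, so `p (φ (pw t n)) = t • p (φ n)` (`RPow.map_pw`).
-/

set_option autoImplicit false
set_option linter.unusedSectionVars false
set_option linter.unusedVariables false

open Topology Filter
open scoped commutatorElement RealInnerProductSpace

namespace Pool.Agent.AbCoc

universe u v w z

variable {S : Type w} [Group S] [TopologicalSpace S] [IsTopologicalGroup S] [T2Space S]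
  [LocallyCompactSpace S]

/-- the iterated commutators of an element of `M` with an element of `N` -/
private theorem cmN_iter_mem (N M : Subgroup S) [N.Normal] [hMn : M.Normal] (m : S) (hm : m ∈ M) (x : N)
    (j : ℕ) : (((cmN N m)^[j + 1] x : N) : S) ∈ M.lowerCentralSeries j := by
  induction j with
  | zero =>
    have h1 : m * ((x : S) * m⁻¹ * (x : S)⁻¹) ∈ M := mul_mem hm (hMn.conj_mem _ (inv_mem hm) _)
    have h2 : (((cmN N m)^[0 + 1] x : N) : S) = m * ((x : S) * m⁻¹ * (x : S)⁻¹) := by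
      change m * (x : S) * m⁻¹ * (x : S)⁻¹ = _
      simp only [mul_assoc]
    rw [h2]
    exact h1
  | succ j ih =>
    have h1 : ⁅(((cmN N m)^[j + 1] x : N) : S), m⁆ ∈ M.lowerCentralSeries (j + 1) :=
      Subgroup.commutator_mem_commutator ih hm
    have h2 := inv_mem h1
    rw [commutatorElement_inv] at h2
    rw [Function.iterate_succ_apply']
    exact h2

private theorem unipOn_of_mem (N M : Subgroup S) [N.Normal] [M.Normal] [Group.IsNilpotent M]
    (K : Subgroup N) (m : S) (hm : m ∈ M) : UnipOn N K m := by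
  obtain ⟨n, hn⟩ := (Subgroup.isNilpotent_iff_lowerCentralSeries M).1 inferInstance
  refine ⟨n + 1, fun x => ?_⟩
  have h2 := cmN_iter_mem N M m hm x n
  rw [hn, Subgroup.mem_bot] at h2
  have h1 : (cmN N m)^[n + 1] x = 1 := Subtype.ext h2
  rw [h1]
  exact one_mem K

theorem NilData.max (D : NilData S) (M : Subgroup S) [M.Normal] [Group.IsNilpotent M]
    (hM : ∀ m ∈ M, ∀ t : ℝ, ∃ m' ∈ M, D.V.p m' = t • D.V.p m) : M ≤ D.N := by
  have := D.lcN
  obtain ⟨l, ξ, sec, ρ, hξ, hm, hk, hsc, hξs, hρc, hρm, hρ1, hρξ, hρN⟩ :=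
    exists_lin D.N D.R D.R.hull D.R.hull_closed D.R.hull_st D.R.comm_mem_hull
      (fun g x hx => cjS_hull D.N D.R g hx)
  intro m hmM
  rw [D.ker]
  refine D.maxi _ fun t => ?_
  obtain ⟨m', hm'M, hm'⟩ := hM m hmM t
  have h1 := unipOn_of_mem D.N M D.R.hull m' hm'M
  rw [unipOn_iff D.N hm hk hξs hρξ] at h1 ⊢
  have h2 : (D.V.s (t • D.V.p m))⁻¹ * m' ∈ D.N := by
    rw [D.ker, D.V.pmul, D.V.p_inv, D.V.ps, hm', neg_add_cancel]
  have h3 : ρ m' = ρ (D.V.s (t • D.V.p m)) := by
    have e : m' = D.V.s (t • D.V.p m) * ((D.V.s (t • D.V.p m))⁻¹ * m') := by group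
    rw [e, hρm, hρN ⟨_, h2⟩]
    ext1 v
    simp
  rw [← h3]
  exact h1

theorem NilData.invariant (D : NilData S) (φ : S ≃* S) (hφ : Continuous φ)
    (hφ' : Continuous φ.symm) (x : S) (hx : x ∈ D.N) : φ x ∈ D.N := by
  have hn : (D.N.map (φ : S →* S)).Normal := Subgroup.Normal.map D.normal _ φ.surjective
  have hnil : Group.IsNilpotent (D.N.map (φ : S →* S)) :=
    Group.nilpotent_of_mulEquiv (D.N.equivMapOfInjective (φ : S →* S) φ.injective)
  have h1 : D.N.map (φ : S →* S) ≤ D.N := by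
    refine D.max _ ?_
    rintro _ ⟨n, hn, rfl⟩ t
    refine ⟨φ (D.R.pw t ⟨n, hn⟩), ⟨_, (D.R.pw t ⟨n, hn⟩).2, rfl⟩, ?_⟩
    exact D.R.map_pw (fun y : D.N => D.V.p (φ (y : S)))
      (D.V.hp.comp (hφ.comp continuous_subtype_val))
      (fun a b => by rw [← D.V.pmul, ← map_mul]; rfl) t ⟨n, hn⟩
  exact h1 ⟨x, hx, rfl⟩

end Pool.Agent.AbCoc
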