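import Pool.Agent.Lib_MP_418a80_sol.SH0
import Pool.Agent.Lib_MP_418a80_sol.SH2
import Pool.Agent.Lib_MP_418a80_sol.SH5
import Pool.Agent.Lib_MP_418a80_t3.Comp1

/-!
# MP_418a80_an, T4, group side: semidirect products with `ℝ`, part 1

`S = S1 s(ℝ)`, `S1 = ker p` with nilradical `N1 = D.N`. `N1` is normal in `S`, and `S` acts trivially
on `S1 / N1`.
-/

set_option autoImplicit false
set_option linter.unusedSectionVars false
set_option linter.unusedVariables false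

open Topology Filter
open scoped commutatorElement RealInnerProductSpace

namespace Pool.Agent.AbCoc

universe u v w z

variable {S : Type w} [Group S] [TopologicalSpace S] [IsTopologicalGroup S] [T2Space S]
  [LocallyCompactSpace S]

/-- data of a semidirect product -/
structure SDat (S : Type w) [Group S] [TopologicalSpace S] [IsTopologicalGroup S] [T2Space S] where
  Q : RSec S
  S1 : Subgroup S
  hS1 : ∀ g, g ∈ S1 ↔ Q.p g = 0
  D : NilData S1

namespace SDat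
variable (X : SDat S)

instance normalS1 : X.S1.Normal := by
  constructor
  intro n hn g
  rw [X.hS1] at hn ⊢
  rw [X.Q.pmul, X.Q.pmul, X.Q.p_inv, hn]
  ring

theorem closedS1 : IsClosed (X.S1 : Set S) := by
  have h3 : (X.S1 : Set S) = X.Q.p ⁻¹' {0} := by
    ext g
    exact X.hS1 g
  rw [h3]
  exact isClosed_singleton.preimage X.Q.hp

theorem lcS1 : LocallyCompactSpace X.S1 := X.closedS1.isClosedEmbedding_subtypeVal.locallyCompactSpace

/-- conjugation as an automorphism of `S1` -/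
def cj (g : S) : X.S1 ≃* X.S1 where
  toFun x := cjS X.S1 g x
  invFun x := cjS X.S1 g⁻¹ x
  left_inv x := by
    change cjS X.S1 g⁻¹ (cjS X.S1 g x) = x
    rw [← cjS_mul, inv_mul_cancel, cjS_one]
  right_inv x := by
    change cjS X.S1 g (cjS X.S1 g⁻¹ x) = x
    rw [← cjS_mul, mul_inv_cancel, cjS_one]
  map_mul' x y := map_mul _ x y

theorem cj_coe (g : S) (x : X.S1) : (X.cj g x : S) = g * x * g⁻¹ := rfl

/-- the nilradical of `S1` as a subgroup of `S` -/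
def N1 : Subgroup S := X.D.N.map X.S1.subtype

theorem mem_N1 (g : S) : g ∈ X.N1 ↔ ∃ h : g ∈ X.S1, (⟨g, h⟩ : X.S1) ∈ X.D.N := by
  unfold N1
  rw [Subgroup.mem_map]
  constructor
  · rintro ⟨x, hx, rfl⟩
    exact ⟨x.2, hx⟩
  · rintro ⟨h, hx⟩
    exact ⟨⟨g, h⟩, hx, rfl⟩

theorem N1_le : X.N1 ≤ X.S1 := fun g hg => ((X.mem_N1 g).1 hg).1

theorem closedN1 : IsClosed (X.N1 : Set S) := by
  unfold N1
  rw [Subgroup.coe_map]
  exact X.closedS1.isClosedEmbedding_subtypeVal.isClosedMap _ X.D.closed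

instance normalN1 : X.N1.Normal := by
  have := X.lcS1
  constructor
  intro n hn g
  obtain ⟨h1, h2⟩ := (X.mem_N1 n).1 hn
  have h3 := X.D.invariant (X.cj g) (continuous_cjS X.S1 g) (continuous_cjS X.S1 g⁻¹) _ h2
  exact (X.mem_N1 _).2 ⟨(X.cj g ⟨n, h1⟩).2, h3⟩

/-- the isomorphism of the two nilradicals -/
def eN : X.D.N ≃* X.N1 where
  toFun x := ⟨x.1, (X.mem_N1 _).2 ⟨x.1.2, x.2⟩⟩
  invFun x := ⟨⟨x.1, ((X.mem_N1 _).1 x.2).1⟩, ((X.mem_N1 _).1 x.2).2⟩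
  left_inv x := rfl
  right_inv x := rfl
  map_mul' x y := rfl

theorem continuous_eN : Continuous X.eN := by
  refine Continuous.subtype_mk ?_ _
  exact continuous_subtype_val.comp continuous_subtype_val

theorem continuous_eN_symm : Continuous X.eN.symm := by
  refine Continuous.subtype_mk ?_ _
  refine Continuous.subtype_mk ?_ _
  exact continuous_subtype_val

/-- real powers on `N1` -/
noncomputable def R1 : RPow X.N1 := X.D.R.congr X.eN X.continuous_eN X.continuous_eN_symm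

theorem nilN1 : Group.IsNilpotent X.N1 := (Group.isNilpotent_congr X.eN).1 X.D.nilp

theorem lcN1 : LocallyCompactSpace X.N1 := X.closedN1.isClosedEmbedding_subtypeVal.locallyCompactSpace

theorem unip_iff (g : X.S1) : UnipOn X.D.N X.D.R.hull g ↔ UnipOn X.N1 X.R1.hull (g : S) :=
  unipOn_congr X.D.N X.N1 X.S1.subtype X.eN (fun x => rfl)
    (hull_congr X.D.R X.R1 X.eN X.continuous_eN X.continuous_eN_symm) g

/-- the projection of `S1` -/
def p1 (x : X.S1) : EuclideanSpace ℝ (Fin X.D.a) := X.D.V.p x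

/-- the section -/
def s1 (v : EuclideanSpace ℝ (Fin X.D.a)) : X.S1 := X.D.V.s v

theorem p1_mul (x y : X.S1) : X.p1 (x * y) = X.p1 x + X.p1 y := X.D.V.pmul x y

theorem p1_inv (x : X.S1) : X.p1 x⁻¹ = -X.p1 x := X.D.V.p_inv x

theorem p1_s1 (v) : X.p1 (X.s1 v) = v := X.D.V.ps v

theorem s1_zero : X.s1 0 = 1 := X.D.V.s_zero

theorem continuous_p1 : Continuous X.p1 := X.D.V.hp

theorem continuous_s1 : Continuous X.s1 := X.D.V.hs

theorem p1_eq_zero (x : X.S1) : X.p1 x = 0 ↔ (x : S) ∈ X.N1 := by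
  rw [X.mem_N1]
  unfold p1
  rw [← X.D.ker]
  exact ⟨fun h => ⟨x.2, h⟩, fun h => h.2⟩

theorem maxi1 (v) (h : ∀ t : ℝ, UnipOn X.N1 X.R1.hull (X.s1 (t • v) : S)) : v = 0 :=
  X.D.maxi v fun t => (X.unip_iff _).2 (h t)

theorem s_zero : X.Q.s 0 = 1 := by
  have h := X.Q.smul 0 0
  rw [add_zero] at h
  exact left_eq_mul.1 h

theorem s_neg (t : ℝ) : X.Q.s (-t) = (X.Q.s t)⁻¹ := by
  have h := X.Q.smul (-t) t
  rw [neg_add_cancel, X.s_zero] at h
  exact (inv_eq_of_mul_eq_one_left h.symm).symm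

/-- **the flow acts trivially on `S1 / N1`** -/
theorem p1_flow (t : ℝ) (x : X.S1) : X.p1 (cjS X.S1 (X.Q.s t) x) = X.p1 x := by
  have := X.lcN1
  obtain ⟨m, ξ, sec, ρ, hξ, hm, hk, hsc, hξs, hρc, hρm, hρ1, hρξ, hρN⟩ :=
    exists_lin X.N1 X.R1 X.R1.hull X.R1.hull_closed X.R1.hull_st X.R1.comm_mem_hull
      (fun g x hx => cjS_hull X.N1 X.R1 g hx)
  have hρinv : ∀ g, (ρ g).comp (ρ g⁻¹) = ContinuousLinearMap.id ℝ _ := fun g => by
    rw [← hρm, mul_inv_cancel, hρ1]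
  have hρinv' : ∀ g, (ρ g⁻¹).comp (ρ g) = ContinuousLinearMap.id ℝ _ := fun g => by
    rw [← hρm, inv_mul_cancel, hρ1]
  -- `ρ` is commutative on `S1`
  have hρcomm : ∀ y y' : X.S1, (ρ y).comp (ρ y') = (ρ y').comp (ρ y) := by
    intro y y'
    have h1 : (y * y' * y⁻¹ * y'⁻¹ : X.S1).1 ∈ X.N1 := by
      rw [← X.p1_eq_zero, X.p1_mul, X.p1_mul, X.p1_mul, X.p1_inv, X.p1_inv]
      abel
    have h2 : ((y : S) * y') = (y * y' * y⁻¹ * y'⁻¹ : X.S1).1 * (y' * y) := by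
      push_cast
      group
    have h3 := hρN ⟨_, h1⟩
    rw [← hρm, h2, hρm, hρm]
    change ((ρ (y * y' * y⁻¹ * y'⁻¹ : X.S1).1)).comp _ = _
    rw [h3]
    ext1 v
    rfl
  -- the commutator of the flow with the section
  obtain ⟨y, hy⟩ : ∃ y : EuclideanSpace ℝ (Fin X.D.a) → X.S1, ∀ v, y v
      = cjS X.S1 (X.Q.s t) (X.s1 v) * (X.s1 v)⁻¹ := ⟨_, fun v => rfl⟩
  have hnil : ∀ v, IsNilpotent ((ρ (y v) : EuclideanSpace ℝ (Fin m) →ₗ[ℝ] EuclideanSpace ℝ (Fin m))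
      - LinearMap.id) := by
    intro v
    have h1 := nilpotent_of_flow (fun r => ρ (cjS X.S1 (X.Q.s r) (X.s1 v))) ?_ ?_ ?_ t
    · -- `ρ (y v) - 1 = (X t - X 0) ρ (s1 v)⁻¹`
      have e0 : (cjS X.S1 (X.Q.s 0) (X.s1 v)) = X.s1 v := by rw [X.s_zero, cjS_one]
      rw [e0] at h1
      obtain ⟨A, hA⟩ : ∃ A : Module.End ℝ (EuclideanSpace ℝ (Fin m)), A
        = ((ρ (cjS X.S1 (X.Q.s t) (X.s1 v)) : EuclideanSpace ℝ (Fin m) →ₗ[ℝ]
          EuclideanSpace ℝ (Fin m)) - (ρ (X.s1 v) : EuclideanSpace ℝ (Fin m) →ₗ[ℝ]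
          EuclideanSpace ℝ (Fin m))) := ⟨_, rfl⟩
      obtain ⟨B, hB⟩ : ∃ B : Module.End ℝ (EuclideanSpace ℝ (Fin m)), B
        = (ρ ((X.s1 v)⁻¹ : X.S1) : EuclideanSpace ℝ (Fin m) →ₗ[ℝ] EuclideanSpace ℝ (Fin m)) :=
        ⟨_, rfl⟩
      have hA' : ∀ x, A x = ρ (cjS X.S1 (X.Q.s t) (X.s1 v)) x - ρ (X.s1 v) x := fun x => by
        rw [hA]; rfl
      have hB' : ∀ x, B x = ρ ((X.s1 v)⁻¹ : X.S1) x := fun x => by rw [hB]; rfl
      have hcA : ∀ (a b : X.S1) x, ρ a (ρ b x) = ρ b (ρ a x) := fun a b x =>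
        congrArg (fun f => f x) (hρcomm a b)
      have hAB : Commute A B := by
        apply LinearMap.ext
        intro x
        rw [Module.End.mul_apply, Module.End.mul_apply, hA', hB', hB', hA', map_sub,
          hcA (cjS X.S1 (X.Q.s t) (X.s1 v)) ((X.s1 v)⁻¹), hcA (X.s1 v) ((X.s1 v)⁻¹)]
      have e1 : ((ρ (y v) : EuclideanSpace ℝ (Fin m) →ₗ[ℝ] EuclideanSpace ℝ (Fin m))
          - LinearMap.id) = A * B := by
        apply LinearMap.ext
        intro x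
        rw [Module.End.mul_apply, hA', hB']
        change ρ (y v) x - x = _
        rw [hy]
        have e2 : ρ ((cjS X.S1 (X.Q.s t) (X.s1 v) * (X.s1 v)⁻¹ : X.S1) : S) x
            = ρ (cjS X.S1 (X.Q.s t) (X.s1 v)) (ρ ((X.s1 v)⁻¹ : X.S1) x) := by
          rw [Subgroup.coe_mul, hρm]
          rfl
        have e3 : ρ (X.s1 v) (ρ ((X.s1 v)⁻¹ : X.S1) x) = x := by
          have := congrArg (fun f => f x) (hρinv (X.s1 v))
          exact this
        rw [e2, e3]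
      rw [e1]
      exact hAB.isNilpotent_mul_right (by rw [hA]; exact h1)
    · refine hρc.comp ?_
      exact continuous_subtype_val.comp ((continuous_cjS' X.S1).comp
        (X.Q.hs.prodMk continuous_const))
    · exact fun s r => hρcomm _ _
    · intro r
      refine ⟨ρ (X.Q.s r), ρ (X.Q.s r)⁻¹, hρinv _, hρinv' _, ?_⟩
      change ρ (X.Q.s r * X.s1 v * (X.Q.s r)⁻¹) = (ρ (X.Q.s r)).comp
        ((ρ (cjS X.S1 (X.Q.s 0) (X.s1 v))).comp (ρ (X.Q.s r)⁻¹))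
      rw [X.s_zero, cjS_one, ← hρm, ← hρm, mul_assoc]
  -- the linear map `u`
  have hp1c : ∀ x x' : X.S1, X.p1 x = X.p1 x' →
      X.p1 (cjS X.S1 (X.Q.s t) x) = X.p1 (cjS X.S1 (X.Q.s t) x') := by
    intro x x' hxx
    have h1 : ((x * x'⁻¹ : X.S1) : S) ∈ X.N1 := by
      rw [← X.p1_eq_zero, X.p1_mul, X.p1_inv, hxx, add_neg_cancel]
    have h2 := X.normalN1.conj_mem _ h1 (X.Q.s t)
    have h3 : X.p1 (cjS X.S1 (X.Q.s t) (x * x'⁻¹)) = 0 := by
      rw [X.p1_eq_zero]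
      exact h2
    rw [map_mul, X.p1_mul, map_inv, X.p1_inv, add_neg_eq_zero] at h3
    exact h3
  have hyadd : ∀ v w, X.p1 (y (v + w)) = X.p1 (y v) + X.p1 (y w) := by
    intro v w
    rw [hy, hy, hy, X.p1_mul, X.p1_mul, X.p1_mul, X.p1_inv, X.p1_inv, X.p1_inv, X.p1_s1, X.p1_s1,
      X.p1_s1]
    have h1 : X.p1 (cjS X.S1 (X.Q.s t) (X.s1 (v + w)))
        = X.p1 (cjS X.S1 (X.Q.s t) (X.s1 v)) + X.p1 (cjS X.S1 (X.Q.s t) (X.s1 w)) := by
      rw [← X.p1_mul, ← map_mul]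
      exact hp1c _ _ (by rw [X.p1_s1, X.p1_mul, X.p1_s1, X.p1_s1])
    rw [h1]
    abel
  have hycont : Continuous fun v => X.p1 (y v) := by
    have e : y = fun v => cjS X.S1 (X.Q.s t) (X.s1 v) * (X.s1 v)⁻¹ := funext hy
    rw [e]
    exact X.continuous_p1.comp (((continuous_cjS X.S1 _).comp X.continuous_s1).mul
      X.continuous_s1.inv)
  have hysmul : ∀ (r : ℝ) v, X.p1 (y (r • v)) = r • X.p1 (y v) := by
    intro r v
    exact map_real_smul (AddMonoidHom.mk' (fun v => X.p1 (y v)) hyadd) hycont r v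
  -- `u = 0`
  have hzero : ∀ v, X.p1 (y v) = 0 := by
    intro v
    refine X.maxi1 _ fun r => ?_
    have h1 : UnipOn X.N1 X.R1.hull (y (r • v) : S) := by
      rw [unipOn_iff X.N1 hm hk hξs hρξ]
      exact hnil _
    refine unipOn_mul X.N1 X.R1 ?_ h1
    have h2 : ((y (r • v))⁻¹ * X.s1 (r • X.p1 (y v)) : X.S1).1 ∈ X.N1 := by
      rw [← X.p1_eq_zero, X.p1_mul, X.p1_inv, X.p1_s1, hysmul, neg_add_cancel]
    exact h2
  have h1 := hzero (X.p1 x)
  rw [hy, X.p1_mul, X.p1_inv, X.p1_s1, add_neg_eq_zero] at h1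
  rw [← h1]
  exact hp1c _ _ (X.p1_s1 _).symm

/-- **`S` acts trivially on `S1 / N1`** -/
theorem p1_conj (g : S) (x : X.S1) : X.p1 (cjS X.S1 g x) = X.p1 x := by
  have h1 : g * (X.Q.s (X.Q.p g))⁻¹ ∈ X.S1 := by
    rw [X.hS1, X.Q.pmul, X.Q.p_inv, X.Q.ps, add_neg_cancel]
  have h2 : g = (g * (X.Q.s (X.Q.p g))⁻¹) * X.Q.s (X.Q.p g) := by group
  rw [h2, cjS_mul]
  have h3 : cjS X.S1 (g * (X.Q.s (X.Q.p g))⁻¹) (cjS X.S1 (X.Q.s (X.Q.p g)) x)
      = ⟨_, h1⟩ * (cjS X.S1 (X.Q.s (X.Q.p g)) x) * ⟨_, h1⟩⁻¹ := rfl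
  rw [h3, X.p1_mul, X.p1_mul, X.p1_inv, X.p1_flow]
  abel

end SDat

end Pool.Agent.AbCoc
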