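import Pool.Agent.Lib_MP_418a80_sol.SH6
import Pool.Agent.Lib_MP_418a80_sol.SH4
import Pool.Agent.Lib_MP_418a80_sol.SH1b

/-!
# MP_418a80_an, T4, group side: semidirect products with `ℝ`, part 2: `NilData S1 ⟹ NilData S`

Either no one-parameter group `t ↦ s1 (t w1) s(t)` acts unipotently on the abelianization of `N1`;
then `N1` is the nilradical of `S` and `S / N1 = ℝ ^ (a + 1)`. Or there is such a `w1`; then
`N = N1 · {s1 (t w1) s(t)}` is the nilradical and `S / N = ℝ ^ a`.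
-/

set_option autoImplicit false
set_option linter.unusedSectionVars false
set_option linter.unusedVariables false

open Topology Filter
open scoped commutatorElement RealInnerProductSpace

namespace Pool.Agent.AbCoc

universe u v w z

variable {S : Type w} [Group S] [TopologicalSpace S] [IsTopologicalGroup S] [T2Space S]
  [LocallyCompactSpace S]

/-- an element which acts unipotently on the abelianization acts nilpotently on the whole group -/
theorem unipOn_all (N : Subgroup S) [N.Normal] [LocallyCompactSpace N] [Group.IsNilpotent N]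
    (R : RPow N) {g : S} (hg : UnipOn N R.hull g) : ∃ K : ℕ, ∀ x : N, (cmN N g)^[K] x = 1 := by
  obtain ⟨k, C, h0, hk, hcl, hst, hle, hinv, hcm, hC⟩ := exists_hall N R
  have h1 : ∀ i : ℕ, ∃ K : ℕ, ∀ x : N, (cmN N g)^[K] x ∈ C i := by
    intro i
    induction i with
    | zero => exact ⟨0, fun x => by rw [h0]; exact Subgroup.mem_top _⟩
    | succ i ih =>
      obtain ⟨K, hK⟩ := ih
      obtain ⟨k', hk'⟩ := hC g hg i
      refine ⟨k' + K, fun x => ?_⟩
      rw [Function.iterate_add_apply]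
      exact hk' _ (hK x)
  obtain ⟨K, hK⟩ := h1 k
  refine ⟨K, fun x => ?_⟩
  have h2 := hK x
  rw [hk, Subgroup.mem_bot] at h2
  exact h2

/-- the isomorphism `ℝ → ℝ ^ 1` -/
noncomputable def e1 (t : ℝ) : EuclideanSpace ℝ (Fin 1) := WithLp.toLp 2 fun _ => t

theorem e1_add (s t : ℝ) : e1 (s + t) = e1 s + e1 t := rfl

theorem continuous_e1 : Continuous e1 := by
  unfold e1
  fun_prop

theorem e1_apply (v : EuclideanSpace ℝ (Fin 1)) : e1 (v 0) = v := by
  ext j
  have hj : j = 0 := Subsingleton.elim _ _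
  subst hj
  rfl

theorem e1_eq_zero (t : ℝ) : e1 t = 0 ↔ t = 0 := by
  constructor
  · intro h
    exact congrArg (fun v : EuclideanSpace ℝ (Fin 1) => v 0) h
  · intro h
    rw [h]
    rfl

namespace SDat
variable (X : SDat S)

theorem mem_pr (g : S) : g * (X.Q.s (X.Q.p g))⁻¹ ∈ X.S1 := by
  rw [X.hS1, X.Q.pmul, X.Q.p_inv, X.Q.ps, add_neg_cancel]

/-- the component in `S1 / N1` -/
def q (g : S) : EuclideanSpace ℝ (Fin X.D.a) := X.p1 ⟨g * (X.Q.s (X.Q.p g))⁻¹, X.mem_pr g⟩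

theorem continuous_q : Continuous X.q := by
  refine X.continuous_p1.comp (Continuous.subtype_mk ?_ _)
  exact continuous_id.mul (X.Q.hs.comp X.Q.hp).inv

theorem q_mul (g h : S) : X.q (g * h) = X.q g + X.q h := by
  have h1 : (⟨g * h * (X.Q.s (X.Q.p (g * h)))⁻¹, X.mem_pr (g * h)⟩ : X.S1)
      = ⟨g * (X.Q.s (X.Q.p g))⁻¹, X.mem_pr g⟩
        * cjS X.S1 (X.Q.s (X.Q.p g)) ⟨h * (X.Q.s (X.Q.p h))⁻¹, X.mem_pr h⟩ := by
    apply Subtype.ext
    change g * h * (X.Q.s (X.Q.p (g * h)))⁻¹ = g * (X.Q.s (X.Q.p g))⁻¹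
      * (X.Q.s (X.Q.p g) * (h * (X.Q.s (X.Q.p h))⁻¹) * (X.Q.s (X.Q.p g))⁻¹)
    rw [X.Q.pmul, X.Q.smul]
    group
  unfold q
  rw [h1, X.p1_mul, X.p1_flow]

theorem q_S1 (x : X.S1) : X.q x = X.p1 x := by
  have h1 : X.Q.p (x : S) = 0 := (X.hS1 _).1 x.2
  have h2 : (⟨(x : S) * (X.Q.s (X.Q.p x))⁻¹, X.mem_pr x⟩ : X.S1) = x := by
    apply Subtype.ext
    change (x : S) * (X.Q.s (X.Q.p x))⁻¹ = x
    rw [h1, X.s_zero, inv_one, mul_one]
  unfold q
  rw [h2]

theorem q_s (t : ℝ) : X.q (X.Q.s t) = 0 := by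
  have h2 : (⟨X.Q.s t * (X.Q.s (X.Q.p (X.Q.s t)))⁻¹, X.mem_pr _⟩ : X.S1) = 1 := by
    apply Subtype.ext
    change X.Q.s t * (X.Q.s (X.Q.p (X.Q.s t)))⁻¹ = 1
    rw [X.Q.ps, mul_inv_cancel]
  unfold q
  rw [h2, X.p1_eq_zero]
  exact one_mem _

theorem mem_N1_iff (g : S) : g ∈ X.N1 ↔ X.Q.p g = 0 ∧ X.q g = 0 := by
  constructor
  · intro h
    have h1 := X.N1_le h
    refine ⟨(X.hS1 g).1 h1, ?_⟩
    rw [X.q_S1 ⟨g, h1⟩, X.p1_eq_zero]
    exact h
  · rintro ⟨h1, h2⟩
    have h3 := (X.hS1 g).2 h1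
    rw [X.q_S1 ⟨g, h3⟩, X.p1_eq_zero] at h2
    exact h2

theorem q_sig (v : EuclideanSpace ℝ (Fin X.D.a)) (r : ℝ) : X.q ((X.s1 v : S) * X.Q.s r) = v := by
  rw [X.q_mul, X.q_S1, X.p1_s1, X.q_s, add_zero]

theorem p_sig (v : EuclideanSpace ℝ (Fin X.D.a)) (r : ℝ) :
    X.Q.p ((X.s1 v : S) * X.Q.s r) = r := by
  rw [X.Q.pmul, X.Q.ps, (X.hS1 _).1 (X.s1 v).2, zero_add]

/-- **no unipotent direction outside `S1`** -/
theorem nilData_zero (hw : ¬ ∃ w1 : EuclideanSpace ℝ (Fin X.D.a), ∀ t : ℝ,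
    UnipOn X.N1 X.R1.hull ((X.s1 (t • w1) : S) * X.Q.s t)) : Nonempty (NilData S) := by
  refine nilData_mk X.N1 X.normalN1 X.closedN1 X.nilN1 X.R1
    (F := EuclideanSpace ℝ (Fin X.D.a) × ℝ) (fun g => (X.q g, X.Q.p g))
    (X.continuous_q.prodMk X.Q.hp) (fun g h => by rw [X.q_mul, X.Q.pmul]; rfl)
    (fun v => (X.s1 v.1 : S) * X.Q.s v.2) ?_ ?_ ?_ ?_ ?_
  · exact (continuous_subtype_val.comp (X.continuous_s1.comp continuous_fst)).mul
      (X.Q.hs.comp continuous_snd)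
  · change ((X.s1 0 : X.S1) : S) * X.Q.s 0 = 1
    rw [X.s1_zero, X.s_zero, Subgroup.coe_one, mul_one]
  · intro v
    rw [X.q_sig, X.p_sig]
  · intro g
    rw [X.mem_N1_iff, Prod.mk_eq_zero, and_comm]
  · rintro ⟨v, r⟩ h
    have h1 : ∀ t : ℝ, UnipOn X.N1 X.R1.hull ((X.s1 (t • v) : S) * X.Q.s (t * r)) := fun t => h t
    by_cases hr : r = 0
    · subst hr
      have h2 : v = 0 := X.maxi1 v fun t => by
        have h3 := h1 t
        rwa [mul_zero, X.s_zero, mul_one] at h3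
      rw [h2]
      rfl
    · refine absurd ⟨r⁻¹ • v, fun t => ?_⟩ hw
      have h3 := h1 (t * r⁻¹)
      rwa [mul_assoc, inv_mul_cancel₀ hr, mul_one, mul_smul] at h3

/-- **a unipotent direction outside `S1`** -/
theorem nilData_one (w1 : EuclideanSpace ℝ (Fin X.D.a)) (hw : ∀ t : ℝ,
    UnipOn X.N1 X.R1.hull ((X.s1 (t • w1) : S) * X.Q.s t)) : Nonempty (NilData S) := by
  have := X.lcN1
  -- the homomorphism onto `S / N`
  obtain ⟨P, hP⟩ : ∃ P : S → EuclideanSpace ℝ (Fin X.D.a), ∀ g, P g = X.q g - X.Q.p g • w1 :=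
    ⟨_, fun g => rfl⟩
  have hPc : Continuous P := by
    have e : P = fun g => X.q g - X.Q.p g • w1 := funext hP
    rw [e]
    exact X.continuous_q.sub (X.Q.hp.smul continuous_const)
  have hPm : ∀ g h, P (g * h) = P g + P h := by
    intro g h
    rw [hP, hP, hP, X.q_mul, X.Q.pmul, add_smul]
    abel
  have hPs : ∀ v, P (X.s1 v) = v := by
    intro v
    rw [hP, X.q_S1, X.p1_s1, (X.hS1 _).1 (X.s1 v).2, zero_smul, sub_zero]
  -- the subgroup `N`
  obtain ⟨f, hf⟩ : ∃ f : S →* Multiplicative (EuclideanSpace ℝ (Fin X.D.a)),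
      ∀ g, f g = Multiplicative.ofAdd (P g) :=
    ⟨MonoidHom.mk' (fun g => Multiplicative.ofAdd (P g)) (fun a b => by rw [hPm]; rfl),
      fun g => rfl⟩
  obtain ⟨N, hNf⟩ : ∃ N : Subgroup S, N = f.ker := ⟨_, rfl⟩
  have hN : ∀ g, g ∈ N ↔ P g = 0 := by
    intro g
    rw [hNf, MonoidHom.mem_ker, hf]
    exact Iff.rfl
  have hNn : N.Normal := by
    rw [hNf]
    infer_instance
  have hNcl : IsClosed (N : Set S) := by
    have e : (N : Set S) = P ⁻¹' {0} := by
      ext g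
      exact hN g
    rw [e]
    exact isClosed_singleton.preimage hPc
  have hNlc : LocallyCompactSpace N := hNcl.isClosedEmbedding_subtypeVal.locallyCompactSpace
  have hle : X.N1 ≤ N := by
    intro g hg
    obtain ⟨h1, h2⟩ := (X.mem_N1_iff g).1 hg
    rw [hN, hP, h1, h2, zero_smul, sub_zero]
  -- the section of `N / N1 = ℝ`
  have huN : ∀ t : ℝ, (X.s1 (t • w1) : S) * X.Q.s t ∈ N := by
    intro t
    rw [hN, hP, X.q_sig, X.p_sig, sub_self]
  -- an element of `N` with `p = 0` is in `N1`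
  have hNN1 : ∀ g, g ∈ N → X.Q.p g = 0 → g ∈ X.N1 := by
    intro g hg hg'
    rw [X.mem_N1_iff]
    refine ⟨hg', ?_⟩
    have h1 := (hN g).1 hg
    rwa [hP, hg', zero_smul, sub_zero] at h1
  -- `N1` as a subgroup of `N`
  obtain ⟨N', hN'⟩ : ∃ N' : Subgroup N, ∀ x : N, x ∈ N' ↔ (x : S) ∈ X.N1 :=
    ⟨X.N1.subgroupOf N, fun x => Iff.rfl⟩
  have hN'n : N'.Normal := by
    constructor
    intro n hn g
    rw [hN'] at hn ⊢
    exact X.normalN1.conj_mem _ hn _
  have hN'cl : IsClosed (N' : Set N) := by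
    have e : (N' : Set N) = Subtype.val ⁻¹' (X.N1 : Set S) := by
      ext g
      exact hN' g
    rw [e]
    exact X.closedN1.preimage continuous_subtype_val
  have hN'lc : LocallyCompactSpace N' := hN'cl.isClosedEmbedding_subtypeVal.locallyCompactSpace
  let e : N' ≃* X.N1 :=
    { toFun := fun x => ⟨x.1.1, (hN' _).1 x.2⟩
      invFun := fun x => ⟨⟨x.1, hle x.2⟩, (hN' _).2 x.2⟩
      left_inv := fun x => rfl
      right_inv := fun x => rfl
      map_mul' := fun x y => rfl }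
  have he : Continuous e := by
    refine Continuous.subtype_mk ?_ _
    exact continuous_subtype_val.comp continuous_subtype_val
  have he' : Continuous e.symm := by
    refine Continuous.subtype_mk ?_ _
    refine Continuous.subtype_mk ?_ _
    exact continuous_subtype_val
  have hN'nil : Group.IsNilpotent N' := (Group.isNilpotent_congr e.symm).1 X.nilN1
  obtain ⟨R', -⟩ : ∃ R' : RPow N', True := ⟨X.R1.congr e.symm he' he, trivial⟩
  have hun' : ∀ g : N, UnipOn N' R'.hull g ↔ UnipOn X.N1 X.R1.hull (g : S) := fun g =>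
    unipOn_congr N' X.N1 N.subtype e (fun x => rfl) (hull_congr R' X.R1 e he he') g
  have hab : ∀ g h : N, ⁅g, h⁆ ∈ N' := by
    intro g h
    rw [hN']
    refine hNN1 _ (⁅g, h⁆ : N).2 ?_
    have h1 : ((⁅g, h⁆ : N) : S) = g * h * (g : S)⁻¹ * (h : S)⁻¹ := rfl
    rw [h1, X.Q.pmul, X.Q.pmul, X.Q.pmul, X.Q.p_inv, X.Q.p_inv]
    ring
  have hun : ∀ g : N, UnipOn N' R'.hull g := by
    intro g
    rw [hun']
    refine unipOn_mul X.N1 X.R1 ?_ (hw (X.Q.p g))
    refine hNN1 _ (mul_mem (inv_mem (huN _)) g.2) ?_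
    rw [X.Q.pmul, X.Q.p_inv, X.p_sig, neg_add_cancel]
  -- the chain
  obtain ⟨k, D, h0, hk, hcl, hst, hDle, hDc⟩ := exists_chain N' R' hab hun
  obtain ⟨⟨R⟩, hnil⟩ := exists_rpow_of_chain N' hN'cl R' (d := 1)
    (fun g => e1 (X.Q.p (g : S)))
    (continuous_e1.comp (X.Q.hp.comp continuous_subtype_val))
    (fun g h => by rw [Subgroup.coe_mul, X.Q.pmul, e1_add])
    (fun v => ⟨(X.s1 (v 0 • w1) : S) * X.Q.s (v 0), huN _⟩)
    (by
      refine Continuous.subtype_mk ?_ _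
      have h1 : Continuous fun v : EuclideanSpace ℝ (Fin 1) => v 0 := by fun_prop
      exact (continuous_subtype_val.comp (X.continuous_s1.comp (h1.smul continuous_const))).mul
        (X.Q.hs.comp h1))
    (fun v => by
      change e1 (X.Q.p ((X.s1 (v 0 • w1) : S) * X.Q.s (v 0))) = v
      rw [X.p_sig, e1_apply])
    (fun g => by
      rw [hN', e1_eq_zero]
      exact ⟨fun h => ((X.mem_N1_iff _).1 h).1, fun h => hNN1 _ g.2 h⟩)
    D k h0 hk hcl hst hDle hDc
  refine nilData_mk N hNn hNcl hnil R P hPc hPm (fun v => (X.s1 v : S))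
    (continuous_subtype_val.comp X.continuous_s1) ?_ hPs hN ?_
  · change ((X.s1 0 : X.S1) : S) = 1
    rw [X.s1_zero]
    rfl
  · intro v hv
    refine X.maxi1 v fun t => ?_
    obtain ⟨K, hK⟩ := unipOn_all N R (hv t)
    refine ⟨K, fun x => ?_⟩
    have h1 : ∀ (j : ℕ) (x : X.N1), (((cmN X.N1 (X.s1 (t • v) : S))^[j] x : X.N1) : S)
        = (((cmN N (X.s1 (t • v) : S))^[j] ⟨x, hle x.2⟩ : N) : S) := by
      intro j
      induction j with
      | zero => intro x; rfl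
      | succ j ih =>
        intro x
        rw [Function.iterate_succ_apply, Function.iterate_succ_apply, ih]
        rfl
    have h2 : (cmN X.N1 (X.s1 (t • v) : S))^[K] x = 1 := by
      apply Subtype.ext
      rw [h1, hK]
      rfl
    rw [h2]
    exact one_mem _

theorem exists_nilData (X : SDat S) : Nonempty (NilData S) := by
  by_cases hw : ∃ w1 : EuclideanSpace ℝ (Fin X.D.a), ∀ t : ℝ,
      UnipOn X.N1 X.R1.hull ((X.s1 (t • w1) : S) * X.Q.s t)
  · obtain ⟨w1, hw1⟩ := hw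
    exact X.nilData_one w1 hw1
  · exact X.nilData_zero hw

end SDat

end Pool.Agent.AbCoc
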