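import Pool.Agent.Lib_MP_418a80_sol.SH7
import Pool.Agent.Lib_MP_418a80_t3.KeyIso

/-!
# MP_418a80_an, T4, group side: the class `SCSolv`, towers
-/

set_option autoImplicit false
set_option linter.unusedSectionVars false
set_option linter.unusedVariables false

open Topology Filter
open scoped commutatorElement RealInnerProductSpace

namespace Pool.Agent.AbCoc

universe u v w z

/-- simply connected solvable groups: iterated semidirect products with `ℝ`, starting with the
trivial group -/
inductive SCSolv.{w'} : (G : Type w') → [Group G] → [TopologicalSpace G] → Prop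
  | triv (G : Type w') [Group G] [TopologicalSpace G] [Subsingleton G] : SCSolv G
  | step (G : Type w') [Group G] [TopologicalSpace G] (R : RSec G) (N : Subgroup G)
      (hN : ∀ g, g ∈ N ↔ R.p g = 0) (h : SCSolv N) : SCSolv G

section
variable {S : Type w} [Group S] [TopologicalSpace S] [IsTopologicalGroup S] [T2Space S]
  [LocallyCompactSpace S]

theorem nilData_triv [Subsingleton S] : Nonempty (NilData S) :=
  ⟨{ N := ⊤
     normal := inferInstance
     closed := isClosed_univ
     nilp := inferInstance
     R :=
      { pw := fun t g => g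
        cont := continuous_snd
        one := fun g => rfl
        add := fun s t g => Subsingleton.elim _ _
        root := fun n hn g h hgh => Subsingleton.elim _ _ }
     a := 0
     V :=
      { p := fun g => 0
        hp := continuous_const
        pmul := fun g h => (add_zero _).symm
        s := fun v => 1
        hs := continuous_const
        s_zero := rfl
        ps := fun v => Subsingleton.elim _ _ }
     ker := fun g => ⟨fun _ => rfl, fun _ => Subgroup.mem_top _⟩
     maxi := fun v h => Subsingleton.elim _ _ }⟩

theorem SCSolv.exists_nilData {G : Type w} [Group G] [TopologicalSpace G] (h : SCSolv G) :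
    ∀ [IsTopologicalGroup G] [T2Space G] [LocallyCompactSpace G], Nonempty (NilData G) := by
  induction h with
  | triv G => exact nilData_triv
  | step G R N hN h ih =>
    intro _ _ _
    have hNc : IsClosed (N : Set G) := by
      have e : (N : Set G) = R.p ⁻¹' {0} := by
        ext g
        exact hN g
      rw [e]
      exact isClosed_singleton.preimage R.hp
    have : LocallyCompactSpace N := hNc.isClosedEmbedding_subtypeVal.locallyCompactSpace
    obtain ⟨D⟩ := ih
    exact SDat.exists_nilData { Q := R, S1 := N, hS1 := hN, D := D }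

/-- the nilradical of a nontrivial group is nontrivial -/
theorem NilData.nontrivial [Nontrivial S] (D : NilData S) : Nontrivial D.N := by
  by_contra h0
  have h1 : Subsingleton D.N := not_nontrivial_iff_subsingleton.1 h0
  have h2 : ∀ v : EuclideanSpace ℝ (Fin D.a), v = 0 := fun v => D.maxi v fun t => ⟨0, fun x => by
    rw [Subsingleton.elim x 1]
    exact one_mem _⟩
  obtain ⟨g, hg⟩ := exists_ne (1 : S)
  have h3 : g ∈ D.N := (D.ker g).2 (h2 _)
  have h4 : (⟨g, h3⟩ : D.N) = 1 := Subsingleton.elim _ _
  exact hg (congrArg Subtype.val h4)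

end

section
variable {G : Type w} [Group G] [TopologicalSpace G] [IsTopologicalGroup G] [T2Space G]
  [SecondCountableTopology G] [LocallyCompactSpace G]

/-- towers of nilpotent closed subgroups -/
theorem kTower_of_nilpotent (M : Subgroup G) (hM : IsClosed (M : Set G)) [Group.IsNilpotent M]
    (R : RPow M) : KTower.{u, v, w} M := by
  have : LocallyCompactSpace M := hM.isClosedEmbedding_subtypeVal.locallyCompactSpace
  obtain ⟨n, hn⟩ := Group.IsNilpotent.nilpotent M
  obtain ⟨k, hk⟩ := R.exists_pch n
  rw [hn] at hk
  have h1 := kTower_of_pch.{u, v, w} M hM R hk isClosed_univ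
  have e : (⊤ : Subgroup M).map M.subtype = M := by
    rw [← MonoidHom.range_eq_map, Subgroup.range_subtype]
  rwa [e] at h1

/-- the tower of a nilpotent group -/
theorem kTower_top [Group.IsNilpotent G] (R : RPow G) : KTower.{u, v, w} (⊤ : Subgroup G) := by
  have hn : Group.IsNilpotent (⊤ : Subgroup G) := inferInstance
  refine kTower_of_nilpotent ⊤ isClosed_univ (R.congr Subgroup.topEquiv.symm ?_ ?_)
  · exact continuous_id.subtype_mk _
  · exact continuous_subtype_val

/-- towers of closed subgroups with `NilData` -/
theorem kTower_of_nilData (H : Subgroup G) (hH : IsClosed (H : Set G)) (D : NilData H)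
    (hK : KeyAll.{u, v, w} H) : KTower.{u, v, w} H := by
  obtain ⟨M, hMdef⟩ : ∃ M : Subgroup G, M = D.N.map H.subtype := ⟨_, rfl⟩
  have hMmem : ∀ g, g ∈ M ↔ ∃ h : g ∈ H, (⟨g, h⟩ : H) ∈ D.N := by
    intro g
    rw [hMdef, Subgroup.mem_map]
    constructor
    · rintro ⟨x, hx, rfl⟩
      exact ⟨x.2, hx⟩
    · rintro ⟨h, hx⟩
      exact ⟨⟨g, h⟩, hx, rfl⟩
  have hMcl : IsClosed (M : Set G) := by
    rw [hMdef, Subgroup.coe_map]
    exact hH.isClosedEmbedding_subtypeVal.isClosedMap _ D.closed
  let e : D.N ≃* M :=
    { toFun := fun x => ⟨x.1, (hMmem _).2 ⟨x.1.2, x.2⟩⟩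
      invFun := fun x => ⟨⟨x.1, ((hMmem _).1 x.2).1⟩, ((hMmem _).1 x.2).2⟩
      left_inv := fun x => rfl
      right_inv := fun x => rfl
      map_mul' := fun x y => rfl }
  have he : Continuous e := by
    refine Continuous.subtype_mk ?_ _
    exact continuous_subtype_val.comp continuous_subtype_val
  have he' : Continuous e.symm := by
    refine Continuous.subtype_mk ?_ _
    refine Continuous.subtype_mk ?_ _
    exact continuous_subtype_val
  have hMn : Group.IsNilpotent M := (Group.isNilpotent_congr e).1 D.nilp
  have hMt : KTower.{u, v, w} M := kTower_of_nilpotent M hMcl (D.R.congr e he he')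
  have hle : M ≤ H := fun g hg => ((hMmem g).1 hg).1
  rcases Nat.eq_zero_or_pos D.a with ha | ha
  · -- `H = M`
    have h1 : H = M := by
      refine le_antisymm (fun g hg => (hMmem g).2 ⟨hg, ?_⟩) hle
      rw [D.ker]
      have : Subsingleton (EuclideanSpace ℝ (Fin D.a)) := by
        rw [ha]
        infer_instance
      exact Subsingleton.elim _ _
    rw [h1]
    exact hMt
  · obtain ⟨pp, hpp⟩ : ∃ pp : G → EuclideanSpace ℝ (Fin D.a),
        ∀ (g : G) (h : g ∈ H), pp g = D.V.p ⟨g, h⟩ := by
      classical
      exact ⟨fun g => if h : g ∈ H then D.V.p ⟨g, h⟩ else 0, fun g h => dif_pos h⟩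
    refine KTower.step H M D.a pp ha hH ⟨?_, ?_, ?_, ?_, hle⟩ hK hMt
    · rw [continuousOn_iff_continuous_domRestrict]
      have e : (H : Set G).domRestrict pp = fun g : (H : Set G) => D.V.p ⟨g, g.2⟩ := by
        funext g
        exact hpp _ _
      rw [e]
      exact D.V.hp.comp (continuous_subtype_val.subtype_mk _)
    · intro s hs t ht
      rw [hpp s hs, hpp t ht, hpp (s * t) (mul_mem hs ht)]
      exact D.V.pmul ⟨s, hs⟩ ⟨t, ht⟩
    · intro q
      refine ⟨(D.V.s q : H), (D.V.s q).2, ?_⟩
      rw [hpp _ (D.V.s q).2]
      exact D.V.ps q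
    · intro s hs
      rw [hpp s hs, ← D.ker, hMmem]
      exact ⟨fun h => ⟨hs, h⟩, fun h => h.2⟩

end

end Pool.Agent.AbCoc
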