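import Pool.Agent.Lib_MP_418a80_sol.SH8
import Pool.Agent.Lib_MP_418a80_t4.KeyABInd

/-!
# MP_418a80_an, T4: `KeyAll` for simply connected solvable groups, and for groups with an open
normal simply connected solvable subgroup
-/

set_option autoImplicit false
set_option linter.unusedSectionVars false
set_option linter.unusedVariables false

open Topology Filter
open scoped commutatorElement RealInnerProductSpace

namespace Pool.Agent.AbCoc

universe u v w z

section
variable {G : Type w} [Group G] [TopologicalSpace G] [IsTopologicalGroup G] [T2Space G]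
  [SecondCountableTopology G] [LocallyCompactSpace G]

/-- `KeyAll` from the nilradical -/
theorem keyAll_of_nilData [Nontrivial G] (D : NilData G) : KeyAll.{u, v, w} G := by
  obtain ⟨m, W, K, hKc, hKm, hKl⟩ := D.exists_weight
  have hker : D.V.ker = D.N := by
    ext g
    exact (D.ker g).symm
  have hnt := D.nontrivial
  have := D.lcN
  have : SecondCountableTopology D.N :=
    inferInstanceAs (SecondCountableTopology ((D.N : Set G) : Set G))
  refine keyAll_ab D.V (I := Unit) (U := fun _ => EuclideanSpace ℝ (Fin m)) (fun _ => W) K hKc
    hKl ?_ ?_ ?_ ?_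
  · intro v hv
    rw [hKm]
    refine ⟨2, LinearMap.ext fun l => ?_⟩
    have h1 := hv () l
    rw [pow_two, Module.End.mul_apply]
    change W.ρ v (W.ρ v l - l) - (W.ρ v l - l) = 0
    rw [h1, sub_self]
  · rw [hker]
    exact nilpotent_keyAll D.R
  · rw [hker]
    exact D.N.ne_bot_iff_exists_ne_one.2 (exists_ne 1)
  · intro _
    rw [hker]
    exact kTower_top D.R

/-- **simply connected solvable groups** -/
theorem SCSolv.keyAll [Nontrivial G] (h : SCSolv G) : KeyAll.{u, v, w} G := by
  obtain ⟨D⟩ := h.exists_nilData
  exact keyAll_of_nilData D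

/-- towers of simply connected solvable closed subgroups -/
theorem SCSolv.kTower (H : Subgroup G) (hH : IsClosed (H : Set G)) (h : SCSolv H) :
    KTower.{u, v, w} H := by
  have : LocallyCompactSpace H := hH.isClosedEmbedding_subtypeVal.locallyCompactSpace
  have : SecondCountableTopology H :=
    inferInstanceAs (SecondCountableTopology ((H : Set G) : Set G))
  rcases subsingleton_or_nontrivial H with h1 | h1
  · have h2 : H = ⊥ := H.eq_bot_of_subsingleton
    rw [h2]
    exact KTower.bot
  · obtain ⟨D⟩ := h.exists_nilData
    exact kTower_of_nilData H hH D h.keyAll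

/-- **open normal simply connected solvable subgroups** -/
theorem keyAll_of_open_solvable (H : Subgroup G) [H.Normal] (hH : IsOpen (H : Set G))
    [Nontrivial H] (h : SCSolv H) : KeyAll.{u, v, w} G :=
  keyAll_of_kTower H hH (H.ne_bot_iff_exists_ne_one.2 (exists_ne 1))
    (h.kTower H (H.isClosed_of_isOpen hH))

end

end Pool.Agent.AbCoc
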