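import Pool.Agent.Lib_MP_418a80_sol.SH9

/-!
# MP_418a80_an, T5, [SOLV] part 1: simply connected solvable groups with the dimension; quotients by
central one-parameter subgroups
-/

set_option autoImplicit false
set_option linter.unusedSectionVars false
set_option linter.unusedVariables false

open Topology Filter
open scoped commutatorElement RealInnerProductSpace

namespace Pool.Agent.AbCoc

universe u v w z

/-- simply connected solvable groups of dimension `n` -/
inductive SCN.{w'} : ℕ → (G : Type w') → [Group G] → [TopologicalSpace G] → Prop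
  | triv (G : Type w') [Group G] [TopologicalSpace G] [Subsingleton G] : SCN 0 G
  | step (n : ℕ) (G : Type w') [Group G] [TopologicalSpace G] (R : RSec G) (N : Subgroup G)
      (hN : ∀ g, g ∈ N ↔ R.p g = 0) (h : SCN n N) : SCN (n + 1) G

theorem SCSolv.exists_scn {G : Type w} [Group G] [TopologicalSpace G] (h : SCSolv G) :
    ∃ n, SCN n G := by
  induction h with
  | triv G => exact ⟨0, SCN.triv G⟩
  | step G R N hN h ih =>
    obtain ⟨n, hn⟩ := ih
    exact ⟨n + 1, SCN.step n G R N hN hn⟩

theorem SCN.scSolv {n : ℕ} {G : Type w} [Group G] [TopologicalSpace G] (h : SCN n G) :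
    SCSolv G := by
  induction h with
  | triv G => exact SCSolv.triv G
  | step n G R N hN h ih => exact SCSolv.step G R N hN ih

theorem RSec.s_zero' {G : Type w} [Group G] [TopologicalSpace G] (R : RSec G) : R.s 0 = 1 := by
  have h := R.smul 0 0
  rw [add_zero] at h
  exact left_eq_mul.1 h

/-- transport of a section -/
def RSec.congr {G : Type w} [Group G] [TopologicalSpace G] {G' : Type z} [Group G']
    [TopologicalSpace G'] (R : RSec G) (e : G ≃* G') (he : Continuous e)
    (he' : Continuous e.symm) : RSec G' where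
  p g := R.p (e.symm g)
  hp := R.hp.comp he'
  pmul g h := by rw [map_mul, R.pmul]
  s t := e (R.s t)
  hs := he.comp R.hs
  smul t u := by rw [R.smul, map_mul]
  ps t := by rw [e.symm_apply_apply, R.ps]

theorem SCN.congr {n : ℕ} {G : Type w} [Group G] [TopologicalSpace G] (h : SCN n G) :
    ∀ {G' : Type w} [Group G'] [TopologicalSpace G'] (e : G ≃* G') (he : Continuous e)
      (he' : Continuous e.symm), SCN n G' := by
  induction h with
  | triv G =>
    intro G' _ _ e he he'
    have : Subsingleton G' := e.symm.toEquiv.subsingleton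
    exact SCN.triv G'
  | step n G R N hN h ih =>
    intro G' _ _ e he he'
    refine SCN.step n G' (R.congr e he he') (N.comap e.symm.toMonoidHom) ?_ ?_
    · intro g
      exact hN (e.symm g)
    · let e' : N ≃* (N.comap e.symm.toMonoidHom : Subgroup G') :=
        { toFun := fun x => ⟨e x, by
            rw [Subgroup.mem_comap]
            change e.symm (e x) ∈ N
            rw [e.symm_apply_apply]
            exact x.2⟩
          invFun := fun x => ⟨e.symm x, x.2⟩
          left_inv := fun x => Subtype.ext (e.symm_apply_apply _)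
          right_inv := fun x => Subtype.ext (e.apply_symm_apply _)
          map_mul' := fun x y => Subtype.ext (map_mul e _ _) }
      refine ih e' ?_ ?_
      · exact (he.comp continuous_subtype_val).subtype_mk _
      · exact (he'.comp continuous_subtype_val).subtype_mk _

theorem SCSolv.congr {G : Type w} [Group G] [TopologicalSpace G] (h : SCSolv G) {G' : Type w}
    [Group G'] [TopologicalSpace G'] (e : G ≃* G') (he : Continuous e)
    (he' : Continuous e.symm) : SCSolv G' := by
  obtain ⟨n, hn⟩ := h.exists_scn
  exact (hn.congr e he he').scSolv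

theorem SCN.t2 {n : ℕ} {G : Type w} [Group G] [TopologicalSpace G] (h : SCN n G) :
    ∀ [IsTopologicalGroup G], T2Space G := by
  induction h with
  | triv G =>
    intro _
    infer_instance
  | step n G R N hN h ih =>
    intro _
    have h1 : T2Space N := ih
    have hm : ∀ g, g * (R.s (R.p g))⁻¹ ∈ N := fun g => by
      rw [hN, R.pmul, R.p_inv, R.ps, add_neg_cancel]
    refine T2Space.of_injective_continuous
      (f := fun g => ((⟨g * (R.s (R.p g))⁻¹, hm g⟩ : N), R.p g)) ?_ ?_
    · intro g g' hg
      have h2 := congrArg Prod.fst hg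
      have h3 := congrArg Prod.snd hg
      simp only [Subtype.mk.injEq] at h2 h3
      rw [h3] at h2
      exact mul_right_cancel h2
    · refine Continuous.prodMk (Continuous.subtype_mk ?_ _) R.hp
      exact continuous_id.mul (R.hs.comp R.hp).inv

theorem SCN.connected {n : ℕ} {G : Type w} [Group G] [TopologicalSpace G] (h : SCN n G) :
    ∀ [IsTopologicalGroup G], ConnectedSpace G := by
  induction h with
  | triv G =>
    intro _
    have : Nonempty G := ⟨1⟩
    infer_instance
  | step n G R N hN h ih =>
    intro _
    have h1 : ConnectedSpace N := ih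
    have hm : ∀ g, g * (R.s (R.p g))⁻¹ ∈ N := fun g => by
      rw [hN, R.pmul, R.p_inv, R.ps, add_neg_cancel]
    refine Function.Surjective.connectedSpace (f := fun x : N × ℝ => (x.1 : G) * R.s x.2) ?_ ?_
    · intro g
      exact ⟨(⟨_, hm g⟩, R.p g), by simp⟩
    · exact (continuous_subtype_val.comp continuous_fst).mul (R.hs.comp continuous_snd)

/-- **quotients by central one-parameter subgroups** -/
theorem SCN.quot (n : ℕ) : ∀ {G : Type w} [Group G] [TopologicalSpace G] [IsTopologicalGroup G]
    (h : SCN n G) (ζ : ℝ → G) (hζ : Continuous ζ) (hζm : ∀ s t, ζ (s + t) = ζ s * ζ t)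
    (hζc : ∀ t g, ζ t * g = g * ζ t) (hζ1 : ζ 1 ≠ 1) (E : Subgroup G) [E.Normal]
    (hE : ∀ g, g ∈ E ↔ ∃ t, g = ζ t), ∃ m, n = m + 1 ∧ SCN m (G ⧸ E) := by
  induction n with
  | zero =>
    intro G _ _ _ h ζ hζ hζm hζc hζ1 E _ hE
    cases h with
    | triv G => exact absurd (Subsingleton.elim _ _) hζ1
  | succ n ih =>
    intro G _ _ _ h ζ hζ hζm hζc hζ1 E hEn hE
    cases h with
    | step n G R N hN h =>
    have hζ0 : ζ 0 = 1 := by
      have h := hζm 0 0
      rw [add_zero] at h
      exact left_eq_mul.1 h
    have hpζ : ∀ t : ℝ, R.p (ζ t) = t * R.p (ζ 1) := by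
      intro t
      have h1 : ∀ s t, R.p (ζ (s + t)) = R.p (ζ s) + R.p (ζ t) := fun s t => by
        rw [hζm, R.pmul]
      have h2 := map_real_smul (AddMonoidHom.mk' (fun t => R.p (ζ t)) h1) (R.hp.comp hζ) t (1 : ℝ)
      simp only [AddMonoidHom.mk'_apply, smul_eq_mul, mul_one] at h2
      exact h2
    by_cases hc : R.p (ζ 1) = 0
    · -- `E ≤ N`
      have hζN : ∀ t, ζ t ∈ N := fun t => by rw [hN, hpζ, hc, mul_zero]
      have hENn : (E.subgroupOf N).Normal := inferInstance
      obtain ⟨m, hm, hm'⟩ := ih h (fun t => ⟨ζ t, hζN t⟩) (hζ.subtype_mk _)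
        (fun s t => Subtype.ext (hζm s t)) (fun t g => Subtype.ext (hζc t g))
        (fun h1 => hζ1 (congrArg Subtype.val h1)) (E.subgroupOf N) (fun g => by
          rw [Subgroup.mem_subgroupOf, hE]
          exact exists_congr fun t => ⟨fun h1 => Subtype.ext h1, fun h1 => congrArg Subtype.val h1⟩)
      refine ⟨n, rfl, ?_⟩
      subst hm
      -- the section of the quotient
      have hp0 : ∀ g ∈ E, R.p g = 0 := by
        intro g hg
        obtain ⟨t, rfl⟩ := (hE g).1 hg
        exact (hN _).1 (hζN t)
      obtain ⟨pq, hpq⟩ : ∃ pq : G ⧸ E → ℝ, ∀ g : G, pq g = R.p g := by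
        refine ⟨fun x => Quotient.liftOn' x R.p ?_, fun g => rfl⟩
        intro a b hab
        have h1 := hp0 _ (QuotientGroup.leftRel_apply.1 hab)
        rw [R.pmul, R.p_inv] at h1
        linarith
      have hpqc : Continuous pq := by
        refine (QuotientGroup.isQuotientMap_mk E).continuous_iff.2 ?_
        have e : pq ∘ ((↑) : G → G ⧸ E) = R.p := funext hpq
        rw [e]
        exact R.hp
      let Rq : RSec (G ⧸ E) :=
        { p := pq
          hp := hpqc
          pmul := fun x y => by
            induction x using QuotientGroup.induction_on with | H g => ?_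
            induction y using QuotientGroup.induction_on with | H g' => ?_
            rw [← QuotientGroup.mk_mul, hpq, hpq, hpq, R.pmul]
          s := fun t => (R.s t : G ⧸ E)
          hs := QuotientGroup.continuous_mk.comp R.hs
          smul := fun t u => by rw [R.smul]; rfl
          ps := fun t => by rw [hpq, R.ps] }
      -- the kernel
      let f : G ⧸ E →* Multiplicative ℝ :=
        MonoidHom.mk' (fun x => Multiplicative.ofAdd (pq x)) (fun x y => by
          change Multiplicative.ofAdd (Rq.p (x * y)) = _
          rw [Rq.pmul]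
          rfl)
      obtain ⟨N', hN'⟩ : ∃ N' : Subgroup (G ⧸ E), ∀ x, x ∈ N' ↔ pq x = 0 :=
        ⟨f.ker, fun x => by rw [MonoidHom.mem_ker]; exact Iff.rfl⟩
      refine SCN.step m (G ⧸ E) Rq N' hN' ?_
      -- the isomorphism
      have hmem : ∀ x : N, ((x : G) : G ⧸ E) ∈ N' := fun x => by
        rw [hN', hpq]
        exact (hN _).1 x.2
      let φ : N →* N' :=
        { toFun := fun x => ⟨((x : G) : G ⧸ E), hmem x⟩
          map_one' := rfl
          map_mul' := fun x y => rfl }
      have hφker : ∀ x : N, φ x = 1 ↔ x ∈ E.subgroupOf N := by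
        intro x
        rw [Subgroup.mem_subgroupOf, ← QuotientGroup.eq_one_iff]
        exact ⟨fun h1 => congrArg Subtype.val h1, fun h1 => Subtype.ext h1⟩
      have hφs : Function.Surjective φ := by
        rintro ⟨x, hx⟩
        induction x using QuotientGroup.induction_on with | H g => ?_
        refine ⟨⟨g, ?_⟩, rfl⟩
        rw [hN, ← hpq]
        exact (hN' _).1 hx
      let ψ : N ⧸ E.subgroupOf N →* N' := QuotientGroup.lift _ φ fun x hx => (hφker x).2 hx
      have hψ : Function.Bijective ψ := by
        constructor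
        · rw [injective_iff_map_eq_one]
          intro x hx
          induction x using QuotientGroup.induction_on with | H g => ?_
          rw [QuotientGroup.eq_one_iff, ← hφker]
          exact hx
        · intro y
          obtain ⟨x, rfl⟩ := hφs y
          exact ⟨(x : N ⧸ E.subgroupOf N), rfl⟩
      let e := MulEquiv.ofBijective ψ hψ
      have he : Continuous e := by
        refine (QuotientGroup.isQuotientMap_mk _).continuous_iff.2 ?_
        exact (QuotientGroup.continuous_mk.comp continuous_subtype_val).subtype_mk _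
      -- the retraction
      have hmem' : ∀ g, g * (R.s (R.p g))⁻¹ ∈ N := fun g => by
        rw [hN, R.pmul, R.p_inv, R.ps, add_neg_cancel]
      obtain ⟨r, hr⟩ : ∃ r : G ⧸ E → N ⧸ E.subgroupOf N, ∀ g : G, r g
          = ((⟨g * (R.s (R.p g))⁻¹, hmem' g⟩ : N) : N ⧸ E.subgroupOf N) := by
        refine ⟨fun x => Quotient.liftOn' x (fun g : G =>
          ((⟨g * (R.s (R.p g))⁻¹, hmem' g⟩ : N) : N ⧸ E.subgroupOf N)) ?_, fun g => rfl⟩
        intro a b hab
        have h0 := QuotientGroup.leftRel_apply.1 hab
        obtain ⟨t, ht⟩ := (hE _).1 h0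
        have h1 : R.p a = R.p b := by
          have h2 := hp0 _ h0
          rw [R.pmul, R.p_inv] at h2
          linarith
        rw [QuotientGroup.eq, Subgroup.mem_subgroupOf, hE]
        refine ⟨t, ?_⟩
        change (a * (R.s (R.p a))⁻¹)⁻¹ * (b * (R.s (R.p b))⁻¹) = ζ t
        have h3 : b = a * ζ t := by rw [← ht]; group
        rw [← h1, h3, ← hζc]
        calc (a * (R.s (R.p a))⁻¹)⁻¹ * (ζ t * a * (R.s (R.p a))⁻¹)
            = (a * (R.s (R.p a))⁻¹)⁻¹ * ζ t * (a * (R.s (R.p a))⁻¹) := by group
          _ = ζ t := by rw [mul_assoc, hζc]; group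
      have hrc : Continuous r := by
        refine (QuotientGroup.isQuotientMap_mk E).continuous_iff.2 ?_
        have e : r ∘ ((↑) : G → G ⧸ E) = fun g : G =>
          ((⟨g * (R.s (R.p g))⁻¹, hmem' g⟩ : N) : N ⧸ E.subgroupOf N) := funext hr
        rw [e]
        exact QuotientGroup.continuous_mk.comp ((continuous_id.mul (R.hs.comp R.hp).inv).subtype_mk _)
      refine hm'.congr e he ?_
      have e1 : ∀ y : N', e.symm y = r y := by
        intro y
        obtain ⟨x, rfl⟩ := hφs y
        rw [MulEquiv.symm_apply_eq]
        apply Subtype.ext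
        change ((φ x : N') : G ⧸ E) = _
        have h1 : ((φ x : N') : G ⧸ E) = ((x : G) : G ⧸ E) := rfl
        have h2 : R.p (x : G) = 0 := (hN _).1 x.2
        rw [h1, hr]
        change ((x : G) : G ⧸ E) = (((x : G) * (R.s (R.p (x : G)))⁻¹ : G) : G ⧸ E)
        rw [h2, R.s_zero', inv_one, mul_one]
      have e2 : (e.symm : N' → N ⧸ E.subgroupOf N) = r ∘ Subtype.val := funext e1
      rw [e2]
      exact hrc.comp continuous_subtype_val
    · -- `G = N E`
      refine ⟨n, rfl, ?_⟩
      let ψ : N →* G ⧸ E := (QuotientGroup.mk' E).comp N.subtype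
      have hmem : ∀ g, g * ζ (-(R.p g / R.p (ζ 1))) ∈ N := by
        intro g
        rw [hN, R.pmul, hpζ]
        field_simp
        ring
      have hψ : Function.Bijective ψ := by
        constructor
        · rw [injective_iff_map_eq_one]
          intro x hx
          have h1 : (x : G) ∈ E := (QuotientGroup.eq_one_iff _).1 hx
          obtain ⟨t, ht⟩ := (hE _).1 h1
          have h2 := (hN _).1 x.2
          rw [ht, hpζ] at h2
          have h3 : t = 0 := (mul_eq_zero.1 h2).resolve_right hc
          apply Subtype.ext
          rw [ht, h3, hζ0]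
          rfl
        · intro y
          induction y using QuotientGroup.induction_on with | H g => ?_
          refine ⟨⟨_, hmem g⟩, ?_⟩
          change ((g * ζ (-(R.p g / R.p (ζ 1))) : G) : G ⧸ E) = g
          rw [QuotientGroup.eq, hE]
          refine ⟨R.p g / R.p (ζ 1), ?_⟩
          have h1 : ζ (R.p g / R.p (ζ 1)) * ζ (-(R.p g / R.p (ζ 1))) = 1 := by
            rw [← hζm, add_neg_cancel, hζ0]
          rw [mul_inv_rev, mul_assoc, inv_mul_cancel, mul_one]
          exact inv_eq_of_mul_eq_one_left h1
      let e := MulEquiv.ofBijective ψ hψ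
      refine h.congr e (QuotientGroup.continuous_mk.comp continuous_subtype_val) ?_
      refine (QuotientGroup.isQuotientMap_mk E).continuous_iff.2 ?_
      have e1 : (e.symm : G ⧸ E → N) ∘ ((↑) : G → G ⧸ E)
          = fun g => ⟨g * ζ (-(R.p g / R.p (ζ 1))), hmem g⟩ := by
        funext g
        change e.symm (g : G ⧸ E) = _
        rw [MulEquiv.symm_apply_eq]
        change (g : G ⧸ E) = ((g * ζ (-(R.p g / R.p (ζ 1))) : G) : G ⧸ E)
        symm
        rw [QuotientGroup.eq, hE]
        refine ⟨R.p g / R.p (ζ 1), ?_⟩
        have h1 : ζ (R.p g / R.p (ζ 1)) * ζ (-(R.p g / R.p (ζ 1))) = 1 := by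
          rw [← hζm, add_neg_cancel, hζ0]
        rw [mul_inv_rev, mul_assoc, inv_mul_cancel, mul_one]
        exact inv_eq_of_mul_eq_one_left h1
      rw [e1]
      refine Continuous.subtype_mk ?_ _
      exact continuous_id.mul (hζ.comp (R.hp.div_const _).neg)

end Pool.Agent.AbCoc
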