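import Pool.Agent.Lib_MP_418a80_sol.SV1

/-!
# MP_418a80_an, T5: nilpotent groups with real powers are simply connected solvable groups
-/

set_option autoImplicit false
set_option linter.unusedSectionVars false
set_option linter.unusedVariables false

open Topology Filter
open scoped commutatorElement RealInnerProductSpace

namespace Pool.Agent.AbCoc

universe u v w z

variable {G : Type w} [Group G] [TopologicalSpace G] [IsTopologicalGroup G] [T2Space G]

theorem scSolv_of_pch (R : RPow G) {N : Subgroup G} {k : ℕ} (h : PCh R N k) : SCSolv N := by
  induction h with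
  | bot => exact SCSolv.triv _
  | step N N' k p hNs hle hp hm hs hk _ ih =>
    obtain ⟨x, hx⟩ := hs 1
    obtain ⟨RN, -⟩ : ∃ RN : RPow N, True := ⟨R.res N hNs, trivial⟩
    have h1 : ∀ s t : ℝ, p (RN.pw (s + t) x) = p (RN.pw s x) + p (RN.pw t x) := fun s t => by
      rw [RN.add, hm]
    have h2 : ∀ t : ℝ, p (RN.pw t x) = t := by
      intro t
      have h3 := map_real_smul (AddMonoidHom.mk' (fun t => p (RN.pw t x)) h1)
        (hp.comp (RN.cont_left x)) t (1 : ℝ)
      simp only [AddMonoidHom.mk'_apply, smul_eq_mul, mul_one] at h3
      rw [h3, RN.one, hx, mul_one]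
    let RS : RSec N :=
      { p := p
        hp := hp
        pmul := hm
        s := fun t => RN.pw t x
        hs := RN.cont_left x
        smul := fun t u => RN.add t u x
        ps := h2 }
    refine SCSolv.step N RS (N'.subgroupOf N) ?_ ?_
    · intro g
      rw [Subgroup.mem_subgroupOf, ← hk g]
    · let e : N' ≃* N'.subgroupOf N :=
        { toFun := fun y => ⟨⟨y, hle y.2⟩, y.2⟩
          invFun := fun y => ⟨y.1.1, y.2⟩
          left_inv := fun y => rfl
          right_inv := fun y => rfl
          map_mul' := fun y y' => rfl }
      refine ih.congr e ?_ ?_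
      · exact (continuous_subtype_val.subtype_mk _).subtype_mk _
      · exact (continuous_subtype_val.comp continuous_subtype_val).subtype_mk _

/-- **nilpotent groups with continuous real powers are simply connected solvable** -/
theorem scSolv_of_rpow [LocallyCompactSpace G] [Group.IsNilpotent G] (R : RPow G) : SCSolv G := by
  obtain ⟨n, hn⟩ := Group.IsNilpotent.nilpotent G
  obtain ⟨k, hk⟩ := R.exists_pch n
  rw [hn] at hk
  refine (scSolv_of_pch R hk).congr Subgroup.topEquiv ?_ ?_
  · exact continuous_subtype_val
  · exact continuous_id.subtype_mk _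

end Pool.Agent.AbCoc
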