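import Pool.Agent.Lib_MP_418a80_sol.SV1
import Pool.Agent.Lib_MP_418a80_sol.SG2b
import Pool.Agent.Lib_MP_418a80_t5.LatPure

/-!
# MP_418a80_an, T5, [SOLV] part 3: topology of simply connected solvable groups; discrete kernels;
roots of central elements
-/

set_option autoImplicit false
set_option linter.unusedSectionVars false
set_option linter.unusedVariables false

open Topology Filter
open scoped commutatorElement RealInnerProductSpace

namespace Pool.Agent.AbCoc

universe u v w z w'

/-- the homeomorphism `G = N × ℝ` -/
noncomputable def RSec.homeo {G : Type w} [Group G] [TopologicalSpace G] [IsTopologicalGroup G]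
    (R : RSec G) (N : Subgroup G) (hN : ∀ g, g ∈ N ↔ R.p g = 0) : G ≃ₜ N × ℝ where
  toFun g := (⟨g * (R.s (R.p g))⁻¹, by
    rw [hN, R.pmul, R.p_inv, R.ps, add_neg_cancel]⟩, R.p g)
  invFun x := (x.1 : G) * R.s x.2
  left_inv g := by simp
  right_inv x := by
    have h1 : R.p ((x.1 : G) * R.s x.2) = x.2 := by
      rw [R.pmul, R.ps, (hN _).1 x.1.2, zero_add]
    refine Prod.ext (Subtype.ext ?_) h1
    change (x.1 : G) * R.s x.2 * (R.s (R.p ((x.1 : G) * R.s x.2)))⁻¹ = x.1
    rw [h1, mul_inv_cancel_right]
  continuous_toFun :=
    ((continuous_id.mul (R.hs.comp R.hp).inv).subtype_mk _).prodMk R.hp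
  continuous_invFun :=
    (continuous_subtype_val.comp continuous_fst).mul (R.hs.comp continuous_snd)

theorem SCN.locallyCompact {n : ℕ} {G : Type w} [Group G] [TopologicalSpace G] (h : SCN n G) :
    ∀ [IsTopologicalGroup G], LocallyCompactSpace G := by
  induction h with
  | triv G =>
    intro _
    have : Finite G := inferInstance
    infer_instance
  | step n G R N hN h ih =>
    intro _
    have h1 : LocallyCompactSpace N := ih
    exact (R.homeo N hN).isClosedEmbedding.locallyCompactSpace

theorem SCN.secondCountable {n : ℕ} {G : Type w} [Group G] [TopologicalSpace G] (h : SCN n G) :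
    ∀ [IsTopologicalGroup G], SecondCountableTopology G := by
  induction h with
  | triv G =>
    intro _
    have : Finite G := inferInstance
    infer_instance
  | step n G R N hN h ih =>
    intro _
    have h1 : SecondCountableTopology N := ih
    exact (R.homeo N hN).secondCountableTopology

section
variable {C : Type w'} [Group C] [TopologicalSpace C] [IsTopologicalGroup C]

/-- countable locally compact groups are discrete -/
theorem discrete_of_countable [T2Space C] [LocallyCompactSpace C] [Countable C] :
    DiscreteTopology C := by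
  have h1 : Nonempty C := ⟨1⟩
  obtain ⟨x, hx⟩ := nonempty_interior_of_iUnion_of_closed (f := fun x : C => ({x} : Set C))
    (fun x => isClosed_singleton) (by
      ext x
      simp)
  have h2 : interior ({x} : Set C) = {x} := by
    obtain ⟨y, hy⟩ := hx
    have h3 : y = x := Set.mem_singleton_iff.1 (interior_subset hy)
    rw [h3] at hy
    refine subset_antisymm interior_subset ?_
    intro z hz
    rw [Set.mem_singleton_iff.1 hz]
    exact hy
  have h3 : IsOpen ({x} : Set C) := h2 ▸ isOpen_interior
  refine discreteTopology_of_isOpen_singleton_one ?_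
  have h4 := (isOpenMap_mul_left x⁻¹) _ h3
  rwa [Set.image_singleton, inv_mul_cancel] at h4

/-- discrete normal subgroups of connected groups are central -/
theorem central_of_discrete [ConnectedSpace C] (H : Subgroup C) [H.Normal] [DiscreteTopology H]
    {g : C} (hg : g ∈ H) (c : C) : c * g = g * c := by
  obtain ⟨f, hf⟩ : ∃ f : C → H, ∀ c, (f c : C) = c * g * c⁻¹ :=
    ⟨fun c => ⟨c * g * c⁻¹, (inferInstance : H.Normal).conj_mem g hg c⟩, fun _ => rfl⟩
  have hfc : Continuous f := by
    rw [continuous_induced_rng]
    have e : (Subtype.val ∘ f) = fun c => c * g * c⁻¹ := funext hf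
    rw [e]
    fun_prop
  have h1 : f c = f 1 := PreconnectedSpace.constant inferInstance hfc
  have h2 := congrArg Subtype.val h1
  rw [hf, hf] at h2
  simp only [one_mul, inv_one, mul_one] at h2
  rw [mul_inv_eq_iff_eq_mul] at h2
  exact h2

/-- countable kernels are central -/
theorem central_of_countable_ker [T2Space C] [LocallyCompactSpace C] [ConnectedSpace C]
    {G : Type w} [Group G] [TopologicalSpace G] [T2Space G] (j : C →* G) (hj : Continuous j)
    [Countable j.ker] {g : C} (hg : j g = 1) (c : C) : c * g = g * c := by
  have h1 : IsClosed (j.ker : Set C) := by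
    have e : (j.ker : Set C) = j ⁻¹' {1} := by
      ext x
      exact MonoidHom.mem_ker
    rw [e]
    exact isClosed_singleton.preimage hj
  have : LocallyCompactSpace j.ker := h1.isClosedEmbedding_subtypeVal.locallyCompactSpace
  have : DiscreteTopology j.ker := discrete_of_countable
  exact central_of_discrete j.ker (MonoidHom.mem_ker.2 hg) c

/-! ### roots of central elements -/

variable [T2Space C] [LocallyCompactSpace C]

/-- an element which acts unipotently on `N`, and a power of which centralizes `N`, centralizes `N` -/
theorem unip_torsion (N : Subgroup C) [N.Normal] [LocallyCompactSpace N] [Group.IsNilpotent N]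
    (R : RPow N) {t : C} (ht : UnipOn N R.hull t) {m : ℕ} (hm : 0 < m)
    (htm : ∀ x ∈ N, t ^ m * x = x * t ^ m) : ∀ x ∈ N, t * x = x * t := by
  obtain ⟨k, hk⟩ := unipOn_all N R ht
  have hpow : ∀ (i : ℕ) (x y : N), cjS N t x = y * x → cjS N t y = y →
      cjS N (t ^ i) x = y ^ i * x := by
    intro i x y hx hy
    induction i with
    | zero => rw [pow_zero, cjS_one, pow_zero, one_mul]
    | succ i ih =>
      rw [pow_succ', cjS_mul, ih, map_mul, map_pow, hy, hx, pow_succ, mul_assoc]
  have h1 : ∀ (k : ℕ) (x : N), (cmN N t)^[k] x = 1 → cmN N t x = 1 := by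
    intro k
    induction k with
    | zero =>
      intro x hx
      have hx' : x = 1 := hx
      rw [hx', cmN, map_one, inv_one, mul_one]
    | succ k ih =>
      intro x hx
      rw [Function.iterate_succ_apply] at hx
      have h2 := ih _ hx
      obtain ⟨y, hy⟩ : ∃ y, y = cmN N t x := ⟨_, rfl⟩
      rw [← hy] at h2 ⊢
      have h3 : cjS N t y = y := by
        rw [cmN, mul_inv_eq_one] at h2
        exact h2
      have h4 : cjS N t x = y * x := by
        rw [hy, cmN, inv_mul_cancel_right]
      have h5 := hpow m x y h4 h3
      have h6 : cjS N (t ^ m) x = x := by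
        apply Subtype.ext
        rw [cjS_coe, htm x x.2, mul_inv_cancel_right]
      rw [h6, right_eq_mul] at h5
      exact R.root m hm y 1 (by rw [h5, one_pow])
  intro x hx
  have h2 := h1 k ⟨x, hx⟩ (hk _)
  rw [cmN, mul_inv_eq_one] at h2
  have h3 := congrArg Subtype.val h2
  rw [cjS_coe, mul_inv_eq_iff_eq_mul] at h3
  exact h3

end

end Pool.Agent.AbCoc
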