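import Pool.Agent.Lib_MP_418a80_sol.SV3
import Pool.Agent.Lib_MP_418a80_cn.CN4
import Pool.Agent.Lib_MP_418a80_t5.Cover

/-!
# MP_418a80_an, T5, [SOLV] part 4: quotients by discrete central subgroups which meet the nilradical
trivially
-/

set_option autoImplicit false
set_option linter.unusedSectionVars false
set_option linter.unusedVariables false

open Topology Filter
open scoped commutatorElement RealInnerProductSpace

namespace Pool.Agent.AbCoc

universe u v w z w'

section
variable {C : Type w'} [Group C] [TopologicalSpace C] [IsTopologicalGroup C] [T2Space C]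
  [SecondCountableTopology C] [LocallyCompactSpace C]
  {G : Type w} [Group G] [TopologicalSpace G] [IsTopologicalGroup G] [T2Space G]
  [SecondCountableTopology G] [LocallyCompactSpace G]

/-- the central elements with a power in the kernel -/
def isoKer (j : C →* G) : Subgroup C where
  carrier := {t | (∀ c, t * c = c * t) ∧ ∃ m : ℕ, 0 < m ∧ j (t ^ m) = 1}
  one_mem' := ⟨fun c => by rw [one_mul, mul_one], 1, one_pos, by rw [one_pow, map_one]⟩
  mul_mem' := by
    rintro s t ⟨hs, m, hm, hsm⟩ ⟨ht, m', hm', htm⟩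
    refine ⟨fun c => by rw [mul_assoc, ht, ← mul_assoc, hs, mul_assoc], m * m',
      Nat.mul_pos hm hm', ?_⟩
    have h1 : Commute s t := hs t
    rw [h1.mul_pow, map_mul, pow_mul, map_pow j (s ^ m), hsm, one_pow, one_mul, mul_comm m m',
      pow_mul, map_pow j (t ^ m'), htm, one_pow]
  inv_mem' := by
    rintro s ⟨hs, m, hm, hsm⟩
    refine ⟨fun c => ?_, m, hm, by rw [inv_pow, map_inv, hsm, inv_one]⟩
    have h1 := hs (c⁻¹)
    have h2 := congrArg (fun x => x⁻¹) h1
    simp only [mul_inv_rev, inv_inv] at h2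
    exact h2.symm

theorem mem_isoKer (j : C →* G) (t : C) : t ∈ isoKer j ↔ (∀ c, t * c = c * t) ∧
    ∃ m : ℕ, 0 < m ∧ j (t ^ m) = 1 := Iff.rfl

variable (D : NilData C) (j : C →* G)

theorem isoKer_nil (hΓN : ∀ c, j c = 1 → c ∈ D.N → c = 1) {t : C} (ht : t ∈ isoKer j)
    (htN : t ∈ D.N) : t = 1 := by
  obtain ⟨h1, m, hm, htm⟩ := ht
  have h2 : t ^ m = 1 := hΓN _ htm (pow_mem htN m)
  have h3 : (⟨t, htN⟩ : D.N) = 1 := D.R.root m hm _ _ (by
    apply Subtype.ext
    rw [one_pow]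
    exact h2)
  exact congrArg Subtype.val h3

theorem isoKer_inj (hΓN : ∀ c, j c = 1 → c ∈ D.N → c = 1) {s t : C} (hs : s ∈ isoKer j)
    (ht : t ∈ isoKer j) (h : D.V.p s = D.V.p t) : s = t := by
  have h1 : s⁻¹ * t ∈ D.N := by
    rw [D.ker, D.V.pmul, D.V.p_inv, h, neg_add_cancel]
  have h2 := isoKer_nil D j hΓN (mul_mem (inv_mem hs) ht) h1
  exact (inv_mul_eq_one.1 h2)

theorem isoKer_unip {t : C} (ht : t ∈ isoKer j) : UnipOn D.N D.R.hull (D.V.s (D.V.p t)) := by
  have := D.lcN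
  refine unipOn_mul D.N D.R (g := t) ?_ ⟨1, fun x => ?_⟩
  · rw [D.ker, D.V.pmul, D.V.p_inv, D.V.ps, neg_add_cancel]
  · have h1 : (cmN D.N t)^[1] x = 1 := by
      change cjS D.N t x * x⁻¹ = 1
      rw [mul_inv_eq_one]
      apply Subtype.ext
      rw [cjS_coe, ht.1, mul_inv_cancel_right]
    rw [h1]
    exact one_mem _

/-- the image of the isolator is finite -/
theorem isoKer_finite (hΓN : ∀ c, j c = 1 → c ∈ D.N → c = 1)
    (K : AddSubgroup (EuclideanSpace ℝ (Fin D.a)))
    (hKc : IsClosed (K : Set (EuclideanSpace ℝ (Fin D.a))))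
    (hKl : ∀ v, (∀ t : ℝ, t • v ∈ K) → v = 0) (hK : ∀ t ∈ isoKer j, D.V.p t ∈ K) :
    ((isoKer j).map j : Set G).Finite := by
  have hdisc := discrete_of_noLine K hKc hKl
  have hfin : Module.Finite ℤ (AddSubgroup.toIntSubmodule K) := inferInstance
  let _ : CommGroup (isoKer j) :=
    { (inferInstance : Group (isoKer j)) with
      mul_comm := fun x y => Subtype.ext (x.2.1 y) }
  -- the homomorphism to `K`
  let P : Additive (isoKer j) →+ AddSubgroup.toIntSubmodule K :=
    { toFun := fun x => ⟨D.V.p (x.toMul : C), hK _ x.toMul.2⟩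
      map_zero' := Subtype.ext D.V.p_one
      map_add' := fun x y => Subtype.ext (D.V.pmul _ _) }
  have hP : Function.Injective P := by
    intro x y hxy
    have h1 := isoKer_inj D j hΓN x.toMul.2 y.toMul.2 (congrArg Subtype.val hxy)
    exact Additive.toMul.injective (Subtype.ext h1)
  have h1 : Module.Finite ℤ (Additive (isoKer j)) :=
    Module.Finite.of_injective P.toIntLinearMap hP
  have h2 : AddGroup.FG (Additive (isoKer j)) := Module.Finite.iff_addGroup_fg.1 h1
  have h3 : Group.FG (isoKer j) := by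
    rw [GroupFG.iff_add_fg]
    exact h2
  let q : isoKer j →* G := j.comp (isoKer j).subtype
  have h4 : Finite (isoKer j ⧸ q.ker) := by
    have : Group.FG (isoKer j ⧸ q.ker) := QuotientGroup.fg q.ker
    refine CommGroup.finite_of_fg_isMulTorsion _ fun x => ?_
    induction x using QuotientGroup.induction_on with | H x => ?_
    obtain ⟨-, m, hm, hxm⟩ := x.2
    rw [isOfFinOrder_iff_pow_eq_one]
    refine ⟨m, hm, ?_⟩
    rw [← QuotientGroup.mk_pow, QuotientGroup.eq_one_iff, MonoidHom.mem_ker, map_pow]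
    change j x ^ m = 1
    rw [← map_pow]
    exact hxm
  have h5 : Finite q.range := Finite.of_equiv _ (QuotientGroup.quotientKerEquivRange q).toEquiv
  have h6 : (isoKer j).map j = q.range := by
    ext g
    rw [Subgroup.mem_map, MonoidHom.mem_range]
    constructor
    · rintro ⟨t, ht, rfl⟩
      exact ⟨⟨t, ht⟩, rfl⟩
    · rintro ⟨x, rfl⟩
      exact ⟨_, x.2, rfl⟩
  rw [h6]
  exact Set.toFinite _

/-- purity -/
theorem isoKer_pure {v : EuclideanSpace ℝ (Fin D.a)} (hv : UnipOn D.N D.R.hull (D.V.s v)) {m : ℕ}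
    (hm : 0 < m) {c : C} (hc : c ∈ isoKer j) (hcv : D.V.p c = m • v) :
    ∃ t ∈ isoKer j, D.V.p t = v := by
  have := D.lcN
  have := D.nilp
  have hnorm := D.normal
  have hpow : ∀ (g : C) (n : ℕ), D.V.p (g ^ n) = n • D.V.p g := by
    intro g n
    induction n with
    | zero => rw [pow_zero, D.V.p_one, zero_smul]
    | succ n ih => rw [pow_succ, D.V.pmul, ih, succ_nsmul]
  obtain ⟨c0, hc0⟩ : ∃ c0, c0 = D.V.s v := ⟨_, rfl⟩
  have hp0 : D.V.p c0 = v := by rw [hc0, D.V.ps]
  have hx : c⁻¹ * c0 ^ m ∈ D.N := by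
    rw [D.ker, D.V.pmul, D.V.p_inv, hcv, hpow, hp0, neg_add_cancel]
  obtain ⟨x, hxd⟩ : ∃ x : D.N, (x : C) = c⁻¹ * c0 ^ m := ⟨⟨_, hx⟩, rfl⟩
  have hxc : cjS D.N c0 x = x := by
    apply Subtype.ext
    have h1 : Commute c0 (c⁻¹ * c0 ^ m) := by
      refine Commute.mul_right ?_ ((Commute.refl c0).pow_right m)
      exact (Commute.inv_left (hc.1 c0 : Commute c c0)).symm
    rw [cjS_coe, hxd, h1.eq, mul_inv_cancel_right]
  obtain ⟨y, hyd⟩ : ∃ y : D.N, y = D.R.pw (m : ℝ)⁻¹ x := ⟨_, rfl⟩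
  have hym : y ^ m = x := by rw [hyd, D.R.inv_pow m hm]
  have hyc : cjS D.N c0 y = y := by
    rw [hyd, D.R.map_hom D.R _ (continuous_cjS D.N c0), hxc]
  have hcom : Commute c0 (y : C) := by
    have h1 := congrArg Subtype.val hyc
    rw [cjS_coe, mul_inv_eq_iff_eq_mul] at h1
    exact h1
  obtain ⟨t, htd⟩ : ∃ t : C, t = c0 * (y : C)⁻¹ := ⟨_, rfl⟩
  have htm : t ^ m = c := by
    have h1 : ((y : C)) ^ m = c⁻¹ * c0 ^ m := by
      rw [← hxd, ← hym]
      rfl
    rw [htd, (hcom.inv_right).mul_pow, inv_pow, h1, mul_inv_rev, inv_inv, mul_inv_cancel_left]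
  have htp : D.V.p t = v := by
    rw [htd, D.V.pmul, D.V.p_inv, (D.ker _).1 y.2, neg_zero, add_zero, hp0]
  have htu : UnipOn D.N D.R.hull t := by
    refine unipOn_mul D.N D.R (g := D.V.s v) ?_ hv
    rw [htd, ← hc0, inv_mul_cancel_left]
    exact inv_mem y.2
  have htN := unip_torsion D.N D.R htu hm fun x _ => by rw [htm]; exact hc.1 x
  refine ⟨t, ⟨fun c' => ?_, ?_⟩, htp⟩
  · -- `t` is central
    obtain ⟨n, hn⟩ : ∃ n : C, n = t * c' * t⁻¹ * c'⁻¹ := ⟨_, rfl⟩
    have hnN : n ∈ D.N := by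
      rw [hn, D.ker, D.V.pmul, D.V.pmul, D.V.pmul, D.V.p_inv, D.V.p_inv]
      abel
    have h1 : t * c' = n * c' * t := by rw [hn]; group
    have h2 : ∀ k : ℕ, t ^ k * c' = n ^ k * c' * t ^ k := by
      intro k
      induction k with
      | zero => rw [pow_zero, pow_zero, one_mul, mul_one]
      | succ k ih =>
        have h3 : t * n ^ k = n ^ k * t := htN _ (pow_mem hnN k)
        calc t ^ (k + 1) * c' = t * (t ^ k * c') := by rw [pow_succ', mul_assoc]
          _ = (t * n ^ k) * c' * t ^ k := by rw [ih]; group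
          _ = n ^ k * (t * c') * t ^ k := by rw [h3]; group
          _ = n ^ (k + 1) * c' * t ^ (k + 1) := by rw [h1, pow_succ n, pow_succ' t]; group
    have h3 := h2 m
    rw [htm, hc.1 c'] at h3
    have h4 : n ^ m = 1 := by
      have h5 := mul_right_cancel h3
      exact (right_eq_mul.1 h5)
    have h5 : (⟨n, hnN⟩ : D.N) = 1 := D.R.root m hm _ _ (by
      apply Subtype.ext
      rw [one_pow]
      exact h4)
    have h6 : n = 1 := congrArg Subtype.val h5
    rw [h1, h6, one_mul]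
  · obtain ⟨-, m', hm', hcm⟩ := hc
    refine ⟨m * m', Nat.mul_pos hm hm', ?_⟩
    rw [pow_mul, htm, hcm]

end

end Pool.Agent.AbCoc
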