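import Pool.Agent.Lib_MP_418a80_sol.SV4

/-!
# MP_418a80_an, T5, [SOLV] part 5: `KeyAll` for quotients of simply connected solvable groups by
countable (that is, discrete) central subgroups which meet the nilradical trivially
-/

set_option autoImplicit false
set_option linter.unusedSectionVars false
set_option linter.unusedVariables false

open Topology Filter
open scoped commutatorElement RealInnerProductSpace Pointwise

namespace Pool.Agent.AbCoc

universe u v w z w'

section
variable {C : Type w'} [Group C] [TopologicalSpace C] [IsTopologicalGroup C] [T2Space C]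
  [SecondCountableTopology C] [LocallyCompactSpace C]
  {G : Type w} [Group G] [TopologicalSpace G] [IsTopologicalGroup G] [T2Space G]
  [SecondCountableTopology G] [LocallyCompactSpace G]

/-- products of closed subsets of the nilradical with the isolator are closed -/
theorem isoKer_closed (D : NilData C) (j : C →* G)
    (hΓN : ∀ c, j c = 1 → c ∈ D.N → c = 1) (K : AddSubgroup (EuclideanSpace ℝ (Fin D.a)))
    (hKc : IsClosed (K : Set (EuclideanSpace ℝ (Fin D.a))))
    (hKl : ∀ v, (∀ t : ℝ, t • v ∈ K) → v = 0) (hK : ∀ t ∈ isoKer j, D.V.p t ∈ K)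
    (F : Set C) (hF : IsClosed F) (hFN : F ⊆ D.N) : IsClosed (F * (isoKer j : Set C)) := by
  obtain ⟨ε, hε, hgap⟩ := exists_gap K hKc
  have hW : lineSpace K = ⊥ := by
    rw [eq_bot_iff]
    intro v hv
    rw [Submodule.mem_bot]
    exact hKl v hv
  have e : F * (isoKer j : Set C) = ⋃ t : isoKer j, (fun c => c * (t : C)) '' F := by
    ext c
    rw [Set.mem_mul, Set.mem_iUnion]
    constructor
    · rintro ⟨f, hf, t, ht, rfl⟩
      exact ⟨⟨t, ht⟩, f, hf, rfl⟩
    · rintro ⟨t, f, hf, rfl⟩
      exact ⟨f, hf, t, t.2, rfl⟩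
  rw [e]
  refine LocallyFinite.isClosed_iUnion (fun c => ?_) fun t => (isClosedMap_mul_right (t : C)) _ hF
  refine ⟨D.V.p ⁻¹' Metric.ball (D.V.p c) (ε / 2),
    D.V.hp.continuousAt.preimage_mem_nhds (Metric.ball_mem_nhds _ (by positivity)), ?_⟩
  refine Set.Subsingleton.finite ?_
  have hp : ∀ (t : isoKer j) (f : C), f ∈ F → D.V.p (f * t) = D.V.p t := by
    intro t f hf
    rw [D.V.pmul, (D.ker _).1 (hFN hf), zero_add]
  rintro t ⟨c1, ⟨f1, hf1, rfl⟩, hc1⟩ t' ⟨c2, ⟨f2, hf2, rfl⟩, hc2⟩
  apply Subtype.ext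
  refine isoKer_inj D j hΓN t.2 t'.2 ?_
  rw [Set.mem_preimage] at hc1 hc2
  simp only [hp t f1 hf1, hp t' f2 hf2, Metric.mem_ball] at hc1 hc2
  have h1 : D.V.p (t : C) - D.V.p (t' : C) ∈ K := sub_mem (hK _ t.2) (hK _ t'.2)
  have h2 : D.V.p (t : C) - D.V.p (t' : C) = 0 := by
    refine hgap _ h1 ?_ ?_
    · rw [hW, Submodule.bot_orthogonal_eq_top]
      exact Submodule.mem_top
    · rw [← dist_eq_norm]
      calc dist (D.V.p (t : C)) (D.V.p (t' : C))
          ≤ dist (D.V.p (t : C)) (D.V.p c) + dist (D.V.p (t' : C)) (D.V.p c) :=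
            dist_triangle_right _ _ _
        _ < ε / 2 + ε / 2 := add_lt_add hc1 hc2
        _ = ε := by ring
  exact sub_eq_zero.1 h2

/-- **quotients by kernels which meet the nilradical trivially** -/
theorem keyAll_cover_nil [Nontrivial C] (D : NilData C) (j : C →* G) (hj : Continuous j)
    (hjo : IsOpenMap j) (hjs : Function.Surjective j)
    (hcen : ∀ c, j c = 1 → ∀ c', c' * c = c * c') (hΓN : ∀ c, j c = 1 → c ∈ D.N → c = 1) :
    KeyAll.{u, v, w} G := by
  obtain ⟨m, W, K, hKc, hKm, hKu, hKl⟩ := D.exists_weight_unip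
  have hker : D.V.ker = D.N := by
    ext g
    exact (D.ker g).symm
  have hnt := D.nontrivial
  have hlc := D.lcN
  have hnil := D.nilp
  have hK : ∀ t ∈ isoKer j, D.V.p t ∈ K := fun t ht => (hKu _).2 (isoKer_unip D j ht)
  have hle : ∀ c, j c = 1 → c ∈ isoKer j := fun c hc =>
    ⟨fun c' => (hcen c hc c').symm, 1, one_pos, by rw [pow_one, hc]⟩
  -- the finite central subgroup
  obtain ⟨T, hT⟩ : ∃ T : Subgroup G, T = (isoKer j).map j := ⟨_, rfl⟩
  have hTfin : (T : Set G).Finite := by
    rw [hT]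
    exact isoKer_finite D j hΓN K hKc hKl hK
  have hTn : T.Normal := by
    constructor
    intro n hn g
    rw [hT, Subgroup.mem_map] at hn ⊢
    obtain ⟨t, ht, rfl⟩ := hn
    obtain ⟨g, rfl⟩ := hjs g
    refine ⟨t, ht, ?_⟩
    rw [← map_mul, ← map_inv, ← map_mul, ← ht.1, mul_inv_cancel_right]
  have hTc : IsClosed (T : Set G) := hTfin.isClosed
  -- the covering of `G ⧸ T`
  let j2 : C →* G ⧸ T := (QuotientGroup.mk' T).comp j
  have hj2 : Continuous j2 := QuotientGroup.continuous_mk.comp hj
  have hj2o : IsOpenMap j2 := (QuotientGroup.isOpenMap_coe (N := T)).comp hjo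
  have hj2s : Function.Surjective j2 := (QuotientGroup.mk'_surjective T).comp hjs
  have hj2k : ∀ c, j2 c = 1 ↔ c ∈ isoKer j := by
    intro c
    change ((j c : G) : G ⧸ T) = 1 ↔ _
    rw [QuotientGroup.eq_one_iff, hT, Subgroup.mem_map]
    constructor
    · rintro ⟨t, ht, htc⟩
      have h1 : j (c * t⁻¹) = 1 := by rw [map_mul, map_inv, htc, mul_inv_cancel]
      have h2 := mul_mem (hle _ h1) ht
      rwa [inv_mul_cancel_right] at h2
    · intro h
      exact ⟨c, h, rfl⟩
  have hNc : IsClosedEmbedding (j2.comp D.V.ker.subtype) := by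
    refine IsClosedEmbedding.of_continuous_injective_isClosedMap
      (hj2.comp continuous_subtype_val) ?_ ?_
    · rw [injective_iff_map_eq_one]
      intro x hx
      apply Subtype.ext
      refine isoKer_nil D j hΓN ((hj2k _).1 hx) ?_
      rw [← hker]
      exact x.2
    · intro F hF
      have h1 : IsClosed ((Subtype.val '' F : Set C)) :=
        D.V.isClosed_ker.isClosedEmbedding_subtypeVal.isClosedMap _ hF
      have h2 : (Subtype.val '' F : Set C) ⊆ D.N := by
        rintro _ ⟨x, -, rfl⟩
        rw [SetLike.mem_coe, ← hker]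
        exact x.2
      have h3 := isoKer_closed D j hΓN K hKc hKl hK _ h1 h2
      rw [← (hj2o.isQuotientMap hj2 hj2s).isClosed_preimage]
      have e : j2 ⁻¹' ((j2.comp D.V.ker.subtype) '' F) = (Subtype.val '' F : Set C)
          * (isoKer j : Set C) := by
        ext c
        rw [Set.mem_preimage, Set.mem_mul]
        constructor
        · rintro ⟨x, hx, hxc⟩
          have hxc' : j2 (x : C) = j2 c := hxc
          refine ⟨x, ⟨x, hx, rfl⟩, (x : C)⁻¹ * c, ?_, by group⟩
          refine (hj2k _).1 ?_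
          rw [map_mul, map_inv, hxc', inv_mul_cancel]
        · rintro ⟨_, ⟨x, hx, rfl⟩, t, ht, rfl⟩
          refine ⟨x, hx, ?_⟩
          rw [map_mul, (hj2k _).2 ht, mul_one]
          rfl
      rw [e]
      exact h3
  have h1 : KeyAll.{u, v, w} (G ⧸ T) := by
    refine keyAll_cover (I := Unit) (U := fun _ => EuclideanSpace ℝ (Fin m)) j2 hj2 hj2o hj2s D.V
      hNc (fun _ => W) K hKc hKl ?_ ?_ ?_ ?_ ?_ ?_
    · intro v hv
      rw [hKm]
      refine ⟨2, LinearMap.ext fun l => ?_⟩
      have h1 := hv () l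
      rw [pow_two, Module.End.mul_apply]
      change W.ρ v (W.ρ v l - l) - (W.ρ v l - l) = 0
      rw [h1, sub_self]
    · intro c hc
      exact hK _ ((hj2k _).1 hc)
    · rintro v hv m' hm' ⟨c, hc, hcv⟩
      obtain ⟨t, ht, htv⟩ := isoKer_pure D j ((hKu v).1 hv) hm' ((hj2k _).1 hc) hcv
      exact ⟨t, (hj2k _).2 ht, htv⟩
    · rw [hker]
      have : SecondCountableTopology D.N :=
        inferInstanceAs (SecondCountableTopology ((D.N : Set C) : Set C))
      exact nilpotent_keyAll D.R
    · rw [hker]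
      exact D.N.ne_bot_iff_exists_ne_one.2 (exists_ne 1)
    · intro _
      rw [hker]
      have : SecondCountableTopology D.N :=
        inferInstanceAs (SecondCountableTopology ((D.N : Set C) : Set C))
      exact kTower_top D.R
  exact keyAll_of_compact_normal T hTfin.isCompact h1

end

end Pool.Agent.AbCoc
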