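import Pool.Agent.Lib_MP_418a80_sol.SV5

/-!
# MP_418a80_an, T5, [SOLV] part 6: `KeyAll` for all noncompact quotients of simply connected solvable
groups by discrete normal subgroups (all noncompact connected solvable Lie groups)
-/

set_option autoImplicit false
set_option linter.unusedSectionVars false
set_option linter.unusedVariables false

open Topology Filter
open scoped commutatorElement RealInnerProductSpace Pointwise

namespace Pool.Agent.AbCoc

universe u v w z w'

/-- the induction on the dimension of the covering group -/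
theorem SCN.keyAll_cover (n : ℕ) : ∀ {C : Type w'} [Group C] [TopologicalSpace C]
    [IsTopologicalGroup C] (h : SCN n C) {G : Type w} [Group G] [TopologicalSpace G]
    [IsTopologicalGroup G] [T2Space G] [SecondCountableTopology G] [LocallyCompactSpace G]
    (hG : ¬ IsCompact (Set.univ : Set G)) (j : C →* G) (hj : Continuous j) (hjo : IsOpenMap j)
    (hjs : Function.Surjective j) (hjk : Countable j.ker), KeyAll.{u, v, w} G := by
  induction n with
  | zero =>
    intro C _ _ _ h G _ _ _ _ _ _ hG j hj hjo hjs hjk
    cases h with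
    | triv C =>
      refine absurd ?_ hG
      have : Subsingleton G := hjs.subsingleton
      exact Set.subsingleton_univ.isCompact
  | succ n ih =>
    intro C _ _ _ h G _ _ _ _ _ _ hG j hj hjo hjs hjk
    have := h.t2
    have := h.locallyCompact
    have := h.secondCountable
    have := h.connected
    have hcen : ∀ c, j c = 1 → ∀ c', c' * c = c * c' := fun c hc c' =>
      central_of_countable_ker j hj hc c'
    have hnt : Nontrivial C := by
      rw [← not_subsingleton_iff_nontrivial]
      intro h1
      have : Subsingleton G := hjs.subsingleton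
      exact hG Set.subsingleton_univ.isCompact
    obtain ⟨D⟩ := h.scSolv.exists_nilData
    by_cases hΓN : ∀ c, j c = 1 → c ∈ D.N → c = 1
    · exact keyAll_cover_nil D j hj hjo hjs hcen hΓN
    · push Not at hΓN
      obtain ⟨γ, hγj, hγN, hγ1⟩ := hΓN
      have hnorm := D.normal
      -- the central one-parameter group
      obtain ⟨ζ, hζd⟩ : ∃ ζ : ℝ → C, ∀ t, ζ t = (D.R.pw t ⟨γ, hγN⟩ : D.N) := ⟨_, fun _ => rfl⟩
      have hζ : Continuous ζ := by
        have e : ζ = fun t => ((D.R.pw t ⟨γ, hγN⟩ : D.N) : C) := funext hζd
        rw [e]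
        exact continuous_subtype_val.comp (D.R.cont_left _)
      have hζm : ∀ s t, ζ (s + t) = ζ s * ζ t := fun s t => by
        rw [hζd, hζd, hζd, D.R.add]
        rfl
      have hζ1' : ζ 1 = γ := by rw [hζd, D.R.one]
      have hζ1 : ζ 1 ≠ 1 := by rw [hζ1']; exact hγ1
      have hζc : ∀ t g, ζ t * g = g * ζ t := by
        intro t g
        have h1 : cjS D.N g ⟨γ, hγN⟩ = ⟨γ, hγN⟩ := by
          apply Subtype.ext
          rw [cjS_coe]
          change g * γ * g⁻¹ = γ
          rw [hcen γ hγj g, mul_inv_cancel_right]
        have h2 := D.R.map_hom D.R _ (continuous_cjS D.N g) t ⟨γ, hγN⟩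
        rw [h1] at h2
        have h3 := congrArg Subtype.val h2
        rw [cjS_coe, ← hζd, mul_inv_eq_iff_eq_mul] at h3
        exact h3.symm
      have hζ0 : ζ 0 = 1 := by
        have h := hζm 0 0
        rw [add_zero] at h
        exact left_eq_mul.1 h
      have hζi : ∀ t, ζ (-t) = (ζ t)⁻¹ := fun t => by
        rw [eq_inv_iff_mul_eq_one, ← hζm, neg_add_cancel, hζ0]
      -- its image
      obtain ⟨E, hE⟩ : ∃ E : Subgroup C, ∀ g, g ∈ E ↔ ∃ t, g = ζ t := by
        refine ⟨{ carrier := {g | ∃ t, g = ζ t}
                  mul_mem' := ?_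
                  one_mem' := ⟨0, hζ0.symm⟩
                  inv_mem' := ?_ }, fun g => Iff.rfl⟩
        · rintro _ _ ⟨s, rfl⟩ ⟨t, rfl⟩
          exact ⟨s + t, (hζm s t).symm⟩
        · rintro _ ⟨s, rfl⟩
          exact ⟨-s, (hζi s).symm⟩
      have hEn : E.Normal := by
        constructor
        intro e he g
        rw [hE] at he ⊢
        obtain ⟨t, rfl⟩ := he
        exact ⟨t, by rw [← hζc, mul_inv_cancel_right]⟩
      obtain ⟨m, hm, hm'⟩ := SCN.quot (n + 1) h ζ hζ hζm hζc hζ1 E hE
      have hmn : m = n := by omega
      subst hmn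
      -- the compact central subgroup
      obtain ⟨T, hT⟩ : ∃ T : Subgroup G, T = E.map j := ⟨_, rfl⟩
      have hTmem : ∀ g, g ∈ T ↔ ∃ t, g = j (ζ t) := by
        intro g
        rw [hT, Subgroup.mem_map]
        constructor
        · rintro ⟨x, hx, rfl⟩
          obtain ⟨t, rfl⟩ := (hE x).1 hx
          exact ⟨t, rfl⟩
        · rintro ⟨t, rfl⟩
          exact ⟨_, (hE _).2 ⟨t, rfl⟩, rfl⟩
      have hTn : T.Normal := by
        constructor
        intro x hx g
        rw [hTmem] at hx ⊢
        obtain ⟨t, rfl⟩ := hx
        obtain ⟨g, rfl⟩ := hjs g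
        exact ⟨t, by rw [← map_mul, ← map_inv, ← map_mul, ← hζc, mul_inv_cancel_right]⟩
      have hTcomp : IsCompact (T : Set G) := by
        have hjint : ∀ k : ℤ, j (ζ k) = 1 := by
          intro k
          have h1 : ∀ k : ℕ, ζ k = γ ^ k := by
            intro k
            induction k with
            | zero => rw [Nat.cast_zero, hζ0, pow_zero]
            | succ k ih => rw [Nat.cast_succ, hζm, ih, hζ1', pow_succ]
          have h2 : ∀ k : ℕ, j (ζ k) = 1 := fun k => by rw [h1, map_pow, hγj, one_pow]
          rcases Int.eq_nat_or_neg k with ⟨k', rfl | rfl⟩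
          · exact_mod_cast h2 k'
          · push_cast
            rw [hζi, map_inv, h2, inv_one]
        have e : (T : Set G) = j '' (ζ '' Set.Icc 0 1) := by
          ext g
          rw [SetLike.mem_coe, hTmem]
          constructor
          · rintro ⟨t, rfl⟩
            refine ⟨ζ (Int.fract t), ⟨_, ⟨Int.fract_nonneg t, (Int.fract_lt_one t).le⟩, rfl⟩, ?_⟩
            have h1 := hζm (Int.fract t) (⌊t⌋ : ℝ)
            rw [Int.fract_add_floor] at h1
            rw [h1, map_mul, hjint, mul_one]
          · rintro ⟨_, ⟨t, -, rfl⟩, rfl⟩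
            exact ⟨t, rfl⟩
        rw [e]
        exact (isCompact_Icc.image hζ).image hj
      have hTcl : IsClosed (T : Set G) := hTcomp.isClosed
      -- the covering of the quotient
      have hle : E ≤ T.comap j := by
        intro x hx
        rw [Subgroup.mem_comap, hT]
        exact Subgroup.mem_map_of_mem j hx
      let j2 : C ⧸ E →* G ⧸ T := QuotientGroup.map E T j hle
      have hj2 : ∀ c : C, j2 (c : C ⧸ E) = ((j c : G) : G ⧸ T) := fun c => rfl
      have hj2e : j2 ∘ ((↑) : C → C ⧸ E) = ((↑) : G → G ⧸ T) ∘ j := funext hj2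
      have hj2c : Continuous j2 := by
        refine (QuotientGroup.isQuotientMap_mk E).continuous_iff.2 ?_
        rw [hj2e]
        exact QuotientGroup.continuous_mk.comp hj
      have hj2o : IsOpenMap j2 := by
        refine IsOpenMap.of_comp (f := ((↑) : C → C ⧸ E)) QuotientGroup.continuous_mk
          QuotientGroup.mk_surjective ?_
        rw [hj2e]
        exact (QuotientGroup.isOpenMap_coe (N := T)).comp hjo
      have hj2s : Function.Surjective j2 := by
        intro y
        obtain ⟨g, rfl⟩ := QuotientGroup.mk_surjective y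
        obtain ⟨c, rfl⟩ := hjs g
        exact ⟨(c : C ⧸ E), hj2 c⟩
      have hj2k : Countable j2.ker := by
        have hf : ∀ x : j.ker, ((x : C) : C ⧸ E) ∈ j2.ker := by
          intro x
          rw [MonoidHom.mem_ker, hj2, MonoidHom.mem_ker.1 x.2]
          rfl
        refine Function.Surjective.countable (f := fun x : j.ker => (⟨_, hf x⟩ : j2.ker)) ?_
        rintro ⟨x, hx⟩
        obtain ⟨c, rfl⟩ := QuotientGroup.mk_surjective x
        have h1 : j c ∈ T := by
          rw [← QuotientGroup.eq_one_iff]
          exact hx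
        obtain ⟨t, ht⟩ := (hTmem _).1 h1
        refine ⟨⟨c * ζ (-t), ?_⟩, ?_⟩
        · rw [MonoidHom.mem_ker, map_mul, hζi, map_inv, ht, mul_inv_cancel]
        · apply Subtype.ext
          change ((c * ζ (-t) : C) : C ⧸ E) = (c : C ⧸ E)
          rw [QuotientGroup.eq, hE]
          refine ⟨t, ?_⟩
          rw [hζi, mul_inv_rev, inv_inv, inv_mul_cancel_right]
      have hG2 : ¬ IsCompact (Set.univ : Set (G ⧸ T)) := by
        intro h1
        have h2 := isCompact_preimage_mk hTcomp h1 isClosed_univ
        rw [Set.preimage_univ] at h2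
        exact hG h2
      exact keyAll_of_compact_normal T hTcomp (ih hm' hG2 j2 hj2c hj2o hj2s hj2k)

section
variable {C : Type w'} [Group C] [TopologicalSpace C] [IsTopologicalGroup C]
  {G : Type w} [Group G] [TopologicalSpace G] [IsTopologicalGroup G] [T2Space G]
  [SecondCountableTopology G] [LocallyCompactSpace G]

/-- **Noncompact connected solvable Lie groups**: `j : C → G` a continuous open surjection with
countable kernel from a simply connected solvable group `C`, and `G` not compact -/
theorem SCSolv.keyAll_cover (h : SCSolv C) (hG : ¬ IsCompact (Set.univ : Set G)) (j : C →* G)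
    (hj : Continuous j) (hjo : IsOpenMap j) (hjs : Function.Surjective j)
    (hjk : Countable j.ker) : KeyAll.{u, v, w} G := by
  obtain ⟨n, hn⟩ := h.exists_scn
  exact SCN.keyAll_cover n hn hG j hj hjo hjs hjk

/-- the same with a discrete kernel -/
theorem SCSolv.keyAll_cover_discrete (h : SCSolv C) (hG : ¬ IsCompact (Set.univ : Set G))
    (j : C →* G) (hj : Continuous j) (hjo : IsOpenMap j) (hjs : Function.Surjective j)
    (hjk : DiscreteTopology j.ker) : KeyAll.{u, v, w} G := by
  refine h.keyAll_cover hG j hj hjo hjs ?_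
  obtain ⟨n, hn⟩ := h.exists_scn
  have := hn.secondCountable
  have : SecondCountableTopology j.ker :=
    inferInstanceAs (SecondCountableTopology ((j.ker : Set C) : Set C))
  exact countable_of_Lindelof_of_discrete

end

end Pool.Agent.AbCoc
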