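import Pool.Agent.Lib_MP_418a80_sol.SV6

/-!
# MP_418a80_an, T5, [FIN] group side 1: connected solvable Lie groups modulo a compact normal
subgroup: the covering with isolated kernel which meets the nilradical trivially
-/

set_option autoImplicit false
set_option linter.unusedSectionVars false
set_option linter.unusedVariables false

open Topology Filter
open scoped commutatorElement RealInnerProductSpace Pointwise

namespace Pool.Agent.AbCoc

universe u v w z w'

/-- `Q = C / ker j`, where `C` has the nilradical `N`, `ker j` is central, isolated in the centre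
and meets `N` trivially -/
def RedSolv.{w1, w2} (Q : Type w1) [Group Q] [TopologicalSpace Q] : Prop :=
  ∃ (C : Type w2) (_ : Group C) (_ : TopologicalSpace C) (_ : IsTopologicalGroup C)
    (_ : T2Space C) (_ : SecondCountableTopology C) (_ : LocallyCompactSpace C) (D : NilData C)
    (j : C →* Q), Continuous j ∧ IsOpenMap j ∧ Function.Surjective j ∧
      (∀ c, j c = 1 → ∀ c', c' * c = c * c') ∧ (∀ c, j c = 1 → c ∈ D.N → c = 1) ∧
      ∀ c ∈ isoKer j, j c = 1

/-- transport of `RedSolv` -/
theorem RedSolv.congr {Q : Type w} [Group Q] [TopologicalSpace Q] {Q' : Type z} [Group Q']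
    [TopologicalSpace Q'] (h : RedSolv.{w, w'} Q) (e : Q →* Q') (he : Continuous e)
    (heo : IsOpenMap e) (heb : Function.Bijective e) : RedSolv.{z, w'} Q' := by
  obtain ⟨C, _, _, _, _, _, _, D, j, hj, hjo, hjs, h1, h2, h3⟩ := h
  have hker : ∀ c, e (j c) = 1 ↔ j c = 1 := fun c => by
    rw [← map_one e]
    exact heb.1.eq_iff
  refine ⟨C, _, _, inferInstance, inferInstance, inferInstance, inferInstance, D, e.comp j,
    he.comp hj, heo.comp hjo, heb.2.comp hjs, fun c hc => h1 c ((hker c).1 hc),
    fun c hc => h2 c ((hker c).1 hc), fun c hc => (hker c).2 (h3 c ?_)⟩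
  obtain ⟨hc1, m, hm, hcm⟩ := hc
  exact ⟨hc1, m, hm, (hker _).1 hcm⟩

/-- quotients of quotients -/
theorem exists_quotquot {Q : Type w} [Group Q] [TopologicalSpace Q] [IsTopologicalGroup Q]
    (T1 : Subgroup Q) [T1.Normal] (T2 : Subgroup (Q ⧸ T1)) [T2.Normal] (T : Subgroup Q)
    [T.Normal] (hT : ∀ g : Q, g ∈ T ↔ (g : Q ⧸ T1) ∈ T2) :
    ∃ e : (Q ⧸ T1) ⧸ T2 →* Q ⧸ T, Continuous e ∧ IsOpenMap e ∧ Function.Bijective e := by
  have hle : T1 ≤ T.comap (MonoidHom.id Q) := by
    intro g hg
    rw [Subgroup.mem_comap, MonoidHom.id_apply, hT, (QuotientGroup.eq_one_iff g).2 hg]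
    exact one_mem _
  let f : Q ⧸ T1 →* Q ⧸ T := QuotientGroup.map T1 T (MonoidHom.id Q) hle
  have hf : ∀ g : Q, f (g : Q ⧸ T1) = (g : Q ⧸ T) := fun g => rfl
  have hfc : Continuous f := by
    refine (QuotientGroup.isQuotientMap_mk T1).continuous_iff.2 ?_
    have e : f ∘ ((↑) : Q → Q ⧸ T1) = ((↑) : Q → Q ⧸ T) := funext hf
    rw [e]
    exact QuotientGroup.continuous_mk
  have hfo : IsOpenMap f := by
    refine IsOpenMap.of_comp (f := ((↑) : Q → Q ⧸ T1)) QuotientGroup.continuous_mk
      QuotientGroup.mk_surjective ?_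
    have e : f ∘ ((↑) : Q → Q ⧸ T1) = ((↑) : Q → Q ⧸ T) := funext hf
    rw [e]
    exact QuotientGroup.isOpenMap_coe
  have hfk : ∀ x, f x = 1 ↔ x ∈ T2 := by
    intro x
    obtain ⟨g, rfl⟩ := QuotientGroup.mk_surjective x
    rw [hf, QuotientGroup.eq_one_iff, hT]
  let e : (Q ⧸ T1) ⧸ T2 →* Q ⧸ T := QuotientGroup.lift T2 f fun x hx => (hfk x).2 hx
  have he : ∀ x : Q ⧸ T1, e (x : (Q ⧸ T1) ⧸ T2) = f x := fun x => rfl
  refine ⟨e, ?_, ?_, ?_, ?_⟩
  · refine (QuotientGroup.isQuotientMap_mk T2).continuous_iff.2 ?_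
    have e' : e ∘ ((↑) : Q ⧸ T1 → (Q ⧸ T1) ⧸ T2) = f := funext he
    rw [e']
    exact hfc
  · refine IsOpenMap.of_comp (f := ((↑) : Q ⧸ T1 → (Q ⧸ T1) ⧸ T2)) QuotientGroup.continuous_mk
      QuotientGroup.mk_surjective ?_
    have e' : e ∘ ((↑) : Q ⧸ T1 → (Q ⧸ T1) ⧸ T2) = f := funext he
    rw [e']
    exact hfo
  · rw [injective_iff_map_eq_one]
    intro y hy
    obtain ⟨x, rfl⟩ := QuotientGroup.mk_surjective y
    rw [QuotientGroup.eq_one_iff, ← hfk, ← he]
    exact hy
  · intro y
    obtain ⟨g, rfl⟩ := QuotientGroup.mk_surjective y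
    exact ⟨((g : Q ⧸ T1) : (Q ⧸ T1) ⧸ T2), rfl⟩

/-- the induction on the dimension of the covering group -/
theorem SCN.exists_red (n : ℕ) : ∀ {C : Type w'} [Group C] [TopologicalSpace C]
    [IsTopologicalGroup C] (h : SCN n C) {G : Type w} [Group G] [TopologicalSpace G]
    [IsTopologicalGroup G] [T2Space G] [SecondCountableTopology G] [LocallyCompactSpace G]
    (j : C →* G) (hj : Continuous j) (hjo : IsOpenMap j)
    (hjs : Function.Surjective j) (hjk : Countable j.ker),
    ∃ (T : Subgroup G) (_ : T.Normal), IsCompact (T : Set G) ∧ RedSolv.{w, w'} (G ⧸ T) := by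
  induction n with
  | zero =>
    intro C _ _ _ h G _ _ _ _ _ _ j hj hjo hjs hjk
    cases h with
    | triv C =>
      have : Finite C := inferInstance
      obtain ⟨D⟩ := nilData_triv (S := C)
      have hsub : Subsingleton (G ⧸ (⊥ : Subgroup G)) :=
        ((QuotientGroup.mk'_surjective (⊥ : Subgroup G)).comp hjs).subsingleton
      refine ⟨⊥, inferInstance, ?_, C, _, _, inferInstance, inferInstance, inferInstance,
        inferInstance, D, (QuotientGroup.mk' ⊥).comp j, QuotientGroup.continuous_mk.comp hj,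
        (QuotientGroup.isOpenMap_coe (N := ⊥)).comp hjo,
        (QuotientGroup.mk'_surjective _).comp hjs, fun c _ c' => Subsingleton.elim _ _,
        fun c _ _ => Subsingleton.elim _ _, fun c _ => Subsingleton.elim _ _⟩
      rw [Subgroup.coe_bot]
      exact isCompact_singleton
  | succ n ih =>
    intro C _ _ _ h G _ _ _ _ _ _ j hj hjo hjs hjk
    have := h.t2
    have := h.locallyCompact
    have := h.secondCountable
    have := h.connected
    have hcen : ∀ c, j c = 1 → ∀ c', c' * c = c * c' := fun c hc c' =>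
      central_of_countable_ker j hj hc c'
    obtain ⟨D⟩ := h.scSolv.exists_nilData
    by_cases hΓN : ∀ c, j c = 1 → c ∈ D.N → c = 1
    · -- the isolator
      obtain ⟨m, W, K, hKc, hKm, hKu, hKl⟩ := D.exists_weight_unip
      have hK : ∀ t ∈ isoKer j, D.V.p t ∈ K := fun t ht => (hKu _).2 (isoKer_unip D j ht)
      have hle : ∀ c, j c = 1 → c ∈ isoKer j := fun c hc =>
        ⟨fun c' => (hcen c hc c').symm, 1, one_pos, by rw [pow_one, hc]⟩
      obtain ⟨T, hT⟩ : ∃ T : Subgroup G, T = (isoKer j).map j := ⟨_, rfl⟩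
      have hTfin : (T : Set G).Finite := by
        rw [hT]
        exact isoKer_finite D j hΓN K hKc hKl hK
      have hTn : T.Normal := by
        constructor
        intro n hn g
        rw [hT, Subgroup.mem_map] at hn ⊢
        obtain ⟨t, ht, rfl⟩ := hn
        obtain ⟨g, rfl⟩ := hjs g
        refine ⟨t, ht, ?_⟩
        rw [← map_mul, ← map_inv, ← map_mul, ← ht.1, mul_inv_cancel_right]
      have hj2k : ∀ c, ((j c : G) : G ⧸ T) = 1 ↔ c ∈ isoKer j := by
        intro c
        rw [QuotientGroup.eq_one_iff, hT, Subgroup.mem_map]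
        constructor
        · rintro ⟨t, ht, htc⟩
          have h1 : j (c * t⁻¹) = 1 := by rw [map_mul, map_inv, htc, mul_inv_cancel]
          have h2 := mul_mem (hle _ h1) ht
          rwa [inv_mul_cancel_right] at h2
        · intro h
          exact ⟨c, h, rfl⟩
      refine ⟨T, hTn, hTfin.isCompact, C, _, _, inferInstance, inferInstance, inferInstance,
        inferInstance, D, (QuotientGroup.mk' T).comp j, QuotientGroup.continuous_mk.comp hj,
        (QuotientGroup.isOpenMap_coe (N := T)).comp hjo,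
        (QuotientGroup.mk'_surjective _).comp hjs, fun c hc c' => ?_, fun c hc hcN => ?_,
        fun c hc => (hj2k c).2 ?_⟩
      · exact (((hj2k c).1 hc).1 c').symm
      · exact isoKer_nil D j hΓN ((hj2k c).1 hc) hcN
      · obtain ⟨hc1, m, hm, hcm⟩ := hc
        obtain ⟨-, m', hm', hcm'⟩ := (hj2k (c ^ m)).1 hcm
        refine ⟨hc1, m * m', Nat.mul_pos hm hm', ?_⟩
        rw [pow_mul]
        exact hcm'
    · push Not at hΓN
      obtain ⟨γ, hγj, hγN, hγ1⟩ := hΓN
      have hnorm := D.normal
      -- the central one-parameter group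
      obtain ⟨ζ, hζd⟩ : ∃ ζ : ℝ → C, ∀ t, ζ t = (D.R.pw t ⟨γ, hγN⟩ : D.N) := ⟨_, fun _ => rfl⟩
      have hζ : Continuous ζ := by
        have e : ζ = fun t => ((D.R.pw t ⟨γ, hγN⟩ : D.N) : C) := funext hζd
        rw [e]
        exact continuous_subtype_val.comp (D.R.cont_left _)
      have hζm : ∀ s t, ζ (s + t) = ζ s * ζ t := fun s t => by
        rw [hζd, hζd, hζd, D.R.add]
        rfl
      have hζ1' : ζ 1 = γ := by rw [hζd, D.R.one]
      have hζ1 : ζ 1 ≠ 1 := by rw [hζ1']; exact hγ1
      have hζc : ∀ t g, ζ t * g = g * ζ t := by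
        intro t g
        have h1 : cjS D.N g ⟨γ, hγN⟩ = ⟨γ, hγN⟩ := by
          apply Subtype.ext
          rw [cjS_coe]
          change g * γ * g⁻¹ = γ
          rw [hcen γ hγj g, mul_inv_cancel_right]
        have h2 := D.R.map_hom D.R _ (continuous_cjS D.N g) t ⟨γ, hγN⟩
        rw [h1] at h2
        have h3 := congrArg Subtype.val h2
        rw [cjS_coe, ← hζd, mul_inv_eq_iff_eq_mul] at h3
        exact h3.symm
      have hζ0 : ζ 0 = 1 := by
        have h := hζm 0 0
        rw [add_zero] at h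
        exact left_eq_mul.1 h
      have hζi : ∀ t, ζ (-t) = (ζ t)⁻¹ := fun t => by
        rw [eq_inv_iff_mul_eq_one, ← hζm, neg_add_cancel, hζ0]
      -- its image
      obtain ⟨E, hE⟩ : ∃ E : Subgroup C, ∀ g, g ∈ E ↔ ∃ t, g = ζ t := by
        refine ⟨{ carrier := {g | ∃ t, g = ζ t}
                  mul_mem' := ?_
                  one_mem' := ⟨0, hζ0.symm⟩
                  inv_mem' := ?_ }, fun g => Iff.rfl⟩
        · rintro _ _ ⟨s, rfl⟩ ⟨t, rfl⟩
          exact ⟨s + t, (hζm s t).symm⟩
        · rintro _ ⟨s, rfl⟩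
          exact ⟨-s, (hζi s).symm⟩
      have hEn : E.Normal := by
        constructor
        intro e he g
        rw [hE] at he ⊢
        obtain ⟨t, rfl⟩ := he
        exact ⟨t, by rw [← hζc, mul_inv_cancel_right]⟩
      obtain ⟨m, hm, hm'⟩ := SCN.quot (n + 1) h ζ hζ hζm hζc hζ1 E hE
      have hmn : m = n := by omega
      subst hmn
      -- the compact central subgroup
      obtain ⟨T, hT⟩ : ∃ T : Subgroup G, T = E.map j := ⟨_, rfl⟩
      have hTmem : ∀ g, g ∈ T ↔ ∃ t, g = j (ζ t) := by
        intro g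
        rw [hT, Subgroup.mem_map]
        constructor
        · rintro ⟨x, hx, rfl⟩
          obtain ⟨t, rfl⟩ := (hE x).1 hx
          exact ⟨t, rfl⟩
        · rintro ⟨t, rfl⟩
          exact ⟨_, (hE _).2 ⟨t, rfl⟩, rfl⟩
      have hTn : T.Normal := by
        constructor
        intro x hx g
        rw [hTmem] at hx ⊢
        obtain ⟨t, rfl⟩ := hx
        obtain ⟨g, rfl⟩ := hjs g
        exact ⟨t, by rw [← map_mul, ← map_inv, ← map_mul, ← hζc, mul_inv_cancel_right]⟩
      have hTcomp : IsCompact (T : Set G) := by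
        have hjint : ∀ k : ℤ, j (ζ k) = 1 := by
          intro k
          have h1 : ∀ k : ℕ, ζ k = γ ^ k := by
            intro k
            induction k with
            | zero => rw [Nat.cast_zero, hζ0, pow_zero]
            | succ k ih => rw [Nat.cast_succ, hζm, ih, hζ1', pow_succ]
          have h2 : ∀ k : ℕ, j (ζ k) = 1 := fun k => by rw [h1, map_pow, hγj, one_pow]
          rcases Int.eq_nat_or_neg k with ⟨k', rfl | rfl⟩
          · exact_mod_cast h2 k'
          · push_cast
            rw [hζi, map_inv, h2, inv_one]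
        have e : (T : Set G) = j '' (ζ '' Set.Icc 0 1) := by
          ext g
          rw [SetLike.mem_coe, hTmem]
          constructor
          · rintro ⟨t, rfl⟩
            refine ⟨ζ (Int.fract t), ⟨_, ⟨Int.fract_nonneg t, (Int.fract_lt_one t).le⟩, rfl⟩, ?_⟩
            have h1 := hζm (Int.fract t) (⌊t⌋ : ℝ)
            rw [Int.fract_add_floor] at h1
            rw [h1, map_mul, hjint, mul_one]
          · rintro ⟨_, ⟨t, -, rfl⟩, rfl⟩
            exact ⟨t, rfl⟩
        rw [e]
        exact (isCompact_Icc.image hζ).image hj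
      have hTcl : IsClosed (T : Set G) := hTcomp.isClosed
      -- the covering of the quotient
      have hle : E ≤ T.comap j := by
        intro x hx
        rw [Subgroup.mem_comap, hT]
        exact Subgroup.mem_map_of_mem j hx
      let j2 : C ⧸ E →* G ⧸ T := QuotientGroup.map E T j hle
      have hj2 : ∀ c : C, j2 (c : C ⧸ E) = ((j c : G) : G ⧸ T) := fun c => rfl
      have hj2e : j2 ∘ ((↑) : C → C ⧸ E) = ((↑) : G → G ⧸ T) ∘ j := funext hj2
      have hj2c : Continuous j2 := by
        refine (QuotientGroup.isQuotientMap_mk E).continuous_iff.2 ?_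
        rw [hj2e]
        exact QuotientGroup.continuous_mk.comp hj
      have hj2o : IsOpenMap j2 := by
        refine IsOpenMap.of_comp (f := ((↑) : C → C ⧸ E)) QuotientGroup.continuous_mk
          QuotientGroup.mk_surjective ?_
        rw [hj2e]
        exact (QuotientGroup.isOpenMap_coe (N := T)).comp hjo
      have hj2s : Function.Surjective j2 := by
        intro y
        obtain ⟨g, rfl⟩ := QuotientGroup.mk_surjective y
        obtain ⟨c, rfl⟩ := hjs g
        exact ⟨(c : C ⧸ E), hj2 c⟩
      have hj2k : Countable j2.ker := by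
        have hf : ∀ x : j.ker, ((x : C) : C ⧸ E) ∈ j2.ker := by
          intro x
          rw [MonoidHom.mem_ker, hj2, MonoidHom.mem_ker.1 x.2]
          rfl
        refine Function.Surjective.countable (f := fun x : j.ker => (⟨_, hf x⟩ : j2.ker)) ?_
        rintro ⟨x, hx⟩
        obtain ⟨c, rfl⟩ := QuotientGroup.mk_surjective x
        have h1 : j c ∈ T := by
          rw [← QuotientGroup.eq_one_iff]
          exact hx
        obtain ⟨t, ht⟩ := (hTmem _).1 h1
        refine ⟨⟨c * ζ (-t), ?_⟩, ?_⟩
        · rw [MonoidHom.mem_ker, map_mul, hζi, map_inv, ht, mul_inv_cancel]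
        · apply Subtype.ext
          change ((c * ζ (-t) : C) : C ⧸ E) = (c : C ⧸ E)
          rw [QuotientGroup.eq, hE]
          refine ⟨t, ?_⟩
          rw [hζi, mul_inv_rev, inv_inv, inv_mul_cancel_right]
      obtain ⟨T2, hT2n, hT2c, hT2⟩ := ih hm' j2 hj2c hj2o hj2s hj2k
      obtain ⟨T', hT'⟩ : ∃ T' : Subgroup G, T' = T2.comap (QuotientGroup.mk' T) := ⟨_, rfl⟩
      have hT'n : T'.Normal := by
        rw [hT']
        infer_instance
      have hT'm : ∀ g : G, g ∈ T' ↔ (g : G ⧸ T) ∈ T2 := fun g => by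
        rw [hT']
        exact Iff.rfl
      obtain ⟨e, he, heo, heb⟩ := exists_quotquot T T2 T' hT'm
      refine ⟨T', hT'n, ?_, hT2.congr e he heo heb⟩
      have h2 := isCompact_preimage_mk hTcomp hT2c hT2c.isClosed
      have e' : (T' : Set G) = (QuotientGroup.mk : G → G ⧸ T) ⁻¹' (T2 : Set (G ⧸ T)) := by
        ext g
        exact hT'm g
      rw [e']
      exact h2

/-- **reduction of connected solvable Lie groups** modulo a compact normal subgroup -/
theorem SCSolv.exists_red {C : Type w'} [Group C] [TopologicalSpace C] [IsTopologicalGroup C]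
    (h : SCSolv C) {G : Type w} [Group G] [TopologicalSpace G]
    [IsTopologicalGroup G] [T2Space G] [SecondCountableTopology G] [LocallyCompactSpace G]
    (j : C →* G) (hj : Continuous j) (hjo : IsOpenMap j)
    (hjs : Function.Surjective j) (hjk : Countable j.ker) :
    ∃ (T : Subgroup G) (_ : T.Normal), IsCompact (T : Set G) ∧ RedSolv.{w, w'} (G ⧸ T) := by
  obtain ⟨n, hn⟩ := h.exists_scn
  exact SCN.exists_red n hn j hj hjo hjs hjk

end Pool.Agent.AbCoc
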