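import Pool.Agent.Lib_MP_418a80_sol.SV7
import Pool.Agent.Lib_MP_418a80_tl.TDefs

/-!
# MP_418a80_an, T5, [FIN] group side 2: layers of coverings: `Q ⊇ Q1 ⊇ N'`, `Q / Q1` a vector group,
`Q1 / N'` a torus
-/

set_option autoImplicit false
set_option linter.unusedSectionVars false
set_option linter.unusedVariables false

open Topology Filter
open scoped commutatorElement RealInnerProductSpace Pointwise

namespace Pool.Agent.AbCoc

universe u v w z w' z' z''

section lattice
variable {V : Type z} [NormedAddCommGroup V] [InnerProductSpace ℝ V] [FiniteDimensional ℝ V]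

/-- bases of discrete subgroups -/
theorem exists_lattice_basis (Λ : AddSubgroup V)
    (hd : DiscreteTopology (AddSubgroup.toIntSubmodule Λ)) :
    ∃ (b : ℕ) (B : Module.Basis (Fin b) ℝ (Submodule.span ℝ (Λ : Set V))),
      ∀ w : Submodule.span ℝ (Λ : Set V), (w : V) ∈ Λ ↔ ∀ i, ∃ n : ℤ, B.repr w i = n := by
  classical
  let L : Submodule ℤ V := AddSubgroup.toIntSubmodule Λ
  let F : Submodule ℝ V := Submodule.span ℝ (Λ : Set V)
  let L₁ : Submodule ℤ F := ZLattice.comap ℝ L F.subtype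
  have : DiscreteTopology L₁ :=
    ZLattice.comap_discreteTopology ℝ L F.subtypeL.continuous Subtype.val_injective
  have hz : IsZLattice ℝ L₁ := ⟨Submodule.span_span_coe_preimage⟩
  have : Module.Free ℤ L₁ := ZLattice.module_free ℝ L₁
  have : Module.Finite ℤ L₁ := ZLattice.module_finite ℝ L₁
  let b := Module.Free.chooseBasis ℤ L₁
  let B := b.ofZLatticeBasis ℝ L₁
  let e := Fintype.equivFin (Module.Free.ChooseBasisIndex ℤ L₁)
  refine ⟨_, B.reindex e, fun w => ?_⟩
  have h1 : (w : V) ∈ Λ ↔ w ∈ L₁ := Iff.rfl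
  have h2 : w ∈ L₁ ↔ w ∈ Submodule.span ℤ (Set.range B) := by
    rw [b.ofZLatticeBasis_span ℝ]
  rw [h1, h2, B.mem_span_iff_repr_mem ℤ]
  constructor
  · intro h i
    obtain ⟨n, hn⟩ := h (e.symm i)
    refine ⟨n, ?_⟩
    rw [B.repr_reindex_apply, ← hn]
    rfl
  · intro h i
    obtain ⟨n, hn⟩ := h (e i)
    refine ⟨n, ?_⟩
    rw [B.repr_reindex_apply, e.symm_apply_apply] at hn
    rw [hn]
    rfl

/-- coordinates of discrete subgroups -/
theorem exists_lattice_coords (Λ : AddSubgroup V)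
    (hd : DiscreteTopology (AddSubgroup.toIntSubmodule Λ)) :
    ∃ (E : Submodule ℝ V) (b : ℕ) (x : V →L[ℝ] EuclideanSpace ℝ (Fin b)), (∀ v ∈ Λ, v ∈ E) ∧
      (∀ v ∈ E, (v ∈ Λ ↔ ∀ i, ∃ n : ℤ, x v i = n)) ∧ ∀ y, ∃ v ∈ E, x v = y := by
  obtain ⟨b, B, hB⟩ := exists_lattice_basis Λ hd
  obtain ⟨f, hf, hfs⟩ : ∃ f : Submodule.span ℝ (Λ : Set V) →ₗ[ℝ] EuclideanSpace ℝ (Fin b),
      (∀ w i, f w i = B.repr w i) ∧ Function.Surjective f := by
    refine ⟨{ toFun := fun w => WithLp.toLp 2 fun i => B.repr w i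
              map_add' := fun x y => by
                ext i
                simp
              map_smul' := fun t x => by
                ext i
                simp }, fun w i => rfl, fun y => ?_⟩
    refine ⟨B.equivFun.symm fun i => y i, ?_⟩
    ext i
    change B.repr (B.equivFun.symm fun i => y i) i = y i
    have h1 := congrFun (B.equivFun.apply_symm_apply fun i => y i) i
    exact h1
  refine ⟨Submodule.span ℝ (Λ : Set V), b, (LinearMap.toContinuousLinearMap f).comp
    (Submodule.span ℝ (Λ : Set V)).orthogonalProjectionOnto, fun v hv => Submodule.subset_span hv,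
    fun v hv => ?_, fun y => ?_⟩
  · have h1 : (Submodule.span ℝ (Λ : Set V)).orthogonalProjectionOnto v = ⟨v, hv⟩ :=
      Submodule.orthogonalProjectionOnto_mem_subspace_eq_self ⟨v, hv⟩
    rw [ContinuousLinearMap.comp_apply, h1]
    change v ∈ Λ ↔ ∀ i, ∃ n : ℤ, f ⟨v, hv⟩ i = n
    simp only [hf]
    exact hB ⟨v, hv⟩
  · obtain ⟨w, rfl⟩ := hfs y
    refine ⟨w, w.2, ?_⟩
    rw [ContinuousLinearMap.comp_apply, Submodule.orthogonalProjectionOnto_mem_subspace_eq_self]
    rfl

theorem inner_zv {b : ℕ} (q : Fin b → ℤ) (y : EuclideanSpace ℝ (Fin b)) :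
    ⟪zv q, y⟫ = ∑ i, (q i : ℝ) * y i := by
  unfold zv
  rw [sum_inner]
  refine Finset.sum_congr rfl fun i _ => ?_
  rw [real_inner_smul_left, EuclideanSpace.basisFun_apply, EuclideanSpace.inner_single_left]
  simp

theorem ch_zv_of_int {b : ℕ} (q : Fin b → ℤ) (y : EuclideanSpace ℝ (Fin b))
    (hy : ∀ i, ∃ n : ℤ, y i = n) : ch ⟪zv q, (2 * Real.pi) • y⟫ = 1 := by
  choose n hn using hy
  rw [ch_eq_one_iff, real_inner_smul_right, inner_zv]
  refine ⟨∑ i, q i * n i, ?_⟩
  push_cast
  rw [mul_comm]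
  congr 1
  exact Finset.sum_congr rfl fun i _ => by rw [hn]

theorem int_of_ch_zv {b : ℕ} (y : EuclideanSpace ℝ (Fin b))
    (h : ∀ q : Fin b → ℤ, ch ⟪zv q, (2 * Real.pi) • y⟫ = 1) (i : Fin b) : ∃ n : ℤ, y i = n := by
  classical
  have h1 := h (Pi.single i 1)
  rw [real_inner_smul_right, inner_zv, Finset.sum_eq_single i] at h1
  · rw [Pi.single_eq_same, Int.cast_one, one_mul] at h1
    obtain ⟨n, hn⟩ := (ch_eq_one_iff _).1 h1
    refine ⟨n, ?_⟩
    have hpi : (2 * Real.pi) ≠ 0 := by positivity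
    rw [mul_comm] at hn
    exact mul_right_cancel₀ hpi hn
  · intro k _ hk
    rw [Pi.single_eq_of_ne hk, Int.cast_zero, zero_mul]
  · intro hk
    exact absurd (Finset.mem_univ i) hk

/-- subgroups of closed subgroups without lines are discrete -/
theorem discrete_of_le_noLine (K Λ : AddSubgroup V) (hK : IsClosed (K : Set V))
    (hl : ∀ v : V, (∀ t : ℝ, t • v ∈ K) → v = 0) (hΛ : Λ ≤ K) :
    DiscreteTopology (AddSubgroup.toIntSubmodule Λ) := by
  have h1 : DiscreteTopology ((K : Set V) : Set V) := discrete_of_noLine K hK hl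
  exact DiscreteTopology.of_subset (s := (K : Set V)) (t := (Λ : Set V)) h1 hΛ

end lattice

section map
variable {G : Type w} [Group G] [TopologicalSpace G] [IsTopologicalGroup G] [T2Space G]
  [SecondCountableTopology G] [LocallyCompactSpace G]
variable {H : Type w'} [Group H] [TopologicalSpace H] [IsTopologicalGroup H] [T2Space H]
  [SecondCountableTopology H] [LocallyCompactSpace H]

/-- `KeyAll` of the image of a closed subgroup under a closed embedding, two universes -/
theorem KeyAll.map_closed' (j : H →* G) (hj : IsClosedEmbedding j) (N : Subgroup H)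
    (hN : IsClosed (N : Set H)) (hK : KeyAll.{u, v, w'} N) : KeyAll.{u, v, w} (N.map j) := by
  have hcl : IsClosed ((N.map j : Subgroup G) : Set G) := by
    rw [Subgroup.coe_map]
    exact hj.isClosedMap _ hN
  have : LocallyCompactSpace N := hN.isClosedEmbedding_subtypeVal.locallyCompactSpace
  have : SecondCountableTopology N :=
    inferInstanceAs (SecondCountableTopology ((N : Set H) : Set H))
  have : LocallyCompactSpace (N.map j) := hcl.isClosedEmbedding_subtypeVal.locallyCompactSpace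
  have : SecondCountableTopology (N.map j) :=
    inferInstanceAs (SecondCountableTopology ((N.map j : Set G) : Set G))
  obtain ⟨i, hi⟩ : ∃ i : N →* (N.map j : Subgroup G), ∀ n, (i n : G) = j (n : H) :=
    ⟨{ toFun := fun n => ⟨j n, Subgroup.mem_map_of_mem j n.2⟩
       map_one' := Subtype.ext (map_one j)
       map_mul' := fun a b => Subtype.ext (map_mul j _ _) }, fun n => rfl⟩
  refine KeyAll.congr i ?_ ?_ hK
  · have h1 : IsClosedEmbedding (fun n : N => j (n : H)) :=
      hj.comp hN.isClosedEmbedding_subtypeVal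
    have h2 : (fun n : N => j (n : H)) = Subtype.val ∘ i := funext fun n => (hi n).symm
    rw [h2] at h1
    exact IsClosedEmbedding.of_comp hcl.isClosedEmbedding_subtypeVal.isEmbedding h1
  · rintro ⟨g, hg⟩
    obtain ⟨x, hx, rfl⟩ := Subgroup.mem_map.1 hg
    exact ⟨⟨x, hx⟩, Subtype.ext (hi _)⟩

/-- images of towers under closed embeddings, two universes -/
theorem KTower.map' (j : H →* G) (hj : IsClosedEmbedding j) {N : Subgroup H}
    (h : KTower.{u, v, w'} N) : KTower.{u, v, w} (N.map j) := by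
  classical
  induction h with
  | bot =>
    rw [Subgroup.map_bot]
    exact KTower.bot
  | step N N' m p hm hN hp hK _ ih =>
    have hinv : ∀ x, Function.invFun j (j x) = x := Function.leftInverse_invFun hj.injective
    refine KTower.step (N.map j) (N'.map j) m (p ∘ Function.invFun j) hm ?_
      ⟨?_, ?_, ?_, ?_, Subgroup.map_mono hp.le⟩ (hK.map_closed' j hj N hN) ih
    · rw [Subgroup.coe_map]
      exact hj.isClosedMap _ hN
    · rw [Subgroup.coe_map, hj.isInducing.continuousOn_image_iff]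
      refine hp.cont.congr fun x hx => ?_
      simp only [Function.comp_apply, hinv]
    · intro s hs t ht
      obtain ⟨x, hx, rfl⟩ := Subgroup.mem_map.1 hs
      obtain ⟨y, hy, rfl⟩ := Subgroup.mem_map.1 ht
      simp only [Function.comp_apply]
      rw [← map_mul, hinv, hinv, hinv]
      exact hp.mul x hx y hy
    · intro q
      obtain ⟨x, hx, hq⟩ := hp.surj q
      refine ⟨j x, Subgroup.mem_map_of_mem j hx, ?_⟩
      simp only [Function.comp_apply, hinv]
      exact hq
    · intro s hs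
      obtain ⟨x, hx, rfl⟩ := Subgroup.mem_map.1 hs
      simp only [Function.comp_apply, hinv]
      rw [hp.ker x hx]
      constructor
      · exact fun h => Subgroup.mem_map_of_mem j h
      · intro h
        obtain ⟨y, hy, hyx⟩ := Subgroup.mem_map.1 h
        rwa [← hj.injective hyx]

end map

section layers
variable {Q : Type w} [Group Q] [TopologicalSpace Q] [IsTopologicalGroup Q] [T2Space Q]
  [SecondCountableTopology Q] [LocallyCompactSpace Q]
  {C : Type w'} [Group C] [TopologicalSpace C] [IsTopologicalGroup C] [T2Space C]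
  [SecondCountableTopology C] [LocallyCompactSpace C]
  {V : Type z} [NormedAddCommGroup V] [InnerProductSpace ℝ V] [FiniteDimensional ℝ V]

/-- **the layers of a covering** -/
theorem exists_layers {I : Type z''} {U : I → Type z'} [∀ i, NormedAddCommGroup (U i)]
    [∀ i, NormedSpace ℝ (U i)] [∀ i, FiniteDimensional ℝ (U i)] (j : C →* Q) (hj : Continuous j)
    (hjo : IsOpenMap j) (hjs : Function.Surjective j) (R : VSec C V)
    (hjN : IsClosedEmbedding (j.comp R.ker.subtype)) (W : ∀ i, WtV R (U i))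
    (K : AddSubgroup V) (hKc : IsClosed (K : Set V)) (hKl : ∀ v : V, (∀ t : ℝ, t • v ∈ K) → v = 0)
    (hK : ∀ v, (∀ i l, (W i).ρ v ((W i).ρ v l - l) = (W i).ρ v l - l) → v ∈ K)
    (hΓ : ∀ c, j c = 1 → R.p c ∈ K)
    (hpure : ∀ v ∈ K, ∀ m : ℕ, 0 < m → (∃ c, j c = 1 ∧ R.p c = m • v) →
      ∃ c, j c = 1 ∧ R.p c = v)
    (hH : KeyAll.{u, v, w'} R.ker) (hne : R.ker ≠ ⊥)
    (ht : KTower.{u, v, w'} (⊤ : Subgroup R.ker)) :
    ∃ (Q1 N' : Subgroup Q) (m b : ℕ) (p : Q → EuclideanSpace ℝ (Fin m))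
      (p' : Q → EuclideanSpace ℝ (Fin b)), IsClosed (Q1 : Set Q) ∧ IsClosed (N' : Set Q) ∧
      IsLayer (⊤ : Subgroup Q) Q1 p ∧ IsTLayer Q1 N' p' ∧ KeyAll.{u, v, w} Q ∧
      KeyAll.{u, v, w} Q1 ∧ KeyAll.{u, v, w} N' ∧ N' ≠ ⊥ ∧ KTower.{u, v, w} N' := by
  classical
  -- the subgroup `p (ker j)` and its span
  obtain ⟨Λ, hΛ⟩ : ∃ Λ : AddSubgroup V, ∀ v, v ∈ Λ ↔ ∃ c, j c = 1 ∧ R.p c = v := by
    refine ⟨{ carrier := {v | ∃ c, j c = 1 ∧ R.p c = v}
              add_mem' := ?_
              zero_mem' := ⟨1, map_one j, R.p_one⟩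
              neg_mem' := ?_ }, fun _ => Iff.rfl⟩
    · rintro a b ⟨c, hc, rfl⟩ ⟨d, hd, rfl⟩
      exact ⟨c * d, by rw [map_mul, hc, hd, mul_one], R.pmul c d⟩
    · rintro a ⟨c, hc, rfl⟩
      exact ⟨c⁻¹, by rw [map_inv, hc, inv_one], R.p_inv c⟩
  have hΛK : Λ ≤ K := by
    intro v hv
    obtain ⟨c, hc, rfl⟩ := (hΛ v).1 hv
    exact hΓ c hc
  have hd := discrete_of_le_noLine K Λ hKc hKl hΛK
  obtain ⟨E, b, x, hΛE, hx, hxs⟩ := exists_lattice_coords Λ hd
  -- two lifts of the same element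
  have hlift : ∀ c d, j c = j d → R.p c - R.p d ∈ Λ := by
    intro c d hcd
    refine (hΛ _).2 ⟨c * d⁻¹, by rw [map_mul, map_inv, hcd, mul_inv_cancel], ?_⟩
    rw [R.pmul, R.p_inv, sub_eq_add_neg]
  obtain ⟨σ, hσ⟩ := hjs.hasRightInverse
  have hσ' : ∀ c, R.p (σ (j c)) - R.p c ∈ Λ := fun c => hlift _ _ (hσ (j c))
  have hquot := hjo.isQuotientMap hj hjs
  -- the group `Q1`
  obtain ⟨Q1, hQ1⟩ : ∃ Q1 : Subgroup Q, Q1 = (R.pre E).map j := ⟨_, rfl⟩
  have hQ1m : ∀ c, j c ∈ Q1 ↔ R.p c ∈ E := by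
    intro c
    rw [hQ1, Subgroup.mem_map]
    constructor
    · rintro ⟨x, hx, hxc⟩
      have h1 := hΛE _ (hlift c x hxc.symm)
      have h2 := E.add_mem h1 ((R.mem_pre E x).1 hx)
      rwa [sub_add_cancel] at h2
    · intro hc
      exact ⟨c, hc, rfl⟩
  have hQ1c : IsClosed (Q1 : Set Q) := by
    rw [← hquot.isClosed_preimage]
    have e : j ⁻¹' (Q1 : Set Q) = (R.pre E : Set C) := by
      ext c
      exact hQ1m c
    rw [e]
    exact R.isClosed_pre E
  -- the vector layer
  obtain ⟨m, F, hFs, hFk⟩ : ∃ (m : ℕ) (F : V →L[ℝ] EuclideanSpace ℝ (Fin m)),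
      Function.Surjective F ∧ ∀ v, F v = 0 ↔ v ∈ E := by
    let e : Eᗮ ≃L[ℝ] EuclideanSpace ℝ (Fin (Module.finrank ℝ Eᗮ)) := toEuclidean
    refine ⟨_, (e : Eᗮ →L[ℝ] EuclideanSpace ℝ (Fin (Module.finrank ℝ Eᗮ))).comp
      (Eᗮ).orthogonalProjectionOnto, ?_, fun v => ?_⟩
    · intro y
      refine ⟨(e.symm y : Eᗮ), ?_⟩
      rw [ContinuousLinearMap.comp_apply, Submodule.orthogonalProjectionOnto_mem_subspace_eq_self]
      exact e.apply_symm_apply y
    · rw [ContinuousLinearMap.comp_apply]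
      change e _ = 0 ↔ _
      rw [map_eq_zero_iff e e.injective, Submodule.orthogonalProjectionOnto_eq_zero_iff,
        Submodule.orthogonal_orthogonal]
  obtain ⟨p, hp⟩ : ∃ p : Q → EuclideanSpace ℝ (Fin m), p = fun q => F (R.p (σ q)) := ⟨_, rfl⟩
  have hpj : ∀ c, p (j c) = F (R.p c) := by
    intro c
    rw [hp]
    change F (R.p (σ (j c))) = _
    rw [← sub_eq_zero, ← map_sub, hFk]
    exact hΛE _ (hσ' c)
  have hlay : IsLayer (⊤ : Subgroup Q) Q1 p := by
    refine ⟨?_, ?_, ?_, ?_, le_top⟩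
    · refine Continuous.continuousOn ?_
      rw [hquot.continuous_iff]
      have e : p ∘ j = fun c => F (R.p c) := funext hpj
      rw [e]
      exact F.continuous.comp R.hp
    · intro s _ t _
      obtain ⟨c, rfl⟩ := hjs s
      obtain ⟨d, rfl⟩ := hjs t
      rw [← map_mul, hpj, hpj, hpj, R.pmul, map_add]
    · intro q
      obtain ⟨v, rfl⟩ := hFs q
      exact ⟨j (R.s v), Subgroup.mem_top _, by rw [hpj, R.ps]⟩
    · intro s _
      obtain ⟨c, rfl⟩ := hjs s
      rw [hpj, hFk, hQ1m]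
  -- the kernel
  obtain ⟨N', hN'⟩ : ∃ N' : Subgroup Q, N' = (⊤ : Subgroup R.ker).map (j.comp R.ker.subtype) :=
    ⟨_, rfl⟩
  have hN'm : ∀ c, R.p c ∈ E → (j c ∈ N' ↔ R.p c ∈ Λ) := by
    intro c hc
    rw [hN', Subgroup.mem_map]
    constructor
    · rintro ⟨y, -, hy⟩
      have h1 := hlift c y hy.symm
      have h2 : R.p (y : C) = 0 := y.2
      rwa [h2, sub_zero] at h1
    · intro h
      obtain ⟨γ, hγ, hγp⟩ := (hΛ _).1 h
      refine ⟨⟨c * γ⁻¹, ?_⟩, Subgroup.mem_top _, ?_⟩
      · rw [R.mem_ker, R.pmul, R.p_inv, hγp, add_neg_cancel]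
      · change j (c * γ⁻¹) = j c
        rw [map_mul, map_inv, hγ, inv_one, mul_one]
  have hN'le : N' ≤ Q1 := by
    intro q hq
    rw [hN'] at hq
    obtain ⟨y, -, rfl⟩ := Subgroup.mem_map.1 hq
    change j (y : C) ∈ Q1
    rw [hQ1m]
    have h2 : R.p (y : C) = 0 := y.2
    rw [h2]
    exact E.zero_mem
  have hkc := R.isClosed_ker
  have : LocallyCompactSpace R.ker := hkc.isClosedEmbedding_subtypeVal.locallyCompactSpace
  have : SecondCountableTopology R.ker :=
    inferInstanceAs (SecondCountableTopology ((R.ker : Set C) : Set C))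
  have hN'c : IsClosed (N' : Set Q) := by
    rw [hN', Subgroup.coe_map, Subgroup.coe_top]
    exact hjN.isClosedMap _ isClosed_univ
  have hN't : KTower.{u, v, w} N' := by
    rw [hN']
    exact KTower.map' _ hjN ht
  have hN'ne : N' ≠ ⊥ := by
    intro h0
    obtain ⟨y, hy⟩ := (Subgroup.ne_bot_iff_exists_ne_one).1 hne
    apply hy
    apply hjN.injective
    have h1 : (j.comp R.ker.subtype) y ∈ N' := by
      rw [hN']
      exact Subgroup.mem_map_of_mem _ (Subgroup.mem_top _)
    rw [h0, Subgroup.mem_bot] at h1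
    rw [h1, map_one]
  have hN'k : KeyAll.{u, v, w} N' := hN't.keyAll hN'ne
  -- the torus layer
  obtain ⟨p', hp'⟩ : ∃ p' : Q → EuclideanSpace ℝ (Fin b), p' = fun q =>
      (2 * Real.pi) • x (R.p (σ q)) := ⟨_, rfl⟩
  have hpj' : ∀ (q : Fin b → ℤ) (c : C),
      pch p' (zv q) (j c) = ch ⟪zv q, (2 * Real.pi) • x (R.p c)⟫ := by
    intro q c
    unfold pch
    rw [hp']
    change ch ⟪zv q, (2 * Real.pi) • x (R.p (σ (j c)))⟫ = _
    have h1 : R.p (σ (j c)) = (R.p (σ (j c)) - R.p c) + R.p c := by abel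
    have h2 : x (R.p (σ (j c))) = x (R.p (σ (j c)) - R.p c) + x (R.p c) := by
      rw [← map_add, ← h1]
    rw [h2, smul_add, inner_add_right, ch_add,
      ch_zv_of_int q _ ((hx _ (hΛE _ (hσ' c))).1 (hσ' c)), one_mul]
  have htor : IsTLayer Q1 N' p' := by
    refine ⟨?_, ?_, ?_, ?_, hN'le⟩
    · intro q
      refine Continuous.continuousOn ?_
      rw [hquot.continuous_iff]
      have e : pch p' (zv q) ∘ j = fun c => ch ⟪zv q, (2 * Real.pi) • x (R.p c)⟫ :=
        funext (hpj' q)
      rw [e]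
      have h1 : Continuous fun c => x (R.p c) := x.continuous.comp R.hp
      exact continuous_ch.comp (continuous_const.inner (h1.const_smul (2 * Real.pi)))
    · intro q s _ t _
      obtain ⟨c, rfl⟩ := hjs s
      obtain ⟨d, rfl⟩ := hjs t
      rw [← map_mul, hpj', hpj', hpj', R.pmul, map_add, smul_add, inner_add_right, ch_add]
    · intro y
      obtain ⟨v, hv, hvy⟩ := hxs ((2 * Real.pi)⁻¹ • y)
      refine ⟨j (R.s v), ?_, fun q => ?_⟩
      · rw [hQ1m, R.ps]
        exact hv
      · rw [hpj', R.ps, hvy, smul_smul, mul_inv_cancel₀ (by positivity), one_smul]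
    · intro s hs
      obtain ⟨c, rfl⟩ := hjs s
      have hc := (hQ1m c).1 hs
      rw [hN'm c hc, hx _ hc]
      constructor
      · intro h i
        exact int_of_ch_zv _ (fun q => by rw [← hpj']; exact h q) i
      · intro h q
        rw [hpj']
        exact ch_zv_of_int q _ h
  -- `KeyAll Q1`
  have hpc := R.isClosed_pre E
  have : LocallyCompactSpace (R.pre E) := hpc.isClosedEmbedding_subtypeVal.locallyCompactSpace
  have : SecondCountableTopology (R.pre E) :=
    inferInstanceAs (SecondCountableTopology ((R.pre E : Set C) : Set C))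
  have : LocallyCompactSpace Q1 := hQ1c.isClosedEmbedding_subtypeVal.locallyCompactSpace
  have : SecondCountableTopology Q1 :=
    inferInstanceAs (SecondCountableTopology ((Q1 : Set Q) : Set Q))
  obtain ⟨j', hj'⟩ : ∃ j' : R.pre E →* Q1, ∀ x, (j' x : Q) = j x :=
    ⟨{ toFun := fun x => ⟨j x, (hQ1m _).2 x.2⟩
       map_one' := Subtype.ext (map_one j)
       map_mul' := fun a b => Subtype.ext (map_mul j _ _) }, fun _ => rfl⟩
  have hj'c : Continuous j' := by
    rw [continuous_induced_rng]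
    have e : (Subtype.val ∘ j') = fun x : R.pre E => j x := funext hj'
    rw [e]
    exact hj.comp continuous_subtype_val
  have hj's : Function.Surjective j' := by
    rintro ⟨g, hg⟩
    obtain ⟨c, rfl⟩ := hjs g
    exact ⟨⟨c, (hQ1m c).1 hg⟩, Subtype.ext (hj' _)⟩
  have hj'o : IsOpenMap j' := by
    intro O hO
    obtain ⟨O1, hO1, rfl⟩ := isOpen_induced_iff.1 hO
    have e : j' '' (Subtype.val ⁻¹' O1) = Subtype.val ⁻¹' (j '' O1) := by
      ext y
      constructor
      · rintro ⟨x, hx, rfl⟩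
        exact ⟨x, hx, (hj' x).symm⟩
      · rintro ⟨c, hc, hcy⟩
        have h1 : j c ∈ Q1 := by rw [hcy]; exact y.2
        exact ⟨⟨c, (hQ1m c).1 h1⟩, hc, Subtype.ext ((hj' _).trans hcy)⟩
    rw [e]
    exact (hjo _ hO1).preimage continuous_subtype_val
  have hkc' := (R.sub E).isClosed_ker
  have : LocallyCompactSpace (R.sub E).ker :=
    hkc'.isClosedEmbedding_subtypeVal.locallyCompactSpace
  have : SecondCountableTopology (R.sub E).ker :=
    inferInstanceAs (SecondCountableTopology (((R.sub E).ker : Set (R.pre E)) :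
      Set (R.pre E)))
  obtain ⟨i, hi, his⟩ := R.exists_kerIso E
  have hjN' : IsClosedEmbedding (j'.comp (R.sub E).ker.subtype) := by
    obtain ⟨θ, hθ⟩ : ∃ θ : (R.sub E).ker → R.ker, ∀ y, ((θ y : R.ker) : C)
        = ((y : R.pre E) : C) :=
      ⟨fun y => ⟨((y : R.pre E) : C), (R.mem_ker_sub E y).1 y.2⟩, fun _ => rfl⟩
    have hθe : IsClosedEmbedding θ := by
      have h2 : IsClosedEmbedding (fun y : (R.sub E).ker => ((y : R.pre E) : C)) :=
        hpc.isClosedEmbedding_subtypeVal.comp hkc'.isClosedEmbedding_subtypeVal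
      have h3 : (fun y : (R.sub E).ker => ((y : R.pre E) : C)) = Subtype.val ∘ θ :=
        funext fun y => (hθ y).symm
      rw [h3] at h2
      exact IsClosedEmbedding.of_comp hkc.isClosedEmbedding_subtypeVal.isEmbedding h2
    have h1 : IsClosedEmbedding (Subtype.val ∘ (j'.comp (R.sub E).ker.subtype)) := by
      have e : (Subtype.val ∘ (j'.comp (R.sub E).ker.subtype))
          = (j.comp R.ker.subtype) ∘ θ := by
        funext y
        change ((j' ((y : R.pre E)) : Q1) : Q) = j ((θ y : R.ker) : C)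
        rw [hj', hθ]
      rw [e]
      exact hjN.comp hθe
    exact IsClosedEmbedding.of_comp hQ1c.isClosedEmbedding_subtypeVal.isEmbedding h1
  have hKQ1 : KeyAll.{u, v, w} Q1 := by
    refine keyAll_cover j' hj'c hj'o hj's (R.sub E) hjN' (fun i => (W i).sub E)
      (K.comap E.subtype.toAddMonoidHom) (hKc.preimage continuous_subtype_val) ?_ ?_ ?_
      ?_ (KeyAll.congr i hi his hH) ?_ ?_
    · intro v hv
      apply Subtype.ext
      exact hKl v fun t => hv t
    · intro v hv
      exact hK v hv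
    · intro c hc
      refine hΓ c ?_
      rw [← hj', hc]
      rfl
    · rintro v hv m hm ⟨c, hc, hcv⟩
      obtain ⟨d, hd, hdv⟩ := hpure v hv m hm ⟨c, by rw [← hj', hc]; rfl, by
        exact congrArg Subtype.val hcv⟩
      refine ⟨⟨d, ?_⟩, Subtype.ext ((hj' _).trans hd), Subtype.ext hdv⟩
      rw [R.mem_pre, hdv]
      exact v.2
    · obtain ⟨x, hx⟩ := (Subgroup.ne_bot_iff_exists_ne_one).1 hne
      refine (Subgroup.ne_bot_iff_exists_ne_one).2 ⟨i x, fun h => hx ?_⟩
      exact hi.injective (by rw [h, map_one])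
    · intro hK'
      have h2 := ht.map i hi
      have e : (⊤ : Subgroup R.ker).map i = ⊤ := by
        rw [← MonoidHom.range_eq_map, MonoidHom.range_eq_top]
        exact his
      rwa [e] at h2
  have hKQ : KeyAll.{u, v, w} Q :=
    keyAll_cover j hj hjo hjs R hjN W K hKc hKl hK hΓ hpure hH hne fun _ => ht
  exact ⟨Q1, N', m, b, p, p', hQ1c, hN'c, hlay, htor, hKQ, hKQ1, hN'k, hN'ne, hN't⟩

/-- the layers of reduced solvable groups -/
theorem RedSolv.exists_layers [Nontrivial Q] (h : RedSolv.{w, w'} Q) :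
    ∃ (Q1 N' : Subgroup Q) (m b : ℕ) (p : Q → EuclideanSpace ℝ (Fin m))
      (p' : Q → EuclideanSpace ℝ (Fin b)), IsClosed (Q1 : Set Q) ∧ IsClosed (N' : Set Q) ∧
      IsLayer (⊤ : Subgroup Q) Q1 p ∧ IsTLayer Q1 N' p' ∧ KeyAll.{u, v, w} Q ∧
      KeyAll.{u, v, w} Q1 ∧ KeyAll.{u, v, w} N' ∧ N' ≠ ⊥ ∧ KTower.{u, v, w} N' := by
  obtain ⟨C, _, _, _, _, _, _, D, j, hj, hjo, hjs, hcen, hΓN, hiso⟩ := h
  have hnt0 : Nontrivial C := hjs.nontrivial
  obtain ⟨m, W, K, hKc, hKm, hKu, hKl⟩ := D.exists_weight_unip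
  have hker : D.V.ker = D.N := by
    ext g
    exact (D.ker g).symm
  have hnt := D.nontrivial
  have hlc := D.lcN
  have hnil := D.nilp
  have hK : ∀ t ∈ isoKer j, D.V.p t ∈ K := fun t ht => (hKu _).2 (isoKer_unip D j ht)
  have hle : ∀ c, j c = 1 → c ∈ isoKer j := fun c hc =>
    ⟨fun c' => (hcen c hc c').symm, 1, one_pos, by rw [pow_one, hc]⟩
  have hNc : IsClosedEmbedding (j.comp D.V.ker.subtype) := by
    refine IsClosedEmbedding.of_continuous_injective_isClosedMap
      (hj.comp continuous_subtype_val) ?_ ?_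
    · rw [injective_iff_map_eq_one]
      intro x hx
      apply Subtype.ext
      refine hΓN _ hx ?_
      rw [← hker]
      exact x.2
    · intro F hF
      have h1 : IsClosed ((Subtype.val '' F : Set C)) :=
        D.V.isClosed_ker.isClosedEmbedding_subtypeVal.isClosedMap _ hF
      have h2 : (Subtype.val '' F : Set C) ⊆ D.N := by
        rintro _ ⟨x, -, rfl⟩
        rw [SetLike.mem_coe, ← hker]
        exact x.2
      have h3 := isoKer_closed D j hΓN K hKc hKl hK _ h1 h2
      rw [← (hjo.isQuotientMap hj hjs).isClosed_preimage]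
      have e : j ⁻¹' ((j.comp D.V.ker.subtype) '' F) = (Subtype.val '' F : Set C)
          * (isoKer j : Set C) := by
        ext c
        rw [Set.mem_preimage, Set.mem_mul]
        constructor
        · rintro ⟨x, hx, hxc⟩
          have hxc' : j (x : C) = j c := hxc
          refine ⟨x, ⟨x, hx, rfl⟩, (x : C)⁻¹ * c, ?_, by group⟩
          refine hle _ ?_
          rw [map_mul, map_inv, hxc', inv_mul_cancel]
        · rintro ⟨_, ⟨x, hx, rfl⟩, t, ht, rfl⟩
          refine ⟨x, hx, ?_⟩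
          rw [map_mul, hiso t ht, mul_one]
          rfl
      rw [e]
      exact h3
  have hkc := D.V.isClosed_ker
  have hsN : SecondCountableTopology D.N :=
    inferInstanceAs (SecondCountableTopology ((D.N : Set C) : Set C))
  refine Pool.Agent.AbCoc.exists_layers (I := Unit) (U := fun _ => EuclideanSpace ℝ (Fin m)) j hj
    hjo hjs D.V hNc (fun _ => W) K hKc hKl ?_ ?_ ?_ ?_ ?_ ?_
  · intro v hv
    rw [hKm]
    refine ⟨2, LinearMap.ext fun l => ?_⟩
    have h1 := hv () l
    rw [pow_two, Module.End.mul_apply]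
    change W.ρ v (W.ρ v l - l) - (W.ρ v l - l) = 0
    rw [h1, sub_self]
  · intro c hc
    exact hK _ (hle c hc)
  · rintro v hv m' hm' ⟨c, hc, hcv⟩
    obtain ⟨t, ht, htv⟩ := isoKer_pure D j ((hKu v).1 hv) hm' (hle c hc) hcv
    exact ⟨t, hiso t ht, htv⟩
  · rw [hker]
    exact nilpotent_keyAll D.R
  · rw [hker]
    exact D.N.ne_bot_iff_exists_ne_one.2 (exists_ne 1)
  · rw [hker]
    exact kTower_top D.R

end layers

end Pool.Agent.AbCoc
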