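import Pool.Agent.Lib_MP_418a80_sol.SV8
import Pool.Agent.Lib_MP_418a80_con.CGlue

/-!
# MP_418a80_an, T5, [FIN] group side 3: enlarging the compact normal subgroup of an open subgroup
-/

set_option autoImplicit false
set_option linter.unusedSectionVars false
set_option linter.unusedVariables false

open Topology Filter

namespace Pool.Agent.AbCoc

universe u v w z w'

section
variable {G : Type w} [Group G] [TopologicalSpace G] [IsTopologicalGroup G] [T2Space G]
  [SecondCountableTopology G] [LocallyCompactSpace G]

/-- **enlarging `B`**: `L` closed, `B` compact normal in `L`, `L / B` a quotient of a simply connected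
solvable group by a countable subgroup; then there is a larger compact normal subgroup `B'` of `L`
such that `L / B'` is reduced -/
theorem exists_enlarge (L B : Subgroup G) [hn : (B.subgroupOf L).Normal]
    (hL : IsClosed (L : Set G)) (hBc : IsCompact (B : Set G)) (hB : B ≤ L)
    {C : Type w'} [Group C] [TopologicalSpace C] [IsTopologicalGroup C] (h : SCSolv C)
    (j : C →* L ⧸ B.subgroupOf L) (hj : Continuous j) (hjo : IsOpenMap j)
    (hjs : Function.Surjective j) (hjk : Countable j.ker) :
    ∃ (B' : Subgroup G) (_ : (B'.subgroupOf L).Normal), B ≤ B' ∧ B' ≤ L ∧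
      IsCompact (B' : Set G) ∧ RedSolv.{w, w'} (L ⧸ B'.subgroupOf L) := by
  have hBL : IsClosed ((B.subgroupOf L : Subgroup L) : Set L) :=
    hBc.isClosed.preimage continuous_subtype_val
  have hBLc : IsCompact ((B.subgroupOf L : Subgroup L) : Set L) :=
    hL.isClosedEmbedding_subtypeVal.isCompact_preimage hBc
  have : LocallyCompactSpace L := hL.isClosedEmbedding_subtypeVal.locallyCompactSpace
  have : SecondCountableTopology L :=
    inferInstanceAs (SecondCountableTopology ((L : Set G) : Set G))
  have : T3Space (L ⧸ B.subgroupOf L) := inferInstance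
  have : SecondCountableTopology (L ⧸ B.subgroupOf L) := inferInstance
  obtain ⟨T, hTn, hTc, hT⟩ := h.exists_red j hj hjo hjs hjk
  have hmem : ∀ g : L, g ∈ (preL L B T).subgroupOf L ↔
      (g : L ⧸ B.subgroupOf L) ∈ T := by
    intro g
    rw [Subgroup.mem_subgroupOf, mem_preL]
    exact ⟨fun ⟨_, h1⟩ => h1, fun h1 => ⟨g.2, h1⟩⟩
  have hnorm : ((preL L B T).subgroupOf L).Normal := by
    constructor
    intro x hx g
    rw [hmem] at hx ⊢
    exact hTn.conj_mem _ hx (g : L ⧸ B.subgroupOf L)
  refine ⟨preL L B T, hnorm, le_preL hB T, preL_le T, ?_, ?_⟩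
  · have h1 := isCompact_preimage_mk hBLc hTc hTc.isClosed
    have e : ((preL L B T : Subgroup G) : Set G) = Subtype.val ''
        ((QuotientGroup.mk : L → L ⧸ B.subgroupOf L) ⁻¹' (T : Set (L ⧸ B.subgroupOf L))) := by
      ext g
      rw [SetLike.mem_coe, mem_preL]
      constructor
      · rintro ⟨h2, h3⟩
        exact ⟨⟨g, h2⟩, h3, rfl⟩
      · rintro ⟨x, hx, rfl⟩
        exact ⟨x.2, hx⟩
    rw [e]
    exact h1.image continuous_subtype_val
  · obtain ⟨e, he, heo, heb⟩ := exists_quotquot (B.subgroupOf L) T ((preL L B T).subgroupOf L) hmem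
    exact hT.congr e he heo heb

end

end Pool.Agent.AbCoc
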